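import Mathlib

/-!
Building a lower control function.
-/

namespace Pool.Agent.Helper15.CE

open Filter

theorem exists_lower {A : Type*} (d D : A → ℝ) (hD : ∀ a, 0 ≤ D a)
    (h : ∀ K : ℕ, ∃ T : ℝ, ∀ a, T ≤ d a → (K : ℝ) ≤ D a) :
    ∃ rm : ℝ → ℝ, Monotone rm ∧ Tendsto rm atTop atTop ∧ ∀ a, rm (d a) ≤ D a := by
  classical
  choose T hT using h
  have hF : ∀ t : ℝ, ∀ K : ℕ, (K : ℝ) ≤ t ∧ T K ≤ t → K ≤ ⌊t⌋₊ := by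
    intro t K h
    exact Nat.le_floor h.1
  refine ⟨fun t => ((Nat.findGreatest (fun K : ℕ => (K : ℝ) ≤ t ∧ T K ≤ t) ⌊t⌋₊ : ℕ) : ℝ),
    ?_, ?_, ?_⟩
  · intro s t hst
    show ((Nat.findGreatest (fun K : ℕ => (K : ℝ) ≤ s ∧ T K ≤ s) ⌊s⌋₊ : ℕ) : ℝ)
      ≤ ((Nat.findGreatest (fun K : ℕ => (K : ℝ) ≤ t ∧ T K ≤ t) ⌊t⌋₊ : ℕ) : ℝ)
    have h1 : (fun K : ℕ => (K : ℝ) ≤ s ∧ T K ≤ s) ≤ (fun K : ℕ => (K : ℝ) ≤ t ∧ T K ≤ t) :=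
      fun K h => ⟨h.1.trans hst, h.2.trans hst⟩
    exact_mod_cast Nat.findGreatest_mono h1 (Nat.floor_le_floor hst)
  · apply tendsto_atTop.2
    intro b
    obtain ⟨K, hK⟩ := exists_nat_ge b
    filter_upwards [eventually_ge_atTop (max (K : ℝ) (T K))] with t ht
    have h1 : (K : ℝ) ≤ t := (le_max_left _ _).trans ht
    have h2 : T K ≤ t := (le_max_right _ _).trans ht
    refine hK.trans ?_
    exact_mod_cast Nat.le_findGreatest (P := fun K : ℕ => (K : ℝ) ≤ t ∧ T K ≤ t)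
      (hF t K ⟨h1, h2⟩) ⟨h1, h2⟩
  · intro a
    show ((Nat.findGreatest (fun K : ℕ => (K : ℝ) ≤ d a ∧ T K ≤ d a) ⌊d a⌋₊ : ℕ) : ℝ) ≤ D a
    rcases Nat.eq_zero_or_pos (Nat.findGreatest (fun K : ℕ => (K : ℝ) ≤ d a ∧ T K ≤ d a)
      ⌊d a⌋₊) with h0 | h0
    · rw [h0]
      simpa using hD a
    · have h1 := Nat.findGreatest_of_ne_zero (P := fun K : ℕ => (K : ℝ) ≤ d a ∧ T K ≤ d a)
        (n := ⌊d a⌋₊) rfl h0.ne'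
      exact hT _ a h1.2

end Pool.Agent.Helper15.CE
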