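import Mathlib
import Pool.Agent.Helper17.TC.Cat
import Pool.Agent.Helper17.TC.Word

/-!
Stewart's inequality characterises CAT(0) spaces.
-/

namespace Pool.Agent.Helper15.CE

open Pool.Agent.Helper17.TC

/-- every segment has points of each ratio with Stewart's inequality -/
def Stew (Y : Type*) [PseudoMetricSpace Y] : Prop :=
  ∀ (y z : Y) (t : ℝ), 0 ≤ t → t ≤ 1 → ∃ w : Y, ∀ x : Y,
    dist x w ^ 2 ≤ (1 - t) * dist x y ^ 2 + t * dist x z ^ 2 - t * (1 - t) * dist y z ^ 2

theorem plane_sq (x' y' z' : ℂ) (s t : ℝ) :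
    dist (x' + s * (y' - x')) (x' + t * (z' - x')) ^ 2
      = s ^ 2 * dist x' y' ^ 2 + t ^ 2 * dist x' z' ^ 2
        - s * t * (dist x' y' ^ 2 + dist x' z' ^ 2 - dist y' z' ^ 2) := by
  simp only [Complex.dist_eq, Complex.sq_norm, Complex.normSq_apply]
  simp only [Complex.sub_re, Complex.sub_im, Complex.add_re, Complex.add_im, Complex.mul_re,
    Complex.mul_im, Complex.ofReal_re, Complex.ofReal_im]
  ring

section
variable {Y : Type*} [MetricSpace Y]

theorem eq_of_stew {y z w p : Y} {t : ℝ} (h0 : 0 ≤ t) (h1 : t ≤ 1)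
    (hw : ∀ x : Y,
      dist x w ^ 2 ≤ (1 - t) * dist x y ^ 2 + t * dist x z ^ 2 - t * (1 - t) * dist y z ^ 2)
    (hy : dist p y = t * dist y z) (hz : dist p z = (1 - t) * dist y z) : p = w := by
  have h := hw p
  rw [hy, hz] at h
  have e : (1 - t) * (t * dist y z) ^ 2 + t * ((1 - t) * dist y z) ^ 2
      - t * (1 - t) * dist y z ^ 2 = 0 := by ring
  rw [e] at h
  have h2 : dist p w = 0 := by
    have := sq_nonneg (dist p w)
    exact pow_eq_zero_iff two_ne_zero |>.1 (le_antisymm h this)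
  exact dist_eq_zero.1 h2

theorem stew_dist {y z : Y} {w : ℝ → Y}
    (hw : ∀ t, 0 ≤ t → t ≤ 1 → ∀ x : Y,
      dist x (w t) ^ 2 ≤ (1 - t) * dist x y ^ 2 + t * dist x z ^ 2 - t * (1 - t) * dist y z ^ 2)
    {s t : ℝ} (hs : 0 ≤ s) (hst : s ≤ t) (ht : t ≤ 1) :
    dist (w s) (w t) = (t - s) * dist y z := by
  have hs1 : s ≤ 1 := hst.trans ht
  have ht0 : 0 ≤ t := hs.trans hst
  have hD : 0 ≤ dist y z := dist_nonneg
  have a1 : dist y (w s) ≤ s * dist y z := by
    have h := hw s hs hs1 y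
    rw [dist_self] at h
    have h2 : dist y (w s) ^ 2 ≤ (s * dist y z) ^ 2 := by nlinarith
    exact (pow_le_pow_iff_left₀ dist_nonneg (by positivity) two_ne_zero).1 h2
  have a2 : dist z (w t) ≤ (1 - t) * dist y z := by
    have h := hw t ht0 ht z
    rw [dist_self, dist_comm z y] at h
    have h2 : dist z (w t) ^ 2 ≤ ((1 - t) * dist y z) ^ 2 := by nlinarith
    have h3 : 0 ≤ (1 - t) * dist y z := mul_nonneg (by linarith) hD
    exact (pow_le_pow_iff_left₀ dist_nonneg h3 two_ne_zero).1 h2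
  have b1 : (w s = w s) := rfl
  have c1 : dist (w s) y ^ 2 ≤ (s * dist y z) ^ 2 := by
    rw [dist_comm]
    exact pow_le_pow_left₀ dist_nonneg a1 2
  have c2 : dist (w s) z ^ 2 ≤ ((1 - s) * dist y z) ^ 2 := by
    have h := hw s hs hs1 z
    rw [dist_self, dist_comm z y, dist_comm z (w s)] at h
    nlinarith
  have d := hw t ht0 ht (w s)
  have up : dist (w s) (w t) ^ 2 ≤ ((t - s) * dist y z) ^ 2 := by
    have e1 : (1 - t) * dist (w s) y ^ 2 ≤ (1 - t) * (s * dist y z) ^ 2 :=
      mul_le_mul_of_nonneg_left c1 (by linarith)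
    have e2 : t * dist (w s) z ^ 2 ≤ t * ((1 - s) * dist y z) ^ 2 :=
      mul_le_mul_of_nonneg_left c2 ht0
    nlinarith
  have h3 : 0 ≤ (t - s) * dist y z := mul_nonneg (by linarith) hD
  have up' := (pow_le_pow_iff_left₀ dist_nonneg h3 two_ne_zero).1 up
  have lo : dist y z ≤ dist y (w s) + dist (w s) (w t) + dist (w t) z :=
    dist_triangle4 _ _ _ _
  rw [dist_comm (w t) z] at lo
  nlinarith

theorem Stew.isCAT0 (h : Stew Y) : IsCAT0 Y := by
  refine ⟨fun x y => ?_, ?_⟩
  · have h' : ∀ t : ℝ, ∃ w : Y, 0 ≤ t → t ≤ 1 → ∀ p : Y,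
        dist p w ^ 2 ≤ (1 - t) * dist p x ^ 2 + t * dist p y ^ 2
          - t * (1 - t) * dist x y ^ 2 := by
      intro t
      by_cases ht : 0 ≤ t ∧ t ≤ 1
      · obtain ⟨w, hw⟩ := h x y t ht.1 ht.2
        exact ⟨w, fun _ _ => hw⟩
      · exact ⟨x, fun h1 h2 => absurd ⟨h1, h2⟩ ht⟩
    choose w hw using h'
    rcases eq_or_ne x y with rfl | hxy
    · refine ⟨fun _ => x, rfl, rfl, ?_⟩
      intro s hs t ht
      rw [dist_self] at hs ht
      have e1 : s = 0 := le_antisymm hs.2 hs.1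
      have e2 : t = 0 := le_antisymm ht.2 ht.1
      simp [e1, e2]
    · have hD : 0 < dist x y := dist_pos.2 hxy
      refine ⟨fun s => w (s / dist x y), ?_, ?_, ?_⟩
      · show w (0 / dist x y) = x
        rw [zero_div]
        symm
        apply eq_of_stew (y := x) (z := y) (t := 0) le_rfl zero_le_one (hw 0 le_rfl zero_le_one)
        · simp
        · simp
      · show w (dist x y / dist x y) = y
        rw [div_self hD.ne']
        symm
        apply eq_of_stew (y := x) (z := y) (t := 1) zero_le_one le_rfl (hw 1 zero_le_one le_rfl)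
        · rw [dist_comm]; simp
        · simp
      · intro s hs t ht
        have key : ∀ s t : ℝ, 0 ≤ s → s ≤ t → t ≤ dist x y →
            dist (w (s / dist x y)) (w (t / dist x y)) = |s - t| := by
          intro s t h1 h2 h3
          rw [stew_dist (w := w) hw (by positivity) (by gcongr) ((div_le_one hD).2 h3)]
          rw [abs_sub_comm, abs_of_nonneg (by linarith)]
          field_simp
        rcases le_total s t with hst | hst
        · exact key s t hs.1 hst ht.2
        · show dist (w (s / dist x y)) (w (t / dist x y)) = |s - t|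
          rw [dist_comm, key t s ht.1 hst hs.2, abs_sub_comm]
  · intro x y z α β hα hβ x' y' z' e1 e2 e3 s hs t ht
    have pt : ∀ (y : Y) (γ : ℝ → Y), IsGeod γ x y → ∀ s ∈ Set.Icc (0 : ℝ) 1, ∀ p : Y,
        dist p (γ (s * dist x y)) ^ 2 ≤ (1 - s) * dist p x ^ 2 + s * dist p y ^ 2
          - s * (1 - s) * dist x y ^ 2 := by
      intro y γ hγ s hs p
      obtain ⟨w, hw⟩ := h x y s hs.1 hs.2
      have hD : 0 ≤ dist x y := dist_nonneg
      have m0 : (0 : ℝ) ∈ Set.Icc 0 (dist x y) := ⟨le_rfl, hD⟩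
      have m1 : dist x y ∈ Set.Icc 0 (dist x y) := ⟨hD, le_rfl⟩
      have ms : s * dist x y ∈ Set.Icc 0 (dist x y) :=
        ⟨mul_nonneg hs.1 hD, mul_le_of_le_one_left hD hs.2⟩
      have e : γ (s * dist x y) = w := by
        apply eq_of_stew hs.1 hs.2 hw
        · have := hγ.2.2 _ ms _ m0
          rw [hγ.1, sub_zero, abs_of_nonneg ms.1] at this
          exact this
        · have := hγ.2.2 _ ms _ m1
          rw [hγ.2.1] at this
          rw [this, abs_sub_comm, abs_of_nonneg (by linarith [ms.2])]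
          ring
      rw [e]
      exact hw p
    have hq := pt z β hβ t ht (α (s * dist x y))
    have hz := pt y α hα s hs z
    have hx : dist (α (s * dist x y)) x ^ 2 = s ^ 2 * dist x y ^ 2 := by
      have hD : 0 ≤ dist x y := dist_nonneg
      have m0 : (0 : ℝ) ∈ Set.Icc 0 (dist x y) := ⟨le_rfl, hD⟩
      have ms : s * dist x y ∈ Set.Icc 0 (dist x y) :=
        ⟨mul_nonneg hs.1 hD, mul_le_of_le_one_left hD hs.2⟩
      have := hα.2.2 _ ms _ m0
      rw [hα.1, sub_zero, abs_of_nonneg ms.1] at this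
      rw [this]; ring
    rw [hx] at hq
    rw [dist_comm (α (s * dist x y)) z] at hq
    have hfin : dist (α (s * dist x y)) (β (t * dist x z)) ^ 2
        ≤ dist (x' + s * (y' - x')) (x' + t * (z' - x')) ^ 2 := by
      rw [plane_sq, e1, e2, e3]
      have e4 : t * dist z (α (s * dist x y)) ^ 2 ≤ t * ((1 - s) * dist z x ^ 2
          + s * dist z y ^ 2 - s * (1 - s) * dist x y ^ 2) := mul_le_mul_of_nonneg_left hz ht.1
      rw [dist_comm z x, dist_comm z y] at e4
      nlinarith
    exact (pow_le_pow_iff_left₀ dist_nonneg dist_nonneg two_ne_zero).1 hfin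

theorem stew_of_isCAT0 (h : IsCAT0 Y) {y z : Y} {γ : ℝ → Y} (hγ : IsGeod γ y z) (x : Y)
    {t : ℝ} (h0 : 0 ≤ t) (h1 : t ≤ 1) :
    dist x (γ (t * dist y z)) ^ 2
      ≤ (1 - t) * dist x y ^ 2 + t * dist x z ^ 2 - t * (1 - t) * dist y z ^ 2 := by
  rcases eq_or_ne y z with rfl | hyz
  · have e : γ (t * dist y y) = y := by rw [dist_self, mul_zero, hγ.1]
    rw [e, dist_self]
    nlinarith
  · have ha : 0 < dist y z := dist_pos.2 hyz
    obtain ⟨z', e1, e2, e3⟩ := exists_triangle (a := dist y z) (b := dist y x) (c := dist z x) ha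
      dist_nonneg dist_nonneg
      (by have := dist_triangle y x z; rw [dist_comm x z] at this; exact this)
      (dist_triangle y z x)
      (by have := dist_triangle z y x; rw [dist_comm z y] at this; exact this)
    obtain ⟨β, hβ⟩ := h.1 y x
    have h2 := h.2 y z x γ β hγ hβ 0 (dist y z : ℂ) z' e1 e2 e3 t ⟨h0, h1⟩ 1 ⟨zero_le_one, le_rfl⟩
    rw [one_mul, hβ.2.1] at h2
    have h3 := pow_le_pow_left₀ dist_nonneg h2 2
    rw [plane_sq, e1, e2, e3, dist_comm _ x] at h3
    rw [dist_comm y x, dist_comm z x] at h3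
    nlinarith

end

end Pool.Agent.Helper15.CE
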