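import Mathlib
import Pool.Agent.Helper15.CE.Stew

/-!
Square summable products of pointed metric spaces.
-/

namespace Pool.Agent.Helper15.CE

open Real

/-- square summable product of the spaces `C i` with base points `o i` -/
structure SqSum {ι : Type*} {C : ι → Type*} [∀ i, MetricSpace (C i)] (o : ∀ i, C i) where
  /-- coordinates -/
  x : ∀ i, C i
  /-- square summability of the distances from the base points -/
  sum : Summable fun i => dist (x i) (o i) ^ 2

variable {ι : Type*} {C : ι → Type*} [∀ i, MetricSpace (C i)] {o : ∀ i, C i}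

theorem SqSum.summable (X Y : SqSum o) : Summable fun i => dist (X.x i) (Y.x i) ^ 2 := by
  apply Summable.of_nonneg_of_le (fun i => sq_nonneg _) _
    ((X.sum.mul_left 2).add (Y.sum.mul_left 2))
  intro i
  have h := dist_triangle_right (X.x i) (Y.x i) (o i)
  have h0 : 0 ≤ dist (X.x i) (Y.x i) := dist_nonneg
  have h1 : dist (X.x i) (Y.x i) ^ 2 ≤ (dist (X.x i) (o i) + dist (Y.x i) (o i)) ^ 2 :=
    pow_le_pow_left₀ h0 h 2
  nlinarith [sq_nonneg (dist (X.x i) (o i) - dist (Y.x i) (o i))]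

theorem sqrt_tsum_add_le {f g : ι → ℝ} (hf : ∀ i, 0 ≤ f i) (hg : ∀ i, 0 ≤ g i)
    (sf : Summable fun i => f i ^ 2) (sg : Summable fun i => g i ^ 2) :
    sqrt (∑' i, (f i + g i) ^ 2) ≤ sqrt (∑' i, f i ^ 2) + sqrt (∑' i, g i ^ 2) := by
  have h := Real.Lp_add_le_tsum_of_nonneg (p := 2) (f := f) (g := g) (by norm_num) hf hg
    (by simpa [Real.rpow_two] using sf) (by simpa [Real.rpow_two] using sg)
  simp only [Real.rpow_two] at h
  rw [Real.sqrt_eq_rpow, Real.sqrt_eq_rpow, Real.sqrt_eq_rpow]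
  exact h.2

noncomputable instance : MetricSpace (SqSum o) where
  dist X Y := sqrt (∑' i, dist (X.x i) (Y.x i) ^ 2)
  dist_self X := by
    show sqrt (∑' i, dist (X.x i) (X.x i) ^ 2) = 0
    simp
  dist_comm X Y := by
    show sqrt (∑' i, dist (X.x i) (Y.x i) ^ 2) = sqrt (∑' i, dist (Y.x i) (X.x i) ^ 2)
    simp only [dist_comm]
  dist_triangle X Y W := by
    show sqrt (∑' i, dist (X.x i) (W.x i) ^ 2)
      ≤ sqrt (∑' i, dist (X.x i) (Y.x i) ^ 2) + sqrt (∑' i, dist (Y.x i) (W.x i) ^ 2)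
    have h1 := sqrt_tsum_add_le (fun i => dist_nonneg (x := X.x i) (y := Y.x i))
      (fun i => dist_nonneg (x := Y.x i) (y := W.x i)) (X.summable Y) (Y.summable W)
    refine le_trans (sqrt_le_sqrt ?_) h1
    apply Summable.tsum_le_tsum
    · intro i
      exact pow_le_pow_left₀ dist_nonneg (dist_triangle _ _ _) 2
    · exact X.summable W
    · have s1 := X.summable Y
      have s2 := Y.summable W
      apply Summable.of_nonneg_of_le (fun i => sq_nonneg _) _
        ((s1.mul_left 2).add (s2.mul_left 2))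
      intro i
      nlinarith [sq_nonneg (dist (X.x i) (Y.x i) - dist (Y.x i) (W.x i))]
  eq_of_dist_eq_zero := by
    intro X Y h
    have h1 : ∑' i, dist (X.x i) (Y.x i) ^ 2 = 0 := by
      have h2 : 0 ≤ ∑' i, dist (X.x i) (Y.x i) ^ 2 := tsum_nonneg fun i => sq_nonneg _
      exact (sqrt_eq_zero h2).1 h
    have h3 := (hasSum_zero_iff_of_nonneg (fun i => sq_nonneg (dist (X.x i) (Y.x i)))).1
      (h1 ▸ (X.summable Y).hasSum)
    cases X with
    | mk x sx =>
      cases Y with
      | mk y sy =>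
        have : x = y := by
          funext i
          have h4 : dist (x i) (y i) ^ 2 = 0 := congrFun h3 i
          exact dist_eq_zero.1 (pow_eq_zero_iff two_ne_zero |>.1 h4)
        subst this
        rfl

theorem SqSum.dist_sq (X Y : SqSum o) : dist X Y ^ 2 = ∑' i, dist (X.x i) (Y.x i) ^ 2 :=
  sq_sqrt (tsum_nonneg fun _ => sq_nonneg _)

theorem stew_sqSum (h : ∀ i, Stew (C i)) : Stew (SqSum o) := by
  intro Y Z t h0 h1
  choose w hw using fun i => h i (Y.x i) (Z.x i) t h0 h1
  have hs : Summable fun i => dist (w i) (o i) ^ 2 := by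
    apply Summable.of_nonneg_of_le (fun i => sq_nonneg _) _
      ((Y.sum.mul_left (1 - t)).add (Z.sum.mul_left t))
    intro i
    have h2 := hw i (o i)
    have h3 : 0 ≤ t * (1 - t) * dist (Y.x i) (Z.x i) ^ 2 :=
      mul_nonneg (mul_nonneg h0 (by linarith)) (sq_nonneg _)
    rw [dist_comm (w i), dist_comm (Y.x i) (o i), dist_comm (Z.x i) (o i)]
    linarith
  refine ⟨⟨w, hs⟩, fun X => ?_⟩
  rw [SqSum.dist_sq, SqSum.dist_sq, SqSum.dist_sq, SqSum.dist_sq]
  have s1 := (X.summable Y).mul_left (1 - t)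
  have s2 := (X.summable Z).mul_left t
  have s3 := (Y.summable Z).mul_left (t * (1 - t))
  rw [← tsum_mul_left, ← tsum_mul_left, ← tsum_mul_left, ← s1.tsum_add s2,
    ← (s1.add s2).tsum_sub s3]
  exact Summable.tsum_le_tsum (fun i => hw i (X.x i)) (X.summable ⟨w, hs⟩) ((s1.add s2).sub s3)

end Pool.Agent.Helper15.CE
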