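import Mathlib
import Pool.Agent.Helper15.CE.Sum
import Pool.Agent.Helper15.CE.Ctl

/-!
Coarse embeddability into CAT(0) spaces can be checked one scale at a time.
-/

namespace Pool.Agent.Helper15.CE

open Filter Pool.Agent.Helper17.TC

universe u v

/-- `B` coarsely embeds into a CAT(0) space which lives in the universe `v` -/
def CoarseCAT0 (B : Type u) [MetricSpace B] : Prop :=
  ∃ (Y : Type v) (_ : MetricSpace Y), IsCAT0 Y ∧ ∃ (f : B → Y) (rm rp : ℝ → ℝ),
    MonotoneOn rm (Set.Ici 0) ∧ MonotoneOn rp (Set.Ici 0) ∧ Tendsto rm atTop atTop ∧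
    ∀ x y : B, rm (dist x y) ≤ dist (f x) (f y) ∧ dist (f x) (f y) ≤ rp (dist x y)

/-- maps at scale `k` -/
def Scale (B : Type u) [MetricSpace B] (k : ℕ) : Prop :=
  ∃ (E : Type v) (_ : MetricSpace E), Stew E ∧ ∃ f : B → E, (∀ x y, dist (f x) (f y) ≤ 2) ∧
    (∀ x y, dist x y ≤ k → dist (f x) (f y) ≤ (1 / 2) ^ k) ∧
    ∃ T : ℝ, ∀ x y, T ≤ dist x y → 1 ≤ dist (f x) (f y)

theorem bound_summable (N : ℕ) :
    Summable (fun k : ℕ => (if k < N then (4 : ℝ) else 0) + (1 / 4 : ℝ) ^ k) := by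
  apply Summable.add
  · apply summable_of_ne_finset_zero (s := Finset.range N)
    intro k hk
    rw [if_neg (by simpa using hk)]
  · exact summable_geometric_of_lt_one (by norm_num) (by norm_num)

theorem bound_tsum (N : ℕ) :
    ∑' k : ℕ, ((if k < N then (4 : ℝ) else 0) + (1 / 4 : ℝ) ^ k) ≤ 4 * N + 2 := by
  have s1 : Summable (fun k : ℕ => (if k < N then (4 : ℝ) else 0)) := by
    apply summable_of_ne_finset_zero (s := Finset.range N)
    intro k hk
    rw [if_neg (by simpa using hk)]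
  have s2 : Summable (fun k : ℕ => (1 / 4 : ℝ) ^ k) :=
    summable_geometric_of_lt_one (by norm_num) (by norm_num)
  rw [s1.tsum_add s2, tsum_geometric_of_lt_one (by norm_num) (by norm_num),
    tsum_eq_sum (s := Finset.range N) (by intro k hk; rw [if_neg (by simpa using hk)])]
  have h : ∑ k ∈ Finset.range N, (if k < N then (4 : ℝ) else 0) = 4 * N := by
    rw [Finset.sum_congr rfl (fun k hk => if_pos (Finset.mem_range.1 hk))]
    rw [Finset.sum_const, Finset.card_range, nsmul_eq_mul]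
    ring
  rw [h]
  norm_num

theorem term_bound {k N : ℕ} {d D : ℝ} (hD0 : 0 ≤ D) (hD2 : D ≤ 2) (hd : d ≤ N)
    (h : d ≤ k → D ≤ (1 / 2) ^ k) : D ^ 2 ≤ (if k < N then (4 : ℝ) else 0) + (1 / 4 : ℝ) ^ k := by
  by_cases hk : k < N
  · rw [if_pos hk]
    have : (0 : ℝ) ≤ (1 / 4 : ℝ) ^ k := by positivity
    nlinarith
  · rw [if_neg hk, zero_add]
    have h1 : (N : ℝ) ≤ k := by exact_mod_cast not_lt.1 hk
    have h2 := h (hd.trans h1)
    have h3 : D ^ 2 ≤ ((1 / 2 : ℝ) ^ k) ^ 2 := pow_le_pow_left₀ hD0 h2 2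
    rw [← pow_mul, mul_comm k 2, pow_mul] at h3
    norm_num at h3 ⊢
    exact h3

theorem stew_punit : Stew PUnit.{v + 1} := by
  intro y z t _ _
  refine ⟨y, fun x => ?_⟩
  have e : ∀ a b : PUnit.{v + 1}, dist a b = 0 := fun a b => by
    rw [Subsingleton.elim a b, dist_self]
  simp only [e]
  norm_num

theorem isCAT0_punit : IsCAT0 PUnit.{v + 1} := stew_punit.isCAT0

theorem coarse_of_scales {B : Type u} [MetricSpace B] (h : ∀ k : ℕ, Scale.{u, v} B k) :
    CoarseCAT0.{u, v} B := by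
  rcases isEmpty_or_nonempty B with hB | ⟨⟨b0⟩⟩
  · exact ⟨PUnit.{v + 1}, inferInstance, isCAT0_punit, fun b => (hB.false b).elim, id, id,
      monotone_id.monotoneOn _, monotone_id.monotoneOn _, tendsto_id,
      fun b => (hB.false b).elim⟩
  choose E inst hS f hb hv T hT using h
  let o : ∀ k, E k := fun k => f k b0
  have hsum : ∀ x : B, Summable fun k => dist (f k x) (o k) ^ 2 := by
    intro x
    obtain ⟨N, hN⟩ := exists_nat_ge (dist x b0)
    exact Summable.of_nonneg_of_le (fun k => sq_nonneg _)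
      (fun k => term_bound dist_nonneg (hb k x b0) hN (hv k x b0)) (bound_summable N)
  let F : B → SqSum o := fun x => ⟨fun k => f k x, hsum x⟩
  have hF : ∀ x y, dist (F x) (F y) ^ 2 = ∑' k, dist (f k x) (f k y) ^ 2 := fun x y =>
    SqSum.dist_sq _ _
  have hsF : ∀ x y, Summable fun k => dist (f k x) (f k y) ^ 2 := fun x y =>
    (F x).summable (F y)
  obtain ⟨rm, m1, m2, m3⟩ := exists_lower (A := B × B) (fun p => dist p.1 p.2)
    (fun p => dist (F p.1) (F p.2)) (fun p => dist_nonneg) (by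
      intro K
      refine ⟨∑ k ∈ Finset.range (K ^ 2), |T k|, ?_⟩
      rintro ⟨x, y⟩ hxy
      have h1 : ∀ k ∈ Finset.range (K ^ 2), (1 : ℝ) ≤ dist (f k x) (f k y) ^ 2 := by
        intro k hk
        have h2 : T k ≤ dist x y := by
          refine (le_abs_self _).trans (le_trans ?_ hxy)
          exact Finset.single_le_sum (f := fun k => |T k|) (fun i _ => abs_nonneg _) hk
        have h3 := hT k x y h2
        nlinarith
      have h2 : ((K ^ 2 : ℕ) : ℝ) ≤ dist (F x) (F y) ^ 2 := by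
        rw [hF]
        refine le_trans ?_ ((hsF x y).sum_le_tsum (Finset.range (K ^ 2))
          (fun k _ => sq_nonneg _))
        calc ((K ^ 2 : ℕ) : ℝ) = ∑ k ∈ Finset.range (K ^ 2), (1 : ℝ) := by simp
          _ ≤ _ := Finset.sum_le_sum h1
      push_cast at h2
      exact (pow_le_pow_iff_left₀ (Nat.cast_nonneg K) dist_nonneg two_ne_zero).1 h2)
  refine ⟨SqSum o, inferInstance, (stew_sqSum hS).isCAT0, F, rm, fun t => Real.sqrt (4 * t + 6),
    m1.monotoneOn _, ?_, m2, fun x y => ⟨m3 (x, y), ?_⟩⟩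
  · intro s _ t _ hst
    exact Real.sqrt_le_sqrt (by linarith)
  · apply Real.le_sqrt_of_sq_le
    rw [hF]
    have hN := Nat.le_ceil (dist x y)
    have hN2 := Nat.ceil_lt_add_one (dist_nonneg (x := x) (y := y))
    refine (Summable.tsum_le_tsum (fun k => term_bound dist_nonneg (hb k x y) hN (hv k x y))
      (hsF x y) (bound_summable _)).trans ((bound_tsum _).trans ?_)
    linarith

end Pool.Agent.Helper15.CE
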