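import Mathlib
import Pool.Agent.Helper15.CE.Stew

/-!
Numerical facts: the spherical hinge lemma and the spherical Stewart inequality.
-/

namespace Pool.Agent.Helper15.CE

open Real Pool.Agent.Helper17.TC

theorem cvx2 {f : ℝ → ℝ} {D : Set ℝ} (h : ConvexOn ℝ D f) {x y p q : ℝ} (hx : x ∈ D)
    (hy : y ∈ D) (hp : 0 ≤ p) (hq : 0 ≤ q) (hpq : p + q = 1) :
    f (p * x + q * y) ≤ p * f x + q * f y := h.2 hx hy hp hq hpq

theorem ccv2 {f : ℝ → ℝ} {D : Set ℝ} (h : ConcaveOn ℝ D f) {x y p q : ℝ} (hx : x ∈ D)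
    (hy : y ∈ D) (hp : 0 ≤ p) (hq : 0 ≤ q) (hpq : p + q = 1) :
    p * f x + q * f y ≤ f (p * x + q * y) := h.2 hx hy hp hq hpq

theorem sin_div_anti {r s : ℝ} (hr : 0 < r) (hrs : r ≤ s) (hs : s ≤ π) :
    sin s / s ≤ sin r / r := by
  have hs0 : 0 < s := hr.trans_le hrs
  have h := ccv2 strictConcaveOn_sin_Icc.concaveOn (x := 0) (y := s)
    ⟨le_rfl, pi_pos.le⟩ ⟨hs0.le, hs⟩ (p := 1 - r / s) (q := r / s)
    (by rw [sub_nonneg, div_le_one hs0]; exact hrs) (by positivity) (by ring)
  simp only [sin_zero, mul_zero, zero_add] at h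
  have e : r / s * s = r := by field_simp
  rw [e] at h
  rw [div_le_div_iff₀ hs0 hr]
  have h2 := mul_le_mul_of_nonneg_right h hs0.le
  have e2 : r / s * sin s * s = sin s * r := by field_simp
  rw [e2] at h2
  exact h2

theorem convex_cos_sqrt : ConvexOn ℝ (Set.Icc 0 (π ^ 2)) (fun s => cos (sqrt s)) := by
  have hd : ∀ s ∈ interior (Set.Icc (0 : ℝ) (π ^ 2)),
      HasDerivAt (fun s => cos (sqrt s)) (-sin (sqrt s) * (1 / (2 * sqrt s))) s := by
    intro s hs
    rw [interior_Icc] at hs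
    exact (hasDerivAt_cos (sqrt s)).comp s (hasDerivAt_sqrt hs.1.ne')
  apply MonotoneOn.convexOn_of_deriv (convex_Icc _ _)
  · exact (continuous_cos.comp continuous_sqrt).continuousOn
  · intro s hs
    exact (hd s hs).differentiableAt.differentiableWithinAt
  · intro s hs t ht hst
    rw [(hd s hs).deriv, (hd t ht).deriv]
    rw [interior_Icc] at hs ht
    have h1 : 0 < sqrt s := sqrt_pos.2 hs.1
    have h2 : sqrt s ≤ sqrt t := sqrt_le_sqrt hst
    have h3 : sqrt t ≤ π := by
      rw [show π = sqrt (π ^ 2) from (sqrt_sq pi_pos.le).symm]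
      exact sqrt_le_sqrt ht.2.le
    have h4 := sin_div_anti h1 h2 h3
    have e1 : -sin (sqrt s) * (1 / (2 * sqrt s)) = -(sin (sqrt s) / sqrt s) / 2 := by
      field_simp
    have e2 : -sin (sqrt t) * (1 / (2 * sqrt t)) = -(sin (sqrt t) / sqrt t) / 2 := by
      have : 0 < sqrt t := h1.trans_le h2
      field_simp
    rw [e1, e2]
    linarith

/-- the Euclidean side of a hinge is at least the spherical one -/
theorem hinge {m u k a : ℝ} (hm : 0 ≤ m) (hu : 0 ≤ u) (hmp : m ≤ π) (hup : u ≤ π)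
    (hk1 : -1 ≤ k) (hk2 : k ≤ 1) (ha : a ^ 2 = m ^ 2 + u ^ 2 - 2 * m * u * k)
    (ha0 : 0 ≤ a) (hap : a ≤ π) : cos a ≤ cos m * cos u + k * (sin m * sin u) := by
  have hss : 0 ≤ sin m * sin u :=
    mul_nonneg (sin_nonneg_of_nonneg_of_le_pi hm hmp) (sin_nonneg_of_nonneg_of_le_pi hu hup)
  have hpi : 0 < π := pi_pos
  have habs : |m - u| ≤ π := abs_le.2 ⟨by linarith, by linarith⟩
  have hd1 : (m - u) ^ 2 ∈ Set.Icc (0 : ℝ) (π ^ 2) := by
    refine ⟨sq_nonneg _, ?_⟩
    rw [← sq_abs]
    exact pow_le_pow_left₀ (abs_nonneg _) habs 2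
  have c1 : cos (sqrt ((m - u) ^ 2)) = cos (m - u) := by
    rw [sqrt_sq_eq_abs, cos_abs]
  have ca : cos (sqrt (a ^ 2)) = cos a := by rw [sqrt_sq ha0]
  rcases le_total (m + u) π with h | h
  · have hd2 : (m + u) ^ 2 ∈ Set.Icc (0 : ℝ) (π ^ 2) :=
      ⟨sq_nonneg _, pow_le_pow_left₀ (by linarith) h 2⟩
    have c2 : cos (sqrt ((m + u) ^ 2)) = cos (m + u) := by
      rw [sqrt_sq (by linarith)]
    have hc := cvx2 convex_cos_sqrt hd1 hd2 (p := (1 + k) / 2) (q := (1 - k) / 2)
      (by linarith) (by linarith) (by ring)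
    have e : (1 + k) / 2 * (m - u) ^ 2 + (1 - k) / 2 * (m + u) ^ 2 = a ^ 2 := by
      rw [ha]; ring
    rw [e, c1, c2, ca, cos_sub, cos_add] at hc
    nlinarith
  · rcases eq_or_lt_of_le h with h | h
    · -- boundary case m + u = π handled as above
      have hd2 : (m + u) ^ 2 ∈ Set.Icc (0 : ℝ) (π ^ 2) :=
        ⟨sq_nonneg _, pow_le_pow_left₀ (by linarith) h.symm.le 2⟩
      have c2 : cos (sqrt ((m + u) ^ 2)) = cos (m + u) := by
        rw [sqrt_sq (by linarith)]
      have hc := cvx2 convex_cos_sqrt hd1 hd2 (p := (1 + k) / 2) (q := (1 - k) / 2)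
        (by linarith) (by linarith) (by ring)
      have e : (1 + k) / 2 * (m - u) ^ 2 + (1 - k) / 2 * (m + u) ^ 2 = a ^ 2 := by
        rw [ha]; ring
      rw [e, c1, c2, ca, cos_sub, cos_add] at hc
      nlinarith
    · have hm0 : 0 < m := by linarith
      have hu0 : 0 < u := by linarith
      have hlt : (m - u) ^ 2 < π ^ 2 := by
        have h1 : |m - u| < π := abs_lt.2 ⟨by linarith, by linarith⟩
        rw [← sq_abs]
        exact pow_lt_pow_left₀ h1 (abs_nonneg _) two_ne_zero
      set L : ℝ := (π ^ 2 - a ^ 2) / (π ^ 2 - (m - u) ^ 2) with hL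
      have hden : 0 < π ^ 2 - (m - u) ^ 2 := by linarith
      have ha1 : (m - u) ^ 2 ≤ a ^ 2 := by
        rw [ha]
        have : 0 ≤ 2 * m * u * (1 - k) := by
          have : 0 ≤ 1 - k := by linarith
          positivity
        nlinarith
      have ha2 : a ^ 2 ≤ π ^ 2 := pow_le_pow_left₀ ha0 hap 2
      have hL0 : 0 ≤ L := div_nonneg (by linarith) hden.le
      have hL1 : L ≤ 1 := (div_le_one hden).2 (by linarith)
      have hLe : L * (π ^ 2 - (m - u) ^ 2) = π ^ 2 - a ^ 2 := by
        rw [hL]; field_simp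
      have hc := cvx2 convex_cos_sqrt hd1 (y := π ^ 2) ⟨by positivity, le_rfl⟩ (p := L) (q := 1 - L)
        hL0 (by linarith) (by ring)
      have e : L * (m - u) ^ 2 + (1 - L) * π ^ 2 = a ^ 2 := by linarith
      rw [e, c1, ca, sqrt_sq hpi.le, cos_pi, cos_sub] at hc
      -- k = L + (1 - L) k0
      set k0 : ℝ := (m ^ 2 + u ^ 2 - π ^ 2) / (2 * m * u) with hk0
      have hmu : 0 < 2 * m * u := by positivity
      have hk0e : k0 * (2 * m * u) = m ^ 2 + u ^ 2 - π ^ 2 := by
        rw [hk0]; field_simp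
      have hk01 : -1 ≤ k0 := by
        have h1 : π ^ 2 ≤ (m + u) ^ 2 := pow_le_pow_left₀ hpi.le h.le 2
        have h2 : -1 * (2 * m * u) ≤ k0 * (2 * m * u) := by rw [hk0e]; nlinarith
        exact le_of_mul_le_mul_right h2 hmu
      have hke : k = L + (1 - L) * k0 := by
        have h1 : k * (2 * m * u) = (L + (1 - L) * k0) * (2 * m * u) := by
          have e3 : (L + (1 - L) * k0) * (2 * m * u)
              = L * (2 * m * u) + (1 - L) * (k0 * (2 * m * u)) := by ring
          rw [e3, hk0e]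
          have e4 : k * (2 * m * u) = m ^ 2 + u ^ 2 - a ^ 2 := by rw [ha]; ring
          rw [e4]
          linarith
        exact mul_right_cancel₀ hmu.ne' h1
      have hlow : -1 ≤ cos m * cos u + k0 * (sin m * sin u) := by
        have h1 : -1 ≤ cos (m + u) := neg_one_le_cos _
        rw [cos_add] at h1
        nlinarith
      have h5 : (1 - L) * (-1) ≤ (1 - L) * (cos m * cos u + k0 * (sin m * sin u)) :=
        mul_le_mul_of_nonneg_left hlow (by linarith)
      rw [hke]
      nlinarith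

/-- Stewart's inequality on the sphere from Stewart's inequality in the plane -/
theorem sph_num {a b c u p : ℝ} (ha : 0 ≤ a) (hb : 0 ≤ b) (hc : 0 < c) (hcp : c ≤ π)
    (hu : 0 ≤ u) (huc : u ≤ c) (hp : 0 ≤ p)
    (h1 : c ≤ a + b) (h2 : a ≤ b + c) (h3 : b ≤ a + c) (hper : a + b + c ≤ 2 * π)
    (hst : c * p ^ 2 ≤ (c - u) * a ^ 2 + u * b ^ 2 - u * (c - u) * c) :
    p ≤ π ∧ sin (c - u) * cos a + sin u * cos b ≤ sin c * cos p := by
  have hpi : 0 < π := pi_pos
  obtain ⟨z, e1, e2, e3⟩ := exists_triangle (a := c) (b := a) (c := b) hc ha hb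
    (by linarith) (by linarith) (by linarith)
  have hx0 : dist (0 : ℂ) z = a := e3
  have hxc : dist (c : ℂ) z = b := e2
  -- the point on the base
  set m : ℝ := dist (u : ℂ) z with hm
  have hm0 : 0 ≤ m := dist_nonneg
  have du0 : dist (0 : ℂ) (u : ℂ) = u := by
    rw [Complex.dist_eq, zero_sub, norm_neg, Complex.norm_real, Real.norm_eq_abs, abs_of_nonneg hu]
  have duc : dist (u : ℂ) (c : ℂ) = c - u := by
    rw [Complex.dist_eq, ← Complex.ofReal_sub, Complex.norm_real, Real.norm_eq_abs,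
      abs_sub_comm, abs_of_nonneg (by linarith)]
  have hma : m ≤ a + u := by
    have := dist_triangle (u : ℂ) 0 z
    rw [dist_comm (u : ℂ) 0, du0, hx0] at this
    linarith
  have hmb : m ≤ b + (c - u) := by
    have := dist_triangle (u : ℂ) (c : ℂ) z
    rw [duc, hxc] at this
    linarith
  have hmp : m ≤ π := by linarith
  have sa : a ^ 2 = z.re ^ 2 + z.im ^ 2 := by
    rw [← hx0, Complex.dist_eq, Complex.sq_norm, Complex.normSq_apply]
    simp only [Complex.sub_re, Complex.sub_im, Complex.zero_re, Complex.zero_im]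
    ring
  have sb : b ^ 2 = (c - z.re) ^ 2 + z.im ^ 2 := by
    rw [← hxc, Complex.dist_eq, Complex.sq_norm, Complex.normSq_apply]
    simp only [Complex.sub_re, Complex.sub_im, Complex.ofReal_re, Complex.ofReal_im]
    ring
  have sm : m ^ 2 = (u - z.re) ^ 2 + z.im ^ 2 := by
    rw [hm, Complex.dist_eq, Complex.sq_norm, Complex.normSq_apply]
    simp only [Complex.sub_re, Complex.sub_im, Complex.ofReal_re, Complex.ofReal_im]
    ring
  have hpm : p ≤ m := by
    have h4 : c * p ^ 2 ≤ c * m ^ 2 := by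
      refine hst.trans (le_of_eq ?_)
      rw [sa, sb, sm]
      ring
    have h5 := le_of_mul_le_mul_left h4 hc
    exact (pow_le_pow_iff_left₀ hp hm0 two_ne_zero).1 h5
  refine ⟨hpm.trans hmp, ?_⟩
  -- the angle
  obtain ⟨k, hk1, hk2, hka⟩ : ∃ k : ℝ, -1 ≤ k ∧ k ≤ 1 ∧ m * k = z.re - u := by
    rcases eq_or_lt_of_le hm0 with h0 | h0
    · refine ⟨0, by norm_num, by norm_num, ?_⟩
      rw [← h0] at sm
      have h6 : (u - z.re) ^ 2 ≤ 0 := by nlinarith [sq_nonneg z.im]
      have h7 : u - z.re = 0 := by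
        have := sq_nonneg (u - z.re)
        exact pow_eq_zero_iff two_ne_zero |>.1 (le_antisymm h6 this)
      rw [mul_zero]; linarith
    · have h8 : |z.re - u| ≤ m := by
        apply abs_le_of_sq_le_sq _ hm0
        rw [sm]
        nlinarith [sq_nonneg z.im]
      have h9 := abs_le.1 h8
      refine ⟨(z.re - u) / m, ?_, ?_, ?_⟩
      · rw [le_div_iff₀ h0]; linarith
      · rw [div_le_iff₀ h0]; linarith
      · field_simp
  have ga : cos a ≤ cos m * cos u + (-k) * (sin m * sin u) := by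
    apply hinge hm0 hu hmp (huc.trans hcp) (by linarith) (by linarith) _ ha (by linarith)
    have : 2 * m * u * (-k) = -(2 * u * (m * k)) := by ring
    rw [this, hka, sm, sa]; ring
  have gb : cos b ≤ cos m * cos (c - u) + k * (sin m * sin (c - u)) := by
    apply hinge hm0 (by linarith) hmp (by linarith) hk1 hk2 _ hb (by linarith)
    have : 2 * m * (c - u) * k = 2 * (c - u) * (m * k) := by ring
    rw [this, hka, sm, sb]; ring
  have s1 : 0 ≤ sin (c - u) := sin_nonneg_of_nonneg_of_le_pi (by linarith) (by linarith)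
  have s2 : 0 ≤ sin u := sin_nonneg_of_nonneg_of_le_pi hu (by linarith)
  have s3 : 0 ≤ sin c := sin_nonneg_of_nonneg_of_le_pi hc.le hcp
  have g1 := mul_le_mul_of_nonneg_left ga s1
  have g2 := mul_le_mul_of_nonneg_left gb s2
  have e : sin c = sin (c - u) * cos u + cos (c - u) * sin u := by
    rw [← sin_add]; congr 1; ring
  have g3 : cos m ≤ cos p := cos_le_cos_of_nonneg_of_le_pi hp hmp hpm
  have g4 : sin c * cos m ≤ sin c * cos p := mul_le_mul_of_nonneg_left g3 s3
  have g5 : sin (c - u) * cos a + sin u * cos b ≤ sin c * cos m := by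
    rw [e]; nlinarith
  exact g5.trans g4

/-- the case of perimeter at least `2 π` -/
theorem far_num {a b c u q : ℝ} (hu : 0 ≤ u) (huc : u ≤ c) (hcp : c ≤ π)
    (ha : 0 ≤ a) (hap : a ≤ π) (hb : 0 ≤ b) (hbp : b ≤ π) (hper : 2 * π ≤ a + b + c)
    (hq : 0 ≤ q) (hqp : q ≤ π) (h1 : q ≤ a + u) (h2 : q ≤ b + (c - u)) :
    sin (c - u) * cos a + sin u * cos b ≤ sin c * cos q := by
  have hpi : 0 < π := pi_pos
  have s1 : 0 ≤ sin (c - u) := sin_nonneg_of_nonneg_of_le_pi (by linarith) (by linarith)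
  have s2 : 0 ≤ sin u := sin_nonneg_of_nonneg_of_le_pi hu (by linarith)
  have s3 : 0 ≤ sin c := sin_nonneg_of_nonneg_of_le_pi (by linarith) hcp
  rcases le_total (a + u) π with h | h
  · have g1 : cos (a + u) ≤ cos q := cos_le_cos_of_nonneg_of_le_pi hq h h1
    have g2 : cos b ≤ cos (2 * π - c - a) :=
      cos_le_cos_of_nonneg_of_le_pi (by linarith) hbp (by linarith)
    have e1 : cos (2 * π - c - a) = cos (a + c) := by
      rw [show 2 * π - c - a = 2 * π - (a + c) by ring, cos_two_pi_sub]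
    rw [e1] at g2
    have g3 := mul_le_mul_of_nonneg_left g2 s2
    have g4 := mul_le_mul_of_nonneg_left g1 s3
    have e2 : sin (c - u) * cos a + sin u * cos (a + c) = sin c * cos (a + u) := by
      rw [sin_sub, cos_add, cos_add]; ring
    linarith
  · rcases le_total (b + (c - u)) π with h' | h'
    · have g1 : cos (b + (c - u)) ≤ cos q := cos_le_cos_of_nonneg_of_le_pi hq h' h2
      have g2 : cos a ≤ cos (2 * π - c - b) :=
        cos_le_cos_of_nonneg_of_le_pi (by linarith) hap (by linarith)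
      have e1 : cos (2 * π - c - b) = cos (b + c) := by
        rw [show 2 * π - c - b = 2 * π - (b + c) by ring, cos_two_pi_sub]
      rw [e1] at g2
      have g3 := mul_le_mul_of_nonneg_left g2 s1
      have g4 := mul_le_mul_of_nonneg_left g1 s3
      have e2 : sin (c - u) * cos (b + c) + sin u * cos b = sin c * cos (b + (c - u)) := by
        rw [cos_add b c, cos_add b (c - u), sin_sub, cos_sub]
        have := sin_sq_add_cos_sq c
        have e5 : cos c ^ 2 = 1 - sin c ^ 2 := by linarith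
        ring_nf
        rw [e5]
        ring
      linarith
    · have g1 : cos a ≤ -cos u := by
        rw [← cos_pi_sub]
        exact cos_le_cos_of_nonneg_of_le_pi (by linarith) hap (by linarith)
      have g2 : cos b ≤ -cos (c - u) := by
        rw [← cos_pi_sub]
        exact cos_le_cos_of_nonneg_of_le_pi (by linarith) hbp (by linarith)
      have g3 := mul_le_mul_of_nonneg_left g1 s1
      have g4 := mul_le_mul_of_nonneg_left g2 s2
      have g5 : sin c * (-1) ≤ sin c * cos q := mul_le_mul_of_nonneg_left (neg_one_le_cos q) s3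
      have e : sin c = sin (c - u) * cos u + cos (c - u) * sin u := by
        rw [← sin_add]; congr 1; ring
      nlinarith

end Pool.Agent.Helper15.CE
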