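import Mathlib
import Pool.Agent.Helper15.CE.Trig

/-!
The Euclidean cone over a space of angles which satisfies the spherical Stewart inequality is a
CAT(0) space.
-/

namespace Pool.Agent.Helper15.CE

open Real Pool.Agent.Helper17.TC

/-- a space of angles (distances cut off at `π`) of curvature at most 1 -/
structure Ang {Z : Type*} (θ : Z → Z → ℝ) : Prop where
  nonneg : ∀ x y, 0 ≤ θ x y
  le_pi : ∀ x y, θ x y ≤ π
  self : ∀ x, θ x x = 0
  symm : ∀ x y, θ x y = θ y x
  tri : ∀ x y z, θ x z ≤ θ x y + θ y z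
  stew : ∀ y z, θ y z < π → ∀ u, 0 ≤ u → u ≤ θ y z → ∃ w, ∀ x,
    sin (θ y z - u) * cos (θ x y) + sin u * cos (θ x z) ≤ sin (θ y z) * cos (θ x w)

/-- the third side of a planar triangle with sides `r`, `s` and angle `a` -/
noncomputable def cd (r s a : ℝ) : ℝ := sqrt (r ^ 2 + s ^ 2 - 2 * r * s * cos a)

theorem cd_arg {r s : ℝ} (hr : 0 ≤ r) (hs : 0 ≤ s) (a : ℝ) :
    0 ≤ r ^ 2 + s ^ 2 - 2 * r * s * cos a := by
  have h := cos_le_one a
  have h2 : r * s * cos a ≤ r * s * 1 := mul_le_mul_of_nonneg_left h (mul_nonneg hr hs)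
  nlinarith [sq_nonneg (r - s)]

theorem cd_nonneg (r s a : ℝ) : 0 ≤ cd r s a := sqrt_nonneg _

theorem cd_sq {r s : ℝ} (hr : 0 ≤ r) (hs : 0 ≤ s) (a : ℝ) :
    cd r s a ^ 2 = r ^ 2 + s ^ 2 - 2 * r * s * cos a := sq_sqrt (cd_arg hr hs a)

theorem cd_symm (r s a : ℝ) : cd r s a = cd s r a := by
  unfold cd
  congr 1
  ring

theorem cd_self (r : ℝ) : cd r r 0 = 0 := by
  unfold cd
  rw [cos_zero]
  have : r ^ 2 + r ^ 2 - 2 * r * r * 1 = 0 := by ring
  rw [this, sqrt_zero]

theorem cd_mono {r s a b : ℝ} (hr : 0 ≤ r) (hs : 0 ≤ s) (ha : 0 ≤ a) (hab : a ≤ b)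
    (hb : b ≤ π) : cd r s a ≤ cd r s b := by
  unfold cd
  apply sqrt_le_sqrt
  have h := cos_le_cos_of_nonneg_of_le_pi ha hb hab
  have h2 : r * s * cos b ≤ r * s * cos a := mul_le_mul_of_nonneg_left h (mul_nonneg hr hs)
  linarith

theorem cd_eq_norm {r s : ℝ} (hr : 0 ≤ r) (hs : 0 ≤ s) (a : ℝ) :
    cd r s a = ‖(r : ℂ) - s * Complex.exp (a * Complex.I)‖ := by
  have h : cd r s a ^ 2 = ‖(r : ℂ) - s * Complex.exp (a * Complex.I)‖ ^ 2 := by
    rw [cd_sq hr hs, Complex.sq_norm, Complex.normSq_apply, Complex.exp_mul_I]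
    simp only [Complex.sub_re, Complex.sub_im, Complex.add_re, Complex.add_im, Complex.mul_re,
      Complex.mul_im, Complex.ofReal_re, Complex.ofReal_im, Complex.I_re, Complex.I_im,
      ← Complex.ofReal_cos, ← Complex.ofReal_sin]
    have := sin_sq_add_cos_sq a
    nlinarith
  exact (pow_left_inj₀ (cd_nonneg _ _ _) (norm_nonneg _) two_ne_zero).1 h

theorem cd_tri_plane {r s t : ℝ} (hr : 0 ≤ r) (hs : 0 ≤ s) (ht : 0 ≤ t) (a b : ℝ) :
    cd r t (a + b) ≤ cd r s a + cd s t b := by
  rw [cd_eq_norm hr ht, cd_eq_norm hr hs, cd_eq_norm hs ht]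
  have e : ‖(s : ℂ) - t * Complex.exp (b * Complex.I)‖
      = ‖(s : ℂ) * Complex.exp (a * Complex.I)
        - t * Complex.exp (((a + b : ℝ) : ℂ) * Complex.I)‖ := by
    have h1 : (s : ℂ) * Complex.exp (a * Complex.I)
        - t * Complex.exp (((a + b : ℝ) : ℂ) * Complex.I)
        = Complex.exp (a * Complex.I) * ((s : ℂ) - t * Complex.exp (b * Complex.I)) := by
      rw [Complex.ofReal_add, add_mul, Complex.exp_add]
      ring
    rw [h1, norm_mul, Complex.norm_exp_ofReal_mul_I, one_mul]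
  rw [e]
  exact norm_sub_le_norm_sub_add_norm_sub _ _ _

theorem cd_pi {r t : ℝ} (hr : 0 ≤ r) (ht : 0 ≤ t) : cd r t π = r + t := by
  unfold cd
  rw [cos_pi]
  have : r ^ 2 + t ^ 2 - 2 * r * t * -1 = (r + t) ^ 2 := by ring
  rw [this, sqrt_sq (by linarith)]

theorem cd_tri {r s t a b c : ℝ} (hr : 0 ≤ r) (hs : 0 ≤ s) (ht : 0 ≤ t) (ha : 0 ≤ a)
    (hap : a ≤ π) (hbp : b ≤ π) (hc : 0 ≤ c) (hcp : c ≤ π) (h : c ≤ a + b) :
    cd r t c ≤ cd r s a + cd s t b := by
  rcases le_total (a + b) π with h1 | h1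
  · exact (cd_mono hr ht hc h h1).trans (cd_tri_plane hr hs ht a b)
  · have h2 := cd_mono hr ht hc hcp le_rfl
    have h3 := cd_tri_plane hr hs ht a (π - a)
    rw [show a + (π - a) = π by ring] at h3
    have h4 : cd s t (π - a) ≤ cd s t b := cd_mono hs ht (by linarith) (by linarith) hbp
    linarith

/-- points of the cone: a radius and a direction -/
structure PreCone {Z : Type*} {θ : Z → Z → ℝ} (h : Ang θ) where
  /-- radius -/
  r : ℝ
  /-- the radius is nonnegative -/
  r0 : 0 ≤ r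
  /-- direction -/
  z : Z

variable {Z : Type*} {θ : Z → Z → ℝ} {h : Ang θ}

noncomputable instance : PseudoMetricSpace (PreCone h) where
  dist X Y := cd X.r Y.r (θ X.z Y.z)
  dist_self X := by
    show cd X.r X.r (θ X.z X.z) = 0
    rw [h.self, cd_self]
  dist_comm X Y := by
    show cd X.r Y.r (θ X.z Y.z) = cd Y.r X.r (θ Y.z X.z)
    rw [cd_symm, h.symm]
  dist_triangle X Y W := by
    show cd X.r W.r (θ X.z W.z) ≤ cd X.r Y.r (θ X.z Y.z) + cd Y.r W.r (θ Y.z W.z)
    exact cd_tri X.r0 Y.r0 W.r0 (h.nonneg _ _) (h.le_pi _ _) (h.le_pi _ _) (h.nonneg _ _)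
      (h.le_pi _ _) (h.tri _ _ _)

theorem PreCone.dist_def (X Y : PreCone h) : dist X Y = cd X.r Y.r (θ X.z Y.z) := rfl

theorem PreCone.dist_sq (X Y : PreCone h) :
    dist X Y ^ 2 = X.r ^ 2 + Y.r ^ 2 - 2 * X.r * Y.r * cos (θ X.z Y.z) := by
  rw [PreCone.dist_def, cd_sq X.r0 Y.r0]

theorem cone_key (h : Ang θ) (y z : Z) {A B : ℝ} (hA : 0 ≤ A) (hB : 0 ≤ B) :
    ∃ (ρ : ℝ) (w : Z), 0 ≤ ρ ∧ ρ ^ 2 = A ^ 2 + B ^ 2 + 2 * A * B * cos (θ y z) ∧
      ∀ x, A * cos (θ x y) + B * cos (θ x z) ≤ ρ * cos (θ x w) := by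
  have hpi : 0 < π := pi_pos
  set c := θ y z with hc
  rcases eq_or_lt_of_le (h.le_pi y z) with hcp | hcp
  · rw [← hc] at hcp
    have hs : ∀ x, cos (θ x y) + cos (θ x z) ≤ 0 := by
      intro x
      have h1 : π ≤ θ x y + θ x z := by
        rw [← hcp, hc, h.symm x y]
        exact h.tri y x z
      have h2 : cos (θ x y) ≤ cos (π - θ x z) :=
        cos_le_cos_of_nonneg_of_le_pi (by linarith [h.le_pi x z]) (h.le_pi _ _) (by linarith)
      rw [cos_pi_sub] at h2
      linarith
    rw [hcp, cos_pi]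
    rcases le_total B A with hBA | hBA
    · refine ⟨A - B, y, by linarith, by ring, fun x => ?_⟩
      have := mul_le_mul_of_nonneg_left (hs x) hB
      nlinarith
    · refine ⟨B - A, z, by linarith, by ring, fun x => ?_⟩
      have := mul_le_mul_of_nonneg_left (hs x) hA
      nlinarith
  · rw [← hc] at hcp
    have hc0 : 0 ≤ c := h.nonneg y z
    rcases eq_or_lt_of_le hc0 with h0 | h0
    · refine ⟨A + B, y, by linarith, ?_, fun x => ?_⟩
      · rw [← h0, cos_zero]; ring
      · have h1 : θ x z ≤ θ x y := by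
          have := h.tri x y z
          rw [← hc, ← h0] at this
          linarith
        have h2 : θ x y ≤ θ x z := by
          have := h.tri x z y
          rw [h.symm z y, ← hc, ← h0] at this
          linarith
        rw [le_antisymm h1 h2]
        linarith
    · have hsc : 0 < sin c := sin_pos_of_pos_of_lt_pi h0 hcp
      set P : ℝ := A + B * cos c with hP
      set Q : ℝ := B * sin c with hQ
      have hQ0 : 0 ≤ Q := mul_nonneg hB hsc.le
      have hPQ : P ^ 2 + Q ^ 2 = A ^ 2 + B ^ 2 + 2 * A * B * cos c := by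
        have := sin_sq_add_cos_sq c
        have e : P ^ 2 + Q ^ 2 = A ^ 2 + B ^ 2 * (sin c ^ 2 + cos c ^ 2)
            + 2 * A * B * cos c := by rw [hP, hQ]; ring
        rw [e, this]; ring
      set ρ : ℝ := sqrt (P ^ 2 + Q ^ 2) with hρ
      have hρ2 : ρ ^ 2 = P ^ 2 + Q ^ 2 := sq_sqrt (by positivity)
      have hρ0 : 0 ≤ ρ := sqrt_nonneg _
      rcases eq_or_lt_of_le hρ0 with h1 | h1
      · -- the apex
        have h2 : P ^ 2 + Q ^ 2 = 0 := by rw [← hρ2, ← h1]; ring
        have hQz : Q = 0 := by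
          have : Q ^ 2 = 0 := by nlinarith [sq_nonneg P, sq_nonneg Q]
          exact pow_eq_zero_iff two_ne_zero |>.1 this
        have hPz : P = 0 := by
          have : P ^ 2 = 0 := by nlinarith [sq_nonneg P, sq_nonneg Q]
          exact pow_eq_zero_iff two_ne_zero |>.1 this
        have hBz : B = 0 := by
          rcases mul_eq_zero.1 hQz with h3 | h3
          · exact h3
          · exact absurd h3 hsc.ne'
        have hAz : A = 0 := by
          rw [hP, hBz] at hPz; linarith
        exact ⟨0, y, le_rfl, by rw [hAz, hBz]; ring, fun x => by rw [hAz, hBz]; simp⟩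
      · have hPle : |P| ≤ ρ := by
          apply abs_le_of_sq_le_sq _ hρ0
          rw [hρ2]
          nlinarith [sq_nonneg Q]
        have hPle' := abs_le.1 hPle
        set u : ℝ := arccos (P / ρ) with hu
        have hu0 : 0 ≤ u := arccos_nonneg _
        have hup : u ≤ π := arccos_le_pi _
        have hcu : ρ * cos u = P := by
          rw [hu, cos_arccos]
          · field_simp
          · rw [le_div_iff₀ h1]; linarith
          · rw [div_le_iff₀ h1]; linarith
        have hsu : ρ * sin u = Q := by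
          have h3 : 0 ≤ ρ * sin u :=
            mul_nonneg hρ0 (sin_nonneg_of_nonneg_of_le_pi hu0 hup)
          have h4 : (ρ * sin u) ^ 2 = Q ^ 2 := by
            have h5 := sin_sq_add_cos_sq u
            have h6 : (ρ * sin u) ^ 2 = ρ ^ 2 * (sin u ^ 2 + cos u ^ 2) - (ρ * cos u) ^ 2 := by
              ring
            rw [h6, h5, hcu, hρ2]; ring
          exact (pow_left_inj₀ h3 hQ0 two_ne_zero).1 h4
        have hsd : ρ * sin (c - u) = A * sin c := by
          rw [sin_sub]
          have : ρ * (sin c * cos u - cos c * sin u) = sin c * (ρ * cos u)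
              - cos c * (ρ * sin u) := by ring
          rw [this, hcu, hsu, hP, hQ]; ring
        have huc : u ≤ c := by
          by_contra hcon
          push_neg at hcon
          have h3 : sin (c - u) < 0 := by
            have : 0 < sin (u - c) := sin_pos_of_pos_of_lt_pi (by linarith) (by linarith)
            have e : c - u = -(u - c) := by ring
            rw [e, sin_neg]; linarith
          have h4 : ρ * sin (c - u) < 0 := mul_neg_of_pos_of_neg h1 h3
          rw [hsd] at h4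
          have : 0 ≤ A * sin c := mul_nonneg hA hsc.le
          linarith
        obtain ⟨w, hw⟩ := h.stew y z hcp u hu0 huc
        refine ⟨ρ, w, hρ0, by rw [hρ2, hPQ], fun x => ?_⟩
        have h3 := mul_le_mul_of_nonneg_left (hw x) hρ0
        rw [← hc] at h3
        have h4 : (A * cos (θ x y) + B * cos (θ x z)) * sin c ≤ ρ * cos (θ x w) * sin c := by
          have e1 : (A * cos (θ x y) + B * cos (θ x z)) * sin c
              = (A * sin c) * cos (θ x y) + (B * sin c) * cos (θ x z) := by ring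
          rw [e1, ← hsd, ← hQ, ← hsu]
          nlinarith
        exact le_of_mul_le_mul_right h4 hsc

theorem stew_preCone (h : Ang θ) : Stew (PreCone h) := by
  intro Y W t h0 h1
  obtain ⟨ρ, w, hρ, hρ2, hk⟩ := cone_key h Y.z W.z
    (A := (1 - t) * Y.r) (B := t * W.r) (mul_nonneg (by linarith) Y.r0) (mul_nonneg h0 W.r0)
  refine ⟨⟨ρ, hρ, w⟩, fun X => ?_⟩
  rw [PreCone.dist_sq, PreCone.dist_sq, PreCone.dist_sq, PreCone.dist_sq]
  show X.r ^ 2 + ρ ^ 2 - 2 * X.r * ρ * cos (θ X.z w) ≤ _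
  have h2 := mul_le_mul_of_nonneg_left (hk X.z) (mul_nonneg (by norm_num : (0 : ℝ) ≤ 2) X.r0)
  rw [hρ2]
  nlinarith

theorem Stew.sep {Y : Type*} [PseudoMetricSpace Y] (h : Stew Y) :
    Stew (SeparationQuotient Y) := by
  intro y z t h0 h1
  obtain ⟨y, rfl⟩ := SeparationQuotient.surjective_mk y
  obtain ⟨z, rfl⟩ := SeparationQuotient.surjective_mk z
  obtain ⟨w, hw⟩ := h y z t h0 h1
  refine ⟨SeparationQuotient.mk w, fun x => ?_⟩
  obtain ⟨x, rfl⟩ := SeparationQuotient.surjective_mk x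
  simp only [SeparationQuotient.dist_mk]
  exact hw x

end Pool.Agent.Helper15.CE
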