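import Mathlib
import Pool.Agent.Helper15.CE.Cone

/-!
The quotient of a CAT(0) space by a group of isometries with large displacement, rescaled, is a
space of angles of curvature at most 1.
-/

namespace Pool.Agent.Helper15.CE

open Real Pool.Agent.Helper17.TC

variable {G : Type*} [Group G] {Z : Type*} [MetricSpace Z] [MulAction G Z]

/-- rescaled quotient distance cut off at `π` -/
noncomputable def qa (N : Subgroup G) (e : ℝ) (x y : Z) : ℝ :=
  ⨅ g : N, min π (e * dist x ((g : G) • y))

variable {N : Subgroup G} {e : ℝ}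

theorem qa_bdd (he : 0 < e) (x y : Z) :
    BddBelow (Set.range fun g : N => min π (e * dist x ((g : G) • y))) := by
  refine ⟨0, ?_⟩
  rintro _ ⟨g, rfl⟩
  exact le_min pi_pos.le (mul_nonneg he.le dist_nonneg)

theorem qa_le (he : 0 < e) (x y : Z) {g : G} (hg : g ∈ N) : qa N e x y ≤ e * dist x (g • y) :=
  (ciInf_le (qa_bdd he x y) ⟨g, hg⟩).trans (min_le_right _ _)

theorem qa_le' (he : 0 < e) (x y : Z) : qa N e x y ≤ e * dist x y := by
  have := qa_le he x y (one_mem N)
  rwa [one_smul] at this

theorem qa_nonneg (he : 0 < e) (x y : Z) : 0 ≤ qa N e x y :=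
  le_ciInf fun _ => le_min pi_pos.le (mul_nonneg he.le dist_nonneg)

theorem qa_le_pi (he : 0 < e) (x y : Z) : qa N e x y ≤ π :=
  (ciInf_le (qa_bdd he x y) 1).trans (min_le_left _ _)

theorem dist_smul_right' (hi : ∀ g : G, Isometry fun z : Z => g • z) (g : G) (x y : Z) :
    dist x (g • y) = dist (g⁻¹ • x) y := by
  have := (hi g⁻¹).dist_eq x (g • y)
  rw [inv_smul_smul] at this
  exact this.symm

theorem qa_symm_le (hi : ∀ g : G, Isometry fun z : Z => g • z) (he : 0 < e) (x y : Z) :
    qa N e x y ≤ qa N e y x := by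
  apply le_ciInf
  intro g
  have h := ciInf_le (qa_bdd (N := N) he x y) g⁻¹
  refine h.trans (le_of_eq ?_)
  have e1 : dist x (((g⁻¹ : N) : G) • y) = dist y ((g : G) • x) := by
    rw [Subgroup.coe_inv, dist_smul_right' hi, inv_inv, dist_comm]
  show min π (e * dist x (((g⁻¹ : N) : G) • y)) = min π (e * dist y ((g : G) • x))
  rw [e1]

theorem qa_tri (hi : ∀ g : G, Isometry fun z : Z => g • z) (he : 0 < e) (x y z : Z) :
    qa N e x z ≤ qa N e x y + qa N e y z := by
  apply le_ciInf_add_ciInf
  intro g g'
  have h := ciInf_le (qa_bdd (N := N) he x z) (g * g')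
  refine h.trans ?_
  have e1 : dist x (((g * g' : N) : G) • z) ≤ dist x ((g : G) • y) + dist y ((g' : G) • z) := by
    have h1 := dist_triangle x ((g : G) • y) (((g * g' : N) : G) • z)
    rw [Subgroup.coe_mul, mul_smul, (hi (g : G)).dist_eq] at h1
    rwa [Subgroup.coe_mul, mul_smul]
  have h2 := mul_le_mul_of_nonneg_left e1 he.le
  have p0 := pi_pos
  have n1 : 0 ≤ e * dist x ((g : G) • y) := mul_nonneg he.le dist_nonneg
  have n2 : 0 ≤ e * dist y ((g' : G) • z) := mul_nonneg he.le dist_nonneg
  rcases le_total π (e * dist x ((g : G) • y)) with h3 | h3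
  · rw [min_eq_left h3]
    have : 0 ≤ min π (e * dist y ((g' : G) • z)) := le_min p0.le n2
    exact (min_le_left _ _).trans (by linarith)
  · rcases le_total π (e * dist y ((g' : G) • z)) with h4 | h4
    · rw [min_eq_left h4]
      have : 0 ≤ min π (e * dist x ((g : G) • y)) := le_min p0.le n1
      exact (min_le_left _ _).trans (by linarith)
    · rw [min_eq_right h3, min_eq_right h4]
      exact (min_le_right _ _).trans (by linarith)

theorem qa_attained (hi : ∀ g : G, Isometry fun z : Z => g • z) (he : 0 < e)
    (hsep : ∀ g ∈ N, g ≠ 1 → ∀ z : Z, 2 * π ≤ e * dist z (g • z)) {x y : Z}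
    (h : qa N e x y < π) : ∃ g ∈ N, e * dist x (g • y) = qa N e x y := by
  obtain ⟨g, hg⟩ := exists_lt_of_ciInf_lt h
  have hg' : e * dist x ((g : G) • y) < π := by
    rcases min_lt_iff.1 hg with h1 | h1
    · exact absurd h1 (lt_irrefl _)
    · exact h1
  refine ⟨g, g.2, le_antisymm ?_ (qa_le he x y g.2)⟩
  apply le_ciInf
  intro g'
  apply le_min hg'.le
  by_cases hgg : g' = g
  · rw [hgg]
  · have h1 : ((g' : G) * (g : G)⁻¹) ≠ 1 := by
      intro h2
      apply hgg
      apply Subtype.ext
      exact mul_inv_eq_one.1 h2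
    have h2 := hsep _ (N.mul_mem g'.2 (N.inv_mem g.2)) h1 ((g : G) • y)
    rw [mul_smul, inv_smul_smul] at h2
    have h3 := dist_triangle_left ((g : G) • y) ((g' : G) • y) x
    have h4 := mul_le_mul_of_nonneg_left h3 he.le
    rw [mul_add] at h4
    linarith

theorem ang_qa (hi : ∀ g : G, Isometry fun z : Z => g • z) (hZ : IsCAT0 Z) (he : 0 < e)
    (hsep : ∀ g ∈ N, g ≠ 1 → ∀ z : Z, 2 * π ≤ e * dist z (g • z)) :
    Ang (fun x y : Z => qa N e x y) where
  nonneg := qa_nonneg he
  le_pi := qa_le_pi he
  self x := by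
    apply le_antisymm _ (qa_nonneg he x x)
    have := qa_le' (N := N) he x x
    rwa [dist_self, mul_zero] at this
  symm x y := le_antisymm (qa_symm_le hi he x y) (qa_symm_le hi he y x)
  tri := qa_tri hi he
  stew := by
    intro y z hc u hu huc
    have p0 := pi_pos
    have hc0 : 0 ≤ qa N e y z := qa_nonneg he y z
    rcases eq_or_lt_of_le hc0 with h0 | h0
    · have hu0 : u = 0 := by rw [← h0] at huc; exact le_antisymm huc hu
      refine ⟨y, fun x => ?_⟩
      rw [hu0, ← h0]
      simp
    · obtain ⟨g, hgN, hg⟩ := qa_attained hi he hsep hc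
      obtain ⟨γ, hγ⟩ := hZ.1 y (g • z)
      set c := qa N e y z with hcdef
      set D := dist y (g • z) with hD
      have hD0 : 0 ≤ D := dist_nonneg
      have ht0 : 0 ≤ u / c := div_nonneg hu h0.le
      have ht1 : u / c ≤ 1 := (div_le_one h0).2 huc
      have htc : u / c * c = u := by field_simp
      set w := γ (u / c * D) with hw
      have ms : u / c * D ∈ Set.Icc 0 D := ⟨mul_nonneg ht0 hD0, mul_le_of_le_one_left hD0 ht1⟩
      have hyw : e * dist y w = u := by
        have := hγ.2.2 0 ⟨le_rfl, hD0⟩ _ ms
        rw [hγ.1, zero_sub, abs_neg, abs_of_nonneg ms.1] at this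
        rw [this]
        calc e * (u / c * D) = u / c * (e * D) := by ring
          _ = u := by rw [hg, htc]
      have hwz : e * dist w (g • z) = c - u := by
        have := hγ.2.2 _ ms D ⟨hD0, le_rfl⟩
        rw [hγ.2.1, abs_sub_comm, abs_of_nonneg (by linarith [ms.2])] at this
        rw [this]
        calc e * (D - u / c * D) = e * D - u / c * (e * D) := by ring
          _ = c - u := by rw [hg, htc]
      refine ⟨w, fun x => ?_⟩
      set a := qa N e x y with ha
      set b := qa N e x z with hb
      have ha0 : 0 ≤ a := qa_nonneg he x y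
      have hb0 : 0 ≤ b := qa_nonneg he x z
      have hap : a ≤ π := qa_le_pi he x y
      have hbp : b ≤ π := qa_le_pi he x z
      rcases lt_or_ge (a + b + c) (2 * π) with hper | hper
      · have hsym : qa N e z y = c := le_antisymm (qa_symm_le hi he z y) (qa_symm_le hi he y z)
        have hab : a ≤ b + c := by
          have := qa_tri (N := N) hi he x z y
          rwa [hsym] at this
        have hba : b ≤ a + c := qa_tri (N := N) hi he x y z
        have ha1 : a < π := by linarith
        have hb1 : b < π := by linarith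
        obtain ⟨g1, hg1N, hg1⟩ := qa_attained hi he hsep ha1
        obtain ⟨g2, hg2N, hg2⟩ := qa_attained hi he hsep hb1
        rw [dist_smul_right' hi] at hg1 hg2
        have hg2' : e * dist ((g * g2⁻¹) • x) (g • z) = b := by
          rw [mul_smul, (hi g).dist_eq, hg2]
        have hx : (g * g2⁻¹) • x = g1⁻¹ • x := by
          by_contra hne
          have h1 : (g * g2⁻¹) * g1 ≠ 1 := by
            intro h2
            apply hne
            rw [mul_eq_one_iff_eq_inv.1 h2]
          have h2 := hsep _ (N.mul_mem (N.mul_mem hgN (N.inv_mem hg2N)) hg1N) h1 (g1⁻¹ • x)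
          rw [smul_smul, mul_assoc (g * g2⁻¹), mul_inv_cancel, mul_one] at h2
          have h3 : dist (g1⁻¹ • x) ((g * g2⁻¹) • x)
              ≤ dist (g1⁻¹ • x) y + dist y (g • z) + dist (g • z) ((g * g2⁻¹) • x) :=
            dist_triangle4 _ _ _ _
          have h4 := mul_le_mul_of_nonneg_left h3 he.le
          rw [mul_add, mul_add, hg1, hg, dist_comm (g • z), hg2'] at h4
          linarith
        rw [hx] at hg2'
        have hst := stew_of_isCAT0 hZ hγ (g1⁻¹ • x) ht0 ht1
        rw [← hD, ← hw] at hst
        set p := e * dist (g1⁻¹ • x) w with hp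
        have hp0 : 0 ≤ p := mul_nonneg he.le dist_nonneg
        have hst2 : c * p ^ 2 ≤ (c - u) * a ^ 2 + u * b ^ 2 - u * (c - u) * c := by
          have h5 := mul_le_mul_of_nonneg_left hst (by positivity : 0 ≤ c * e ^ 2)
          have e1 : c * e ^ 2 * dist (g1⁻¹ • x) w ^ 2 = c * p ^ 2 := by rw [hp]; ring
          have e2 : c * e ^ 2 * ((1 - u / c) * dist (g1⁻¹ • x) y ^ 2
              + u / c * dist (g1⁻¹ • x) (g • z) ^ 2 - u / c * (1 - u / c) * D ^ 2)
              = (c - u / c * c) * (e * dist (g1⁻¹ • x) y) ^ 2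
                + (u / c * c) * (e * dist (g1⁻¹ • x) (g • z)) ^ 2
                - (u / c) * (c - u / c * c) * (e * D) ^ 2 := by ring
          rw [e1, e2, hg1, hg2', hg, htc] at h5
          have e3 : u / c * (c - u) * c ^ 2 = (u / c * c) * (c - u) * c := by ring
          rw [e3, htc] at h5
          exact h5
        have hcab : c ≤ a + b := by
          have h6 := mul_le_mul_of_nonneg_left (dist_triangle_left y (g • z) (g1⁻¹ • x)) he.le
          rw [mul_add, hg1, hg2', hg] at h6
          exact h6
        obtain ⟨hpp, hfin⟩ := sph_num ha0 hb0 h0 hc.le hu huc hp0 hcab hab hba hper.le hst2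
        have hq : qa N e x w ≤ p := by
          have := qa_le (N := N) he x w hg1N
          rwa [dist_smul_right' hi] at this
        have h7 : cos p ≤ cos (qa N e x w) :=
          cos_le_cos_of_nonneg_of_le_pi (qa_nonneg he x w) hpp hq
        have h8 : sin c * cos p ≤ sin c * cos (qa N e x w) :=
          mul_le_mul_of_nonneg_left h7 (sin_nonneg_of_nonneg_of_le_pi h0.le hc.le)
        exact hfin.trans h8
      · have h1 : qa N e x w ≤ a + u := by
          have h2 := qa_tri (N := N) hi he x y w
          have h3 := qa_le' (N := N) he y w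
          rw [hyw] at h3
          linarith
        have h2 : qa N e x w ≤ b + (c - u) := by
          have h2 := qa_tri (N := N) hi he x z w
          have h3 := qa_le (N := N) he w z hgN
          have h4 := qa_symm_le (N := N) hi he z w
          rw [hwz] at h3
          linarith
        exact far_num hu huc hc.le ha0 hap hb0 hbp hper (qa_nonneg he x w) (qa_le_pi he x w) h1 h2

end Pool.Agent.Helper15.CE
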