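import Mathlib

/-!
Word lengths and quotients.
-/

namespace Pool.Agent.Helper15.CE

/-- word length of `g` with respect to the set `S`: the least number of factors in a product of
elements of `S` and inverses of elements of `S` which is equal to `g` -/
noncomputable def wordLen {G : Type*} [Group G] (S : Set G) (g : G) : ℕ :=
  sInf {n : ℕ | ∃ l : List G, l.length = n ∧ (∀ x ∈ l, x ∈ S ∨ x⁻¹ ∈ S) ∧ l.prod = g}

variable {G : Type*} [Group G] {S : Set G}

theorem exists_word (hS : Subgroup.closure S = ⊤) (g : G) :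
    ∃ l : List G, (∀ x ∈ l, x ∈ S ∨ x⁻¹ ∈ S) ∧ l.prod = g := by
  have hg : g ∈ Subgroup.closure S := by rw [hS]; trivial
  induction hg using Subgroup.closure_induction with
  | mem x hx => exact ⟨[x], by simpa using Or.inl hx, by simp⟩
  | one => exact ⟨[], by simp, by simp⟩
  | mul x y _ _ hx hy =>
    obtain ⟨l, h2, h3⟩ := hx
    obtain ⟨l', h2', h3'⟩ := hy
    refine ⟨l ++ l', ?_, by simp [h3, h3']⟩
    intro x hx
    rcases List.mem_append.1 hx with hx | hx
    · exact h2 x hx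
    · exact h2' x hx
  | inv x _ hx =>
    obtain ⟨l, h2, h3⟩ := hx
    refine ⟨(l.map (fun x => x⁻¹)).reverse, ?_, ?_⟩
    · intro x hx
      simp only [List.mem_reverse, List.mem_map] at hx
      obtain ⟨y, hy, rfl⟩ := hx
      rw [inv_inv]
      exact (h2 y hy).symm
    · rw [← h3, List.prod_inv_reverse]

theorem wordLen_le {l : List G} (h : ∀ x ∈ l, x ∈ S ∨ x⁻¹ ∈ S) : wordLen S l.prod ≤ l.length :=
  Nat.sInf_le ⟨l, rfl, h, rfl⟩

theorem exists_min_word (hS : Subgroup.closure S = ⊤) (g : G) :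
    ∃ l : List G, l.length = wordLen S g ∧ (∀ x ∈ l, x ∈ S ∨ x⁻¹ ∈ S) ∧ l.prod = g := by
  have hne : {n : ℕ | ∃ l : List G, l.length = n ∧ (∀ x ∈ l, x ∈ S ∨ x⁻¹ ∈ S) ∧
      l.prod = g}.Nonempty := by
    obtain ⟨l, h2, h3⟩ := exists_word hS g
    exact ⟨l.length, l, rfl, h2, h3⟩
  exact Nat.sInf_mem hne

variable {N : Subgroup G} [N.Normal]

theorem closure_quot (hS : Subgroup.closure S = ⊤) :
    Subgroup.closure ((QuotientGroup.mk : G → G ⧸ N) '' S) = ⊤ := by
  have h := MonoidHom.map_closure (QuotientGroup.mk' N) S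
  rw [hS, ← MonoidHom.range_eq_map, MonoidHom.range_eq_top.2 (QuotientGroup.mk'_surjective N)] at h
  exact h.symm

theorem wordLen_quot_le (hS : Subgroup.closure S = ⊤) (g : G) :
    wordLen ((QuotientGroup.mk : G → G ⧸ N) '' S) (g : G ⧸ N) ≤ wordLen S g := by
  obtain ⟨l, h1, h2, h3⟩ := exists_min_word hS g
  have h4 : (l.map (QuotientGroup.mk : G → G ⧸ N)).prod = (g : G ⧸ N) := by
    rw [← h3]
    exact (map_list_prod (QuotientGroup.mk' N) l).symm
  rw [← h4, ← h1, ← List.length_map (f := (QuotientGroup.mk : G → G ⧸ N)) (as := l)]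
  apply wordLen_le
  intro x hx
  obtain ⟨y, hy, rfl⟩ := List.mem_map.1 hx
  rcases h2 y hy with h5 | h5
  · exact Or.inl ⟨y, h5, rfl⟩
  · exact Or.inr ⟨y⁻¹, h5, rfl⟩

theorem exists_lift_word (hS : Subgroup.closure S = ⊤) (q : G ⧸ N) :
    ∃ g : G, (g : G ⧸ N) = q ∧
      wordLen S g ≤ wordLen ((QuotientGroup.mk : G → G ⧸ N) '' S) q := by
  obtain ⟨l, h1, h2, h3⟩ := exists_min_word (closure_quot (N := N) hS) q
  have key : ∀ l : List (G ⧸ N), (∀ x ∈ l, x ∈ (QuotientGroup.mk : G → G ⧸ N) '' S ∨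
      x⁻¹ ∈ (QuotientGroup.mk : G → G ⧸ N) '' S) →
      ∃ l' : List G, l'.length = l.length ∧ (∀ x ∈ l', x ∈ S ∨ x⁻¹ ∈ S) ∧
        ((l'.prod : G) : G ⧸ N) = l.prod := by
    intro l
    induction l with
    | nil => intro _; exact ⟨[], rfl, by simp, rfl⟩
    | cons a l ih =>
      intro h
      obtain ⟨l', e1, e2, e3⟩ := ih (fun x hx => h x (List.mem_cons_of_mem _ hx))
      obtain ⟨b, hb, hb2⟩ : ∃ b : G, (b : G ⧸ N) = a ∧ (b ∈ S ∨ b⁻¹ ∈ S) := by
        rcases h a (List.mem_cons_self) with h5 | h5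
        · obtain ⟨b, hb, hb2⟩ := h5
          exact ⟨b, hb2, Or.inl hb⟩
        · obtain ⟨b, hb, hb2⟩ := h5
          refine ⟨b⁻¹, ?_, Or.inr (by rwa [inv_inv])⟩
          show ((b : G ⧸ N))⁻¹ = a
          rw [hb2, inv_inv]
      refine ⟨b :: l', by simp [e1], ?_, ?_⟩
      · intro x hx
        rcases List.mem_cons.1 hx with rfl | hx
        · exact hb2
        · exact e2 x hx
      · rw [List.prod_cons, List.prod_cons, QuotientGroup.mk_mul, e3, hb]
  obtain ⟨l', e1, e2, e3⟩ := key l h2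
  refine ⟨l'.prod, e3.trans h3, ?_⟩
  rw [← h1, ← e1]
  exact wordLen_le e2

theorem orbit_lip {Z : Type*} [MetricSpace Z] [MulAction G Z]
    (hi : ∀ g : G, Isometry fun z : Z => g • z) (z0 : Z) {L : ℝ}
    (hL : ∀ s ∈ S, dist z0 (s • z0) ≤ L) (hS : Subgroup.closure S = ⊤) (g : G) :
    dist z0 (g • z0) ≤ L * wordLen S g := by
  obtain ⟨l, h1, h2, h3⟩ := exists_min_word hS g
  have key : ∀ l : List G, (∀ x ∈ l, x ∈ S ∨ x⁻¹ ∈ S) → dist z0 (l.prod • z0) ≤ L * l.length := by
    intro l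
    induction l with
    | nil => intro _; simp
    | cons a l ih =>
      intro h
      have e1 := ih (fun x hx => h x (List.mem_cons_of_mem _ hx))
      have e2 : dist z0 (a • z0) ≤ L := by
        rcases h a (List.mem_cons_self) with h5 | h5
        · exact hL a h5
        · have := hL _ h5
          rw [← (hi a).dist_eq z0 (a⁻¹ • z0)] at this
          simpa [dist_comm] using this
      have e3 : dist (a • z0) (a • (l.prod • z0)) = dist z0 (l.prod • z0) := (hi a).dist_eq _ _
      have e4 := dist_triangle z0 (a • z0) (a • (l.prod • z0))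
      rw [e3] at e4
      rw [List.prod_cons, mul_smul, List.length_cons]
      push_cast
      linarith
  have := key l h2
  rw [h3, h1] at this
  exact this

end Pool.Agent.Helper15.CE
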