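import Mathlib
import Pool.Agent.Helper15.CE.Quo
import Pool.Agent.Helper15.CE.Crit
import Pool.Agent.Helper15.CE.Word

/-!
Box spaces of groups which act properly and coboundedly on CAT(0) spaces.
-/

namespace Pool.Agent.Helper15.CE

open Filter Real Pool.Agent.Helper17.TC

universe u v

section disp

variable {G : Type u} [Group G] {Z : Type v} [MetricSpace Z] [MulAction G Z]

theorem displacement (hi : ∀ g : G, Isometry fun z : Z => g • z) (z0 : Z)
    (hprop : ∀ r : ℝ, {g : G | dist z0 (g • z0) ≤ r}.Finite)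
    (hcob : ∃ r : ℝ, ∀ z : Z, ∃ g : G, dist z (g • z0) ≤ r)
    (N : ℕ → Subgroup G) [hn : ∀ n, (N n).Normal]
    (hres : ∀ g : G, g ≠ 1 → ∀ᶠ n in atTop, g ∉ N n) (R : ℝ) :
    ∃ K : ℕ, ∀ n, K < n → ∀ g ∈ N n, g ≠ 1 → ∀ z : Z, R ≤ dist z (g • z) := by
  obtain ⟨r, hr⟩ := hcob
  have hfin := hprop (R + 2 * r)
  have h1 : ∀ᶠ n in atTop, ∀ g ∈ {g : G | dist z0 (g • z0) ≤ R + 2 * r}, g ≠ 1 → g ∉ N n := by
    have := (hfin.eventually_all (l := (atTop : Filter ℕ))
      (p := fun g n => g ≠ 1 → g ∉ N n)).2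
    apply this
    intro g _
    by_cases hg : g = 1
    · exact Eventually.of_forall fun n h => absurd hg h
    · filter_upwards [hres g hg] with n hn _
      exact hn
  obtain ⟨K, hK⟩ := eventually_atTop.1 h1
  refine ⟨K, fun n hKn g hg hg1 z => ?_⟩
  by_contra hcon
  push Not at hcon
  obtain ⟨γ, hγ⟩ := hr z
  have h2 : dist z0 ((γ⁻¹ * g * γ) • z0) ≤ R + 2 * r := by
    have e1 : dist z0 ((γ⁻¹ * g * γ) • z0) = dist (γ • z0) (g • (γ • z0)) := by
      rw [← (hi γ).dist_eq z0 ((γ⁻¹ * g * γ) • z0)]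
      congr 1
      show γ • ((γ⁻¹ * g * γ) • z0) = g • (γ • z0)
      rw [smul_smul, smul_smul]
      congr 1
      group
    rw [e1]
    have h3 := dist_triangle4 (γ • z0) z (g • z) (g • (γ • z0))
    rw [(hi g).dist_eq, dist_comm (γ • z0) z] at h3
    linarith
  have h4 : γ⁻¹ * g * γ ≠ 1 := by
    intro h5
    apply hg1
    have : g = γ * (γ⁻¹ * g * γ) * γ⁻¹ := by group
    rw [this, h5]
    group
  apply hK n hKn.le _ h2 h4
  have := (hn n).conj_mem g hg γ⁻¹
  rwa [inv_inv] at this

end disp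

section single

variable {I : Type*} {val : I → ℕ} (hval : Function.Injective val)

theorem tsum_single_le (hval : Function.Injective val) {t : I → ℝ} {m : ℕ} {c : ℝ} (hc : 0 ≤ c)
    (h0 : ∀ i, val i ≠ m → t i = 0) (h1 : ∀ i, t i ≤ c) : ∑' i, t i ≤ c := by
  by_cases h : ∃ i, val i = m
  · obtain ⟨i, hi⟩ := h
    rw [tsum_eq_single i]
    · exact h1 i
    · intro j hj
      apply h0
      intro h2
      exact hj (hval (h2.trans hi.symm))
  · have : ∀ i, t i = 0 := fun i => h0 i fun h2 => h ⟨i, h2⟩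
    rw [tsum_congr this, tsum_zero]
    exact hc

end single

section pts

variable {Z : Type*} {θ : Z → Z → ℝ} (h : Ang θ)

/-- point of the cone at distance 1 from the apex -/
noncomputable def cpt (z : Z) : SeparationQuotient (PreCone h) :=
  SeparationQuotient.mk ⟨1, zero_le_one, z⟩

/-- apex of the cone -/
noncomputable def capex (z : Z) : SeparationQuotient (PreCone h) :=
  SeparationQuotient.mk ⟨0, le_rfl, z⟩

theorem dist_cpt (z w : Z) : dist (cpt h z) (cpt h w) ^ 2 = 2 - 2 * cos (θ z w) := by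
  unfold cpt
  rw [SeparationQuotient.dist_mk, PreCone.dist_sq]
  ring

theorem dist_cpt_capex (z w : Z) : dist (cpt h z) (capex h w) ^ 2 = 1 := by
  unfold cpt capex
  rw [SeparationQuotient.dist_mk, PreCone.dist_sq]
  ring

end pts

variable {G : Type u} [Group G] {Z : Type v} [MetricSpace Z] [MulAction G Z]

/-- the angle structure at scale `e` on the quotient by a subgroup of large displacement -/
def SepAt (Z : Type v) [MetricSpace Z] [MulAction G Z] (e : ℝ) (N : Subgroup G) : Prop :=
  ∀ g ∈ N, g ≠ 1 → ∀ z : Z, 2 * π ≤ e * dist z (g • z)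

theorem box_scale (hi : ∀ g : G, Isometry fun z : Z => g • z) (hZ : IsCAT0 Z) (z0 : Z)
    (hprop : ∀ r : ℝ, {g : G | dist z0 (g • z0) ≤ r}.Finite)
    (S : Finset G) (hS : Subgroup.closure (S : Set G) = ⊤)
    (N : ℕ → Subgroup G) [hn : ∀ n, (N n).Normal] (hfin : ∀ n, (N n).FiniteIndex)
    (hdisp : ∀ R : ℝ, ∃ K : ℕ, ∀ n, K < n → ∀ g ∈ N n, g ≠ 1 → ∀ z : Z, R ≤ dist z (g • z))
    [MetricSpace (Σ n, G ⧸ N n)]
    (h1 : ∀ n (x y : G ⧸ N n), dist (⟨n, x⟩ : Σ n, G ⧸ N n) ⟨n, y⟩
      = wordLen ((QuotientGroup.mk : G → G ⧸ N n) '' S) (x⁻¹ * y))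
    (h2 : ∀ r : ℝ, {p : ℕ × ℕ | p.1 ≠ p.2 ∧ ∃ x y,
      dist (⟨p.1, x⟩ : Σ n, G ⧸ N n) ⟨p.2, y⟩ ≤ r}.Finite) (k : ℕ) :
    Scale.{u, v} (Σ n, G ⧸ N n) k := by
  classical
  have hpi := pi_pos
  -- Lipschitz constant of the orbit map
  obtain ⟨L, hL0, hL⟩ : ∃ L : ℝ, 0 ≤ L ∧ ∀ s ∈ (S : Set G), dist z0 (s • z0) ≤ L := by
    refine ⟨∑ s ∈ S, dist z0 (s • z0), Finset.sum_nonneg fun _ _ => dist_nonneg, fun s hs => ?_⟩
    exact Finset.single_le_sum (f := fun s => dist z0 (s • z0)) (fun _ _ => dist_nonneg) hs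
  set e : ℝ := (1 / 2) ^ k / (L * k + 1) with he
  have hLk : 0 < L * k + 1 := by positivity
  have he0 : 0 < e := by rw [he]; positivity
  -- thresholds
  obtain ⟨K0, hK0⟩ := hdisp (2 * π / e)
  obtain ⟨K1, hK1⟩ : ∃ K1 : ℕ, ∀ n m, n ≠ m → (K1 < n ∨ K1 < m) →
      ∀ x y, (k : ℝ) < dist (⟨n, x⟩ : Σ n, G ⧸ N n) ⟨m, y⟩ := by
    have hf := h2 k
    obtain ⟨K1, hK1⟩ := (hf.image (fun p : ℕ × ℕ => max p.1 p.2)).bddAbove
    refine ⟨K1, fun n m hnm hK x y => ?_⟩
    by_contra hcon
    push Not at hcon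
    have h3 := hK1 ⟨(n, m), ⟨hnm, x, y, hcon⟩, rfl⟩
    simp only [max_le_iff] at h3
    rcases hK with h4 | h4 <;> omega
  set K := max K0 K1 with hK
  have hsep : ∀ n, K < n → SepAt Z e (N n) := by
    intro n hn g hg hg1 z
    have h3 := hK0 n ((le_max_left _ _).trans_lt hn) g hg hg1 z
    rw [div_le_iff₀ he0] at h3
    linarith
  have hcross : ∀ n m, n ≠ m → (K < n ∨ K < m) →
      ∀ x y, (k : ℝ) < dist (⟨n, x⟩ : Σ n, G ⧸ N n) ⟨m, y⟩ := by
    intro n m hnm hKK x y
    apply hK1 n m hnm
    have := le_max_right K0 K1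
    rcases hKK with h4 | h4
    · left; omega
    · right; omega
  -- the target
  let I := {n : ℕ // SepAt Z e (N n)}
  have hang : ∀ i : I, Ang (fun x y : Z => qa (N i.1) e x y) := fun i => ang_qa hi hZ he0 i.2
  let C : I → Type v := fun i => SeparationQuotient (PreCone (hang i))
  let o : ∀ i, C i := fun i => capex (hang i) z0
  let cf : (Σ n, G ⧸ N n) → ∀ i, C i := fun x i =>
    if (i.1 = x.1 ∧ K < x.1) then cpt (hang i) ((Quotient.out x.2) • z0) else o i
  have hcf0 : ∀ x (i : I), i.1 ≠ x.1 → cf x i = o i := fun x i hne => by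
    show (if (i.1 = x.1 ∧ K < x.1) then cpt (hang i) ((Quotient.out x.2) • z0) else o i) = o i
    rw [if_neg (fun h => hne h.1)]
  have hcfK : ∀ x (i : I), ¬ K < x.1 → cf x i = o i := fun x i hne => by
    show (if (i.1 = x.1 ∧ K < x.1) then cpt (hang i) ((Quotient.out x.2) • z0) else o i) = o i
    rw [if_neg (fun h => hne h.2)]
  have hcf1 : ∀ x (i : I), i.1 = x.1 → K < x.1 →
      cf x i = cpt (hang i) ((Quotient.out x.2) • z0) := fun x i h3 h4 => by
    show (if (i.1 = x.1 ∧ K < x.1) then cpt (hang i) ((Quotient.out x.2) • z0) else o i) = _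
    rw [if_pos ⟨h3, h4⟩]
  have hval : Function.Injective (fun i : I => i.1) := Subtype.val_injective
  have hle1 : ∀ x (i : I), dist (cf x i) (o i) ^ 2 ≤ 1 := by
    intro x i
    by_cases h3 : i.1 = x.1 ∧ K < x.1
    · rw [hcf1 x i h3.1 h3.2]
      exact (dist_cpt_capex _ _ _).le
    · have : cf x i = o i := if_neg h3
      rw [this, dist_self]
      norm_num
  have hsum : ∀ x, Summable fun i => dist (cf x i) (o i) ^ 2 := by
    intro x
    apply summable_of_finite_support
    apply ((Set.finite_singleton x.1).preimage (hval.injOn (s := _))).subset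
    intro i hi'
    by_contra hcon
    apply hi'
    show dist (cf x i) (o i) ^ 2 = 0
    rw [hcf0 x i hcon, dist_self]
    norm_num
  let f : (Σ n, G ⧸ N n) → SqSum o := fun x => ⟨cf x, hsum x⟩
  have hsum0 : Summable fun i => dist (o i) (o i) ^ 2 := by
    have e1 : (fun i => dist (o i) (o i) ^ 2) = fun _ => (0 : ℝ) := by
      funext i
      rw [dist_self]
      norm_num
    rw [e1]
    exact summable_zero
  let base : SqSum o := ⟨o, hsum0⟩
  have hbase : ∀ x, dist (f x) base ≤ 1 := by
    intro x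
    have h3 : dist (f x) base ^ 2 ≤ 1 := by
      rw [SqSum.dist_sq]
      apply tsum_single_le hval (m := x.1) zero_le_one
      · intro i hi'
        show dist (cf x i) (o i) ^ 2 = 0
        rw [hcf0 x i hi', dist_self]
        norm_num
      · intro i
        exact hle1 x i
    have h4 : (0 : ℝ) ≤ dist (f x) base := dist_nonneg
    nlinarith
  -- finite part
  obtain ⟨D0, hD0⟩ : ∃ D0 : ℝ, ∀ x y : (Σ n, G ⧸ N n), ¬ K < x.1 → ¬ K < y.1 →
      dist x y ≤ D0 := by
    have hfinite : {x : Σ n, G ⧸ N n | ¬ K < x.1}.Finite := by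
      have : {x : Σ n, G ⧸ N n | ¬ K < x.1}
          = ⋃ n ∈ Set.Iic K, Set.range (fun q : G ⧸ N n => (⟨n, q⟩ : Σ n, G ⧸ N n)) := by
        ext ⟨n, q⟩
        simp only [Set.mem_setOf_eq, Set.mem_iUnion, Set.mem_Iic, Set.mem_range]
        constructor
        · intro h3
          exact ⟨n, not_lt.1 h3, q, rfl⟩
        · rintro ⟨m, hm, q', hq⟩
          have : m = n := congrArg Sigma.fst hq
          omega
      rw [this]
      apply (Set.finite_Iic K).biUnion
      intro n _
      have := hfin n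
      have : Finite (G ⧸ N n) := inferInstance
      exact Set.finite_range _
    obtain ⟨D0, hD0⟩ := Metric.isBounded_iff.1 hfinite.isBounded
    exact ⟨D0, fun x y hx hy => hD0 hx hy⟩
  obtain ⟨S1, hS1⟩ : ∃ S1 : ℕ, ∀ g : G, dist z0 (g • z0) ≤ π / 3 / e →
      wordLen (S : Set G) g ≤ S1 := by
    obtain ⟨S1, hS1⟩ := ((hprop (π / 3 / e)).image (wordLen (S : Set G))).bddAbove
    exact ⟨S1, fun g hg => hS1 ⟨g, hg, rfl⟩⟩
  refine ⟨SqSum o, inferInstance, stew_sqSum fun i => (stew_preCone (hang i)).sep, f, ?_, ?_,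
    max (D0 + 1) (S1 + 1), ?_⟩
  · intro x y
    have := dist_triangle_right (f x) (f y) base
    linarith [hbase x, hbase y]
  · intro x y hxy
    have hp : (0 : ℝ) ≤ (1 / 2 : ℝ) ^ k := by positivity
    have hsq : dist (f x) (f y) ^ 2 ≤ ((1 / 2 : ℝ) ^ k) ^ 2 := by
      rw [SqSum.dist_sq]
      obtain ⟨m, q⟩ := x
      obtain ⟨m', q'⟩ := y
      by_cases hm : m = m'
      · subst hm
        apply tsum_single_le hval (m := m) (by positivity)
        · intro i hi'
          show dist (cf ⟨m, q⟩ i) (cf ⟨m, q'⟩ i) ^ 2 = 0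
          rw [hcf0 _ i hi', hcf0 _ i hi', dist_self]
          norm_num
        · intro i
          show dist (cf ⟨m, q⟩ i) (cf ⟨m, q'⟩ i) ^ 2 ≤ _
          by_cases h3 : i.1 = m ∧ K < m
          · rw [hcf1 ⟨m, q⟩ i h3.1 h3.2, hcf1 ⟨m, q'⟩ i h3.1 h3.2, dist_cpt]
            show 2 - 2 * cos (qa (N i.1) e ((Quotient.out q) • z0) ((Quotient.out q') • z0)) ≤ _
            rw [h3.1]
            set g := Quotient.out q with hg
            set g' := Quotient.out q' with hg'
            have eg : ((g : G) : G ⧸ N m) = q := QuotientGroup.out_eq' q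
            have eg' : ((g' : G) : G ⧸ N m) = q' := QuotientGroup.out_eq' q'
            rw [h1] at hxy
            obtain ⟨γ, hγ1, hγ2⟩ := exists_lift_word hS (q⁻¹ * q')
            have hmem : (g * γ) * g'⁻¹ ∈ N m := by
              have e3 : (((g * γ : G)) : G ⧸ N m) = ((g' : G) : G ⧸ N m) := by
                rw [QuotientGroup.mk_mul, hγ1, eg, eg', mul_inv_cancel_left]
              have e4 : (g * γ)⁻¹ * g' ∈ N m := QuotientGroup.eq.1 e3
              have e5 := (hn m).conj_mem _ ((N m).inv_mem e4) (g * γ)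
              have e6 : (g * γ) * ((g * γ)⁻¹ * g')⁻¹ * (g * γ)⁻¹ = (g * γ) * g'⁻¹ := by group
              rwa [e6] at e5
            have hq := qa_le (N := N m) he0 (g • z0) (g' • z0) hmem
            rw [smul_smul, inv_mul_cancel_right, mul_smul, (hi g).dist_eq] at hq
            have hlip := orbit_lip hi z0 hL hS γ
            have hbd : dist z0 (γ • z0) ≤ L * k := by
              refine hlip.trans (mul_le_mul_of_nonneg_left ?_ hL0)
              have : ((wordLen (S : Set G) γ : ℕ) : ℝ)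
                  ≤ wordLen ((QuotientGroup.mk : G → G ⧸ N m) '' S) (q⁻¹ * q') := by
                exact_mod_cast hγ2
              linarith
            have hq2 : qa (N m) e (g • z0) (g' • z0) ≤ (1 / 2 : ℝ) ^ k := by
              refine hq.trans ?_
              have h7 : e * dist z0 (γ • z0) ≤ e * (L * k + 1) :=
                mul_le_mul_of_nonneg_left (by linarith) he0.le
              refine h7.trans (le_of_eq ?_)
              rw [he]
              field_simp
            have hq0 : 0 ≤ qa (N m) e (g • z0) (g' • z0) := qa_nonneg he0 _ _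
            have hcos := one_sub_sq_div_two_le_cos (x := qa (N m) e (g • z0) (g' • z0))
            have h8 : qa (N m) e (g • z0) (g' • z0) ^ 2 ≤ ((1 / 2 : ℝ) ^ k) ^ 2 :=
              pow_le_pow_left₀ hq0 hq2 2
            linarith
          · have e1 : cf ⟨m, q⟩ i = o i := if_neg h3
            have e2 : cf ⟨m, q'⟩ i = o i := if_neg h3
            rw [e1, e2, dist_self]
            have := sq_nonneg ((1 / 2 : ℝ) ^ k)
            linarith
      · have hx : ¬ K < m := fun h3 => by
          have := hcross m m' hm (Or.inl h3) q q'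
          linarith
        have hy : ¬ K < m' := fun h3 => by
          have := hcross m m' hm (Or.inr h3) q q'
          linarith
        have : ∀ i, dist ((f ⟨m, q⟩).x i) ((f ⟨m', q'⟩).x i) ^ 2 = 0 := by
          intro i
          show dist (cf ⟨m, q⟩ i) (cf ⟨m', q'⟩ i) ^ 2 = 0
          rw [hcfK _ i hx, hcfK _ i hy, dist_self]
          norm_num
        rw [tsum_congr this, tsum_zero]
        positivity
    exact (pow_le_pow_iff_left₀ dist_nonneg hp two_ne_zero).1 hsq
  · intro x y hxy
    have hx1 : D0 + 1 ≤ dist x y := (le_max_left _ _).trans hxy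
    have hx2 : (S1 : ℝ) + 1 ≤ dist x y := (le_max_right _ _).trans hxy
    have hfar : K < x.1 ∨ K < y.1 := by
      by_contra hcon
      push Not at hcon
      have := hD0 x y (by simpa using hcon.1) (by simpa using hcon.2)
      linarith
    have hsq : 1 ≤ dist (f x) (f y) ^ 2 := by
      rw [SqSum.dist_sq]
      obtain ⟨m, q⟩ := x
      obtain ⟨m', q'⟩ := y
      have hone : ∀ i, dist (cf ⟨m, q⟩ i) (cf ⟨m', q'⟩ i) ^ 2
          ≤ ∑' i, dist ((f ⟨m, q⟩).x i) ((f ⟨m', q'⟩).x i) ^ 2 := by
        intro i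
        exact ((f ⟨m, q⟩).summable (f ⟨m', q'⟩)).le_tsum i (fun j _ => sq_nonneg _)
      by_cases hm : m = m'
      · subst hm
        have hKm : K < m := by rcases hfar with h | h <;> exact h
        let i : I := ⟨m, hsep m hKm⟩
        refine le_trans ?_ (hone i)
        rw [hcf1 ⟨m, q⟩ i rfl hKm, hcf1 ⟨m, q'⟩ i rfl hKm, dist_cpt]
        show 1 ≤ 2 - 2 * cos (qa (N m) e ((Quotient.out q) • z0) ((Quotient.out q') • z0))
        set g := Quotient.out q with hg
        set g' := Quotient.out q' with hg'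
        have eg : ((g : G) : G ⧸ N m) = q := QuotientGroup.out_eq' q
        have eg' : ((g' : G) : G ⧸ N m) = q' := QuotientGroup.out_eq' q'
        have hq : π / 3 ≤ qa (N m) e (g • z0) (g' • z0) := by
          apply le_ciInf
          intro n
          apply le_min (by linarith)
          by_contra hcon
          push Not at hcon
          have h3 : dist z0 ((g⁻¹ * n * g') • z0) ≤ π / 3 / e := by
            rw [le_div_iff₀ he0]
            have e3 : dist z0 ((g⁻¹ * n * g') • z0) = dist (g • z0) ((n : G) • g' • z0) := by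
              rw [← (hi g).dist_eq z0 ((g⁻¹ * n * g') • z0)]
              congr 1
              show g • ((g⁻¹ * (n : G) * g') • z0) = (n : G) • g' • z0
              rw [smul_smul, smul_smul]
              congr 1
              group
            rw [e3]
            linarith
          have h4 := hS1 _ h3
          have h5 := wordLen_quot_le (N := N m) hS (g⁻¹ * n * g')
          have e4 : ((g⁻¹ * n * g' : G) : G ⧸ N m) = q⁻¹ * q' := by
            rw [QuotientGroup.mk_mul, QuotientGroup.mk_mul, QuotientGroup.mk_inv, eg, eg',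
              (QuotientGroup.eq_one_iff (n : G)).2 n.2, mul_one]
          rw [e4] at h5
          rw [h1] at hx2
          have h6 : ((wordLen ((QuotientGroup.mk : G → G ⧸ N m) '' S) (q⁻¹ * q') : ℕ) : ℝ)
              ≤ S1 := by exact_mod_cast h5.trans h4
          linarith
        have hqp := qa_le_pi (N := N m) he0 (g • z0) (g' • z0)
        have hcos : cos (qa (N m) e (g • z0) (g' • z0)) ≤ cos (π / 3) :=
          cos_le_cos_of_nonneg_of_le_pi (by positivity) hqp hq
        rw [cos_pi_div_three] at hcos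
        linarith
      · rcases hfar with h | h
        · let i : I := ⟨m, hsep m h⟩
          refine le_trans ?_ (hone i)
          rw [hcf1 ⟨m, q⟩ i rfl h, hcf0 ⟨m', q'⟩ i hm]
          exact (dist_cpt_capex _ _ _).ge
        · let i : I := ⟨m', hsep m' h⟩
          refine le_trans ?_ (hone i)
          rw [hcf1 ⟨m', q'⟩ i rfl h, hcf0 ⟨m, q⟩ i (Ne.symm hm), dist_comm]
          exact (dist_cpt_capex _ _ _).ge
    have h4 : (0 : ℝ) ≤ dist (f x) (f y) := dist_nonneg
    nlinarith

end Pool.Agent.Helper15.CE
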