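import Mathlib
import Pool.Agent.Helper15.CE.Box

/-!
Box spaces of closed subgroups of groups which act properly and coboundedly on CAT(0) spaces.
-/

namespace Pool.Agent.Helper15.CE

open Filter Real Pool.Agent.Helper17.TC

universe u v w

theorem orbit_lip2 {G Γ : Type*} [Group G] [Group Γ] {S : Set G} (ρ : G →* Γ) {Z : Type*}
    [MetricSpace Z] [MulAction Γ Z]
    (hi : ∀ g : Γ, Isometry fun z : Z => g • z) (z0 : Z) {L : ℝ}
    (hL : ∀ s ∈ S, dist z0 (ρ s • z0) ≤ L) (hS : Subgroup.closure S = ⊤) (g : G) :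
    dist z0 (ρ g • z0) ≤ L * wordLen S g := by
  letI : MulAction G Z := MulAction.compHom Z ρ
  exact orbit_lip (fun g => hi (ρ g)) z0 hL hS g

variable {Γ : Type w} [Group Γ] {Z : Type v} [MetricSpace Z] [MulAction Γ Z]

theorem box_scale2 (hi : ∀ g : Γ, Isometry fun z : Z => g • z) (hZ : IsCAT0 Z) (z0 : Z)
    (hprop : ∀ r : ℝ, {g : Γ | dist z0 (g • z0) ≤ r}.Finite)
    (N : ℕ → Subgroup Γ) [hn : ∀ n, (N n).Normal] (hfin : ∀ n, (N n).FiniteIndex)
    (hdisp : ∀ R : ℝ, ∃ K : ℕ, ∀ n, K < n → ∀ g ∈ N n, g ≠ 1 → ∀ z : Z, R ≤ dist z (g • z))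
    {G : Type u} [Group G] (S : Finset G) (hS : Subgroup.closure (S : Set G) = ⊤)
    (ρ : G →* Γ) (hρ : Function.Injective ρ)
    (hclosed : ∀ γ : Γ, γ ∉ Set.range ρ → ∀ᶠ n in atTop, ∀ g : G, (ρ g)⁻¹ * γ ∉ N n)
    [MetricSpace (Σ n, G ⧸ (N n).comap ρ)]
    (h1 : ∀ n (x y : G ⧸ (N n).comap ρ), dist (⟨n, x⟩ : Σ n, G ⧸ (N n).comap ρ) ⟨n, y⟩
      = wordLen ((QuotientGroup.mk : G → G ⧸ (N n).comap ρ) '' S) (x⁻¹ * y))
    (h2 : ∀ r : ℝ, {p : ℕ × ℕ | p.1 ≠ p.2 ∧ ∃ x y,
      dist (⟨p.1, x⟩ : Σ n, G ⧸ (N n).comap ρ) ⟨p.2, y⟩ ≤ r}.Finite) (k : ℕ) :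
    Scale.{u, v} (Σ n, G ⧸ (N n).comap ρ) k := by
  classical
  have hpi := pi_pos
  -- Lipschitz constant of the orbit map
  obtain ⟨L, hL0, hL⟩ : ∃ L : ℝ, 0 ≤ L ∧ ∀ s ∈ (S : Set G), dist z0 (ρ s • z0) ≤ L := by
    refine ⟨∑ s ∈ S, dist z0 (ρ s • z0), Finset.sum_nonneg fun _ _ => dist_nonneg, fun s hs => ?_⟩
    exact Finset.single_le_sum (f := fun s => dist z0 (ρ s • z0)) (fun _ _ => dist_nonneg) hs
  set e : ℝ := (1 / 2) ^ k / (L * k + 1) with he
  have hLk : 0 < L * k + 1 := by positivity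
  have he0 : 0 < e := by rw [he]; positivity
  -- thresholds
  obtain ⟨K0, hK0⟩ := hdisp (2 * π / e)
  obtain ⟨K1, hK1⟩ : ∃ K1 : ℕ, ∀ n m, n ≠ m → (K1 < n ∨ K1 < m) →
      ∀ x y, (k : ℝ) < dist (⟨n, x⟩ : Σ n, G ⧸ (N n).comap ρ) ⟨m, y⟩ := by
    have hf := h2 k
    obtain ⟨K1, hK1⟩ := (hf.image (fun p : ℕ × ℕ => max p.1 p.2)).bddAbove
    refine ⟨K1, fun n m hnm hK x y => ?_⟩
    by_contra hcon
    push Not at hcon
    have h3 := hK1 ⟨(n, m), ⟨hnm, x, y, hcon⟩, rfl⟩
    simp only [max_le_iff] at h3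
    rcases hK with h4 | h4 <;> omega
  obtain ⟨K2, hK2⟩ : ∃ K2 : ℕ, ∀ n, K2 ≤ n → ∀ γ ∈ {γ : Γ | dist z0 (γ • z0) ≤ π / 3 / e},
      γ ∉ Set.range ρ → ∀ g : G, (ρ g)⁻¹ * γ ∉ N n := by
    have hev : ∀ᶠ n in atTop, ∀ γ ∈ {γ : Γ | dist z0 (γ • z0) ≤ π / 3 / e},
        γ ∉ Set.range ρ → ∀ g : G, (ρ g)⁻¹ * γ ∉ N n := by
      apply ((hprop (π / 3 / e)).eventually_all (l := (atTop : Filter ℕ))).2
      intro γ _
      by_cases hγ : γ ∈ Set.range ρ
      · exact Eventually.of_forall fun n h => absurd hγ h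
      · filter_upwards [hclosed γ hγ] with n hn _
        exact hn
    exact eventually_atTop.1 hev
  set K := max K0 (max K1 K2) with hK
  have hsep : ∀ n, K < n → SepAt Z e (N n) := by
    intro n hn g hg hg1 z
    have h3 := hK0 n ((le_max_left _ _).trans_lt hn) g hg hg1 z
    rw [div_le_iff₀ he0] at h3
    linarith
  have hcross : ∀ n m, n ≠ m → (K < n ∨ K < m) →
      ∀ x y, (k : ℝ) < dist (⟨n, x⟩ : Σ n, G ⧸ (N n).comap ρ) ⟨m, y⟩ := by
    intro n m hnm hKK x y
    apply hK1 n m hnm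
    have h5 := le_max_right K0 (max K1 K2)
    have h6 := le_max_left K1 K2
    rcases hKK with h4 | h4
    · left; omega
    · right; omega
  -- the target
  let I := {n : ℕ // SepAt Z e (N n)}
  have hang : ∀ i : I, Ang (fun x y : Z => qa (N i.1) e x y) := fun i => ang_qa hi hZ he0 i.2
  let C : I → Type v := fun i => SeparationQuotient (PreCone (hang i))
  let o : ∀ i, C i := fun i => capex (hang i) z0
  let cf : (Σ n, G ⧸ (N n).comap ρ) → ∀ i, C i := fun x i =>
    if (i.1 = x.1 ∧ K < x.1) then cpt (hang i) (ρ (Quotient.out x.2) • z0) else o i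
  have hcf0 : ∀ x (i : I), i.1 ≠ x.1 → cf x i = o i := fun x i hne => by
    show (if (i.1 = x.1 ∧ K < x.1) then cpt (hang i) (ρ (Quotient.out x.2) • z0) else o i) = o i
    rw [if_neg (fun h => hne h.1)]
  have hcfK : ∀ x (i : I), ¬ K < x.1 → cf x i = o i := fun x i hne => by
    show (if (i.1 = x.1 ∧ K < x.1) then cpt (hang i) (ρ (Quotient.out x.2) • z0) else o i) = o i
    rw [if_neg (fun h => hne h.2)]
  have hcf1 : ∀ x (i : I), i.1 = x.1 → K < x.1 →
      cf x i = cpt (hang i) (ρ (Quotient.out x.2) • z0) := fun x i h3 h4 => by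
    show (if (i.1 = x.1 ∧ K < x.1) then cpt (hang i) (ρ (Quotient.out x.2) • z0) else o i) = _
    rw [if_pos ⟨h3, h4⟩]
  have hval : Function.Injective (fun i : I => i.1) := Subtype.val_injective
  have hle1 : ∀ x (i : I), dist (cf x i) (o i) ^ 2 ≤ 1 := by
    intro x i
    by_cases h3 : i.1 = x.1 ∧ K < x.1
    · rw [hcf1 x i h3.1 h3.2]
      exact (dist_cpt_capex _ _ _).le
    · have : cf x i = o i := if_neg h3
      rw [this, dist_self]
      norm_num
  have hsum : ∀ x, Summable fun i => dist (cf x i) (o i) ^ 2 := by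
    intro x
    apply summable_of_finite_support
    apply ((Set.finite_singleton x.1).preimage (hval.injOn (s := _))).subset
    intro i hi'
    by_contra hcon
    apply hi'
    show dist (cf x i) (o i) ^ 2 = 0
    rw [hcf0 x i hcon, dist_self]
    norm_num
  let f : (Σ n, G ⧸ (N n).comap ρ) → SqSum o := fun x => ⟨cf x, hsum x⟩
  have hsum0 : Summable fun i => dist (o i) (o i) ^ 2 := by
    have e1 : (fun i => dist (o i) (o i) ^ 2) = fun _ => (0 : ℝ) := by
      funext i
      rw [dist_self]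
      norm_num
    rw [e1]
    exact summable_zero
  let base : SqSum o := ⟨o, hsum0⟩
  have hbase : ∀ x, dist (f x) base ≤ 1 := by
    intro x
    have h3 : dist (f x) base ^ 2 ≤ 1 := by
      rw [SqSum.dist_sq]
      apply tsum_single_le hval (m := x.1) zero_le_one
      · intro i hi'
        show dist (cf x i) (o i) ^ 2 = 0
        rw [hcf0 x i hi', dist_self]
        norm_num
      · intro i
        exact hle1 x i
    have h4 : (0 : ℝ) ≤ dist (f x) base := dist_nonneg
    nlinarith
  -- finite part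
  obtain ⟨D0, hD0⟩ : ∃ D0 : ℝ, ∀ x y : (Σ n, G ⧸ (N n).comap ρ), ¬ K < x.1 → ¬ K < y.1 →
      dist x y ≤ D0 := by
    have hfinite : {x : Σ n, G ⧸ (N n).comap ρ | ¬ K < x.1}.Finite := by
      have : {x : Σ n, G ⧸ (N n).comap ρ | ¬ K < x.1}
          = ⋃ n ∈ Set.Iic K, Set.range (fun q : G ⧸ (N n).comap ρ => (⟨n, q⟩ : Σ n, G ⧸ (N n).comap ρ)) := by
        ext ⟨n, q⟩
        simp only [Set.mem_setOf_eq, Set.mem_iUnion, Set.mem_Iic, Set.mem_range]
        constructor
        · intro h3
          exact ⟨n, not_lt.1 h3, q, rfl⟩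
        · rintro ⟨m, hm, q', hq⟩
          have : m = n := congrArg Sigma.fst hq
          omega
      rw [this]
      apply (Set.finite_Iic K).biUnion
      intro n _
      have := hfin n
      have hfi : ((N n).comap ρ).FiniteIndex := ⟨by
        rw [Subgroup.index_comap]
        exact (inferInstance : ((N n).subgroupOf ρ.range).FiniteIndex).index_ne_zero⟩
      have : Finite (G ⧸ (N n).comap ρ) := inferInstance
      exact Set.finite_range _
    obtain ⟨D0, hD0⟩ := Metric.isBounded_iff.1 hfinite.isBounded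
    exact ⟨D0, fun x y hx hy => hD0 hx hy⟩
  obtain ⟨S1, hS1⟩ : ∃ S1 : ℕ, ∀ g : G, dist z0 (ρ g • z0) ≤ π / 3 / e →
      wordLen (S : Set G) g ≤ S1 := by
    obtain ⟨S1, hS1⟩ := (((hprop (π / 3 / e)).preimage
      (hρ.injOn (s := _))).image (wordLen (S : Set G))).bddAbove
    exact ⟨S1, fun g hg => hS1 ⟨g, hg, rfl⟩⟩
  refine ⟨SqSum o, inferInstance, stew_sqSum fun i => (stew_preCone (hang i)).sep, f, ?_, ?_,
    max (D0 + 1) (S1 + 1), ?_⟩
  · intro x y
    have := dist_triangle_right (f x) (f y) base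
    linarith [hbase x, hbase y]
  · intro x y hxy
    have hp : (0 : ℝ) ≤ (1 / 2 : ℝ) ^ k := by positivity
    have hsq : dist (f x) (f y) ^ 2 ≤ ((1 / 2 : ℝ) ^ k) ^ 2 := by
      rw [SqSum.dist_sq]
      obtain ⟨m, q⟩ := x
      obtain ⟨m', q'⟩ := y
      by_cases hm : m = m'
      · subst hm
        apply tsum_single_le hval (m := m) (by positivity)
        · intro i hi'
          show dist (cf ⟨m, q⟩ i) (cf ⟨m, q'⟩ i) ^ 2 = 0
          rw [hcf0 _ i hi', hcf0 _ i hi', dist_self]
          norm_num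
        · intro i
          show dist (cf ⟨m, q⟩ i) (cf ⟨m, q'⟩ i) ^ 2 ≤ _
          by_cases h3 : i.1 = m ∧ K < m
          · rw [hcf1 ⟨m, q⟩ i h3.1 h3.2, hcf1 ⟨m, q'⟩ i h3.1 h3.2, dist_cpt]
            show 2 - 2 * cos (qa (N i.1) e (ρ (Quotient.out q) • z0) (ρ (Quotient.out q') • z0)) ≤ _
            rw [h3.1]
            set g := Quotient.out q with hg
            set g' := Quotient.out q' with hg'
            have eg : ((g : G) : G ⧸ (N m).comap ρ) = q := QuotientGroup.out_eq' q
            have eg' : ((g' : G) : G ⧸ (N m).comap ρ) = q' := QuotientGroup.out_eq' q'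
            rw [h1] at hxy
            obtain ⟨γ, hγ1, hγ2⟩ := exists_lift_word hS (q⁻¹ * q')
            have hmem : (ρ g * ρ γ) * (ρ g')⁻¹ ∈ N m := by
              have e3 : (((g * γ : G)) : G ⧸ (N m).comap ρ) = ((g' : G) : G ⧸ (N m).comap ρ) := by
                rw [QuotientGroup.mk_mul, hγ1, eg, eg', mul_inv_cancel_left]
              have e4 : (g * γ)⁻¹ * g' ∈ (N m).comap ρ := QuotientGroup.eq.1 e3
              rw [Subgroup.mem_comap, map_mul, map_inv, map_mul] at e4
              have e5 := (hn m).conj_mem _ ((N m).inv_mem e4) (ρ g * ρ γ)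
              have e6 : (ρ g * ρ γ) * ((ρ g * ρ γ)⁻¹ * ρ g')⁻¹ * (ρ g * ρ γ)⁻¹
                  = (ρ g * ρ γ) * (ρ g')⁻¹ := by group
              rwa [e6] at e5
            have hq := qa_le (N := N m) he0 (ρ g • z0) (ρ g' • z0) hmem
            rw [smul_smul, inv_mul_cancel_right, mul_smul, (hi (ρ g)).dist_eq] at hq
            have hlip := orbit_lip2 ρ hi z0 hL hS γ
            have hbd : dist z0 (ρ γ • z0) ≤ L * k := by
              refine hlip.trans (mul_le_mul_of_nonneg_left ?_ hL0)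
              have : ((wordLen (S : Set G) γ : ℕ) : ℝ)
                  ≤ wordLen ((QuotientGroup.mk : G → G ⧸ (N m).comap ρ) '' S) (q⁻¹ * q') := by
                exact_mod_cast hγ2
              linarith
            have hq2 : qa (N m) e (ρ g • z0) (ρ g' • z0) ≤ (1 / 2 : ℝ) ^ k := by
              refine hq.trans ?_
              have h7 : e * dist z0 (ρ γ • z0) ≤ e * (L * k + 1) :=
                mul_le_mul_of_nonneg_left (by linarith) he0.le
              refine h7.trans (le_of_eq ?_)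
              rw [he]
              field_simp
            have hq0 : 0 ≤ qa (N m) e (ρ g • z0) (ρ g' • z0) := qa_nonneg he0 _ _
            have hcos := one_sub_sq_div_two_le_cos (x := qa (N m) e (ρ g • z0) (ρ g' • z0))
            have h8 : qa (N m) e (ρ g • z0) (ρ g' • z0) ^ 2 ≤ ((1 / 2 : ℝ) ^ k) ^ 2 :=
              pow_le_pow_left₀ hq0 hq2 2
            linarith
          · have e1 : cf ⟨m, q⟩ i = o i := if_neg h3
            have e2 : cf ⟨m, q'⟩ i = o i := if_neg h3
            rw [e1, e2, dist_self]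
            have := sq_nonneg ((1 / 2 : ℝ) ^ k)
            linarith
      · have hx : ¬ K < m := fun h3 => by
          have := hcross m m' hm (Or.inl h3) q q'
          linarith
        have hy : ¬ K < m' := fun h3 => by
          have := hcross m m' hm (Or.inr h3) q q'
          linarith
        have : ∀ i, dist ((f ⟨m, q⟩).x i) ((f ⟨m', q'⟩).x i) ^ 2 = 0 := by
          intro i
          show dist (cf ⟨m, q⟩ i) (cf ⟨m', q'⟩ i) ^ 2 = 0
          rw [hcfK _ i hx, hcfK _ i hy, dist_self]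
          norm_num
        rw [tsum_congr this, tsum_zero]
        positivity
    exact (pow_le_pow_iff_left₀ dist_nonneg hp two_ne_zero).1 hsq
  · intro x y hxy
    have hx1 : D0 + 1 ≤ dist x y := (le_max_left _ _).trans hxy
    have hx2 : (S1 : ℝ) + 1 ≤ dist x y := (le_max_right _ _).trans hxy
    have hfar : K < x.1 ∨ K < y.1 := by
      by_contra hcon
      push Not at hcon
      have := hD0 x y (by simpa using hcon.1) (by simpa using hcon.2)
      linarith
    have hsq : 1 ≤ dist (f x) (f y) ^ 2 := by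
      rw [SqSum.dist_sq]
      obtain ⟨m, q⟩ := x
      obtain ⟨m', q'⟩ := y
      have hone : ∀ i, dist (cf ⟨m, q⟩ i) (cf ⟨m', q'⟩ i) ^ 2
          ≤ ∑' i, dist ((f ⟨m, q⟩).x i) ((f ⟨m', q'⟩).x i) ^ 2 := by
        intro i
        exact ((f ⟨m, q⟩).summable (f ⟨m', q'⟩)).le_tsum i (fun j _ => sq_nonneg _)
      by_cases hm : m = m'
      · subst hm
        have hKm : K < m := by rcases hfar with h | h <;> exact h
        let i : I := ⟨m, hsep m hKm⟩
        refine le_trans ?_ (hone i)
        rw [hcf1 ⟨m, q⟩ i rfl hKm, hcf1 ⟨m, q'⟩ i rfl hKm, dist_cpt]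
        show 1 ≤ 2 - 2 * cos (qa (N m) e (ρ (Quotient.out q) • z0) (ρ (Quotient.out q') • z0))
        set g := Quotient.out q with hg
        set g' := Quotient.out q' with hg'
        have eg : ((g : G) : G ⧸ (N m).comap ρ) = q := QuotientGroup.out_eq' q
        have eg' : ((g' : G) : G ⧸ (N m).comap ρ) = q' := QuotientGroup.out_eq' q'
        have hq : π / 3 ≤ qa (N m) e (ρ g • z0) (ρ g' • z0) := by
          apply le_ciInf
          intro n
          apply le_min (by linarith)
          by_contra hcon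
          push Not at hcon
          have h3 : dist z0 (((ρ g)⁻¹ * n * ρ g') • z0) ≤ π / 3 / e := by
            rw [le_div_iff₀ he0]
            have e3 : dist z0 (((ρ g)⁻¹ * n * ρ g') • z0)
                = dist (ρ g • z0) ((n : Γ) • ρ g' • z0) := by
              rw [← (hi (ρ g)).dist_eq z0 (((ρ g)⁻¹ * n * ρ g') • z0)]
              congr 1
              show ρ g • (((ρ g)⁻¹ * (n : Γ) * ρ g') • z0) = (n : Γ) • ρ g' • z0
              rw [smul_smul, smul_smul]
              congr 1
              group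
            rw [e3]
            linarith
          have hconj : (ρ g')⁻¹ * (n : Γ) * ρ g' ∈ N m := by
            have := (hn m).conj_mem _ n.2 (ρ g')⁻¹
            rwa [inv_inv] at this
          have h3' : (ρ g)⁻¹ * n * ρ g' ∈ Set.range ρ := by
            by_contra hnr
            have hKm2 : K2 ≤ m := by
              have h5 := le_max_right K0 (max K1 K2)
              have h6 := le_max_right K1 K2
              omega
            apply hK2 m hKm2 _ h3 hnr (g⁻¹ * g')
            have e7 : (ρ (g⁻¹ * g'))⁻¹ * ((ρ g)⁻¹ * n * ρ g') = (ρ g')⁻¹ * (n : Γ) * ρ g' := by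
              rw [map_mul, map_inv]
              group
            rw [e7]
            exact hconj
          obtain ⟨κ, hκ⟩ := h3'
          rw [← hκ] at h3
          have h4 := hS1 _ h3
          have h5 := wordLen_quot_le (N := (N m).comap ρ) hS κ
          have e4 : ((κ : G) : G ⧸ (N m).comap ρ) = q⁻¹ * q' := by
            rw [← eg, ← eg', ← QuotientGroup.mk_inv, ← QuotientGroup.mk_mul]
            symm
            rw [QuotientGroup.eq, Subgroup.mem_comap]
            have e7 : ρ ((g⁻¹ * g')⁻¹ * κ) = (ρ g')⁻¹ * (n : Γ) * ρ g' := by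
              rw [map_mul, map_inv, map_mul, map_inv, hκ]
              group
            rw [e7]
            exact hconj
          rw [e4] at h5
          rw [h1] at hx2
          have h6 : ((wordLen ((QuotientGroup.mk : G → G ⧸ (N m).comap ρ) '' S)
              (q⁻¹ * q') : ℕ) : ℝ) ≤ S1 := by exact_mod_cast h5.trans h4
          linarith
        have hqp := qa_le_pi (N := N m) he0 (ρ g • z0) (ρ g' • z0)
        have hcos : cos (qa (N m) e (ρ g • z0) (ρ g' • z0)) ≤ cos (π / 3) :=
          cos_le_cos_of_nonneg_of_le_pi (by positivity) hqp hq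
        rw [cos_pi_div_three] at hcos
        linarith
      · rcases hfar with h | h
        · let i : I := ⟨m, hsep m h⟩
          refine le_trans ?_ (hone i)
          rw [hcf1 ⟨m, q⟩ i rfl h, hcf0 ⟨m', q'⟩ i hm]
          exact (dist_cpt_capex _ _ _).ge
        · let i : I := ⟨m', hsep m' h⟩
          refine le_trans ?_ (hone i)
          rw [hcf1 ⟨m', q'⟩ i rfl h, hcf0 ⟨m, q⟩ i (Ne.symm hm), dist_comm]
          exact (dist_cpt_capex _ _ _).ge
    have h4 : (0 : ℝ) ≤ dist (f x) (f y) := dist_nonneg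
    nlinarith

end Pool.Agent.Helper15.CE
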