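import Mathlib
import Pool.Agent.Helper15.CE.Stew

/-!
Real filtrations of a finite dimensional vector space: simultaneous splittings, the pairing, and
the recursion for the pairing.
-/

namespace Pool.Agent.Helper15.CE

open MeasureTheory Module

section ind

open Classical in
/-- indicator of a proposition -/
noncomputable def ind (P : Prop) : ℝ := if P then 1 else 0

theorem ind_true {P : Prop} (h : P) : ind P = 1 := if_pos h

theorem ind_false {P : Prop} (h : ¬ P) : ind P = 0 := if_neg h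

theorem ind_nonneg (P : Prop) : 0 ≤ ind P := by
  by_cases h : P
  · rw [ind_true h]; norm_num
  · rw [ind_false h]

theorem ind_le_one (P : Prop) : ind P ≤ 1 := by
  by_cases h : P
  · rw [ind_true h]
  · rw [ind_false h]; norm_num

theorem ind_mono {P Q : Prop} (h : P → Q) : ind P ≤ ind Q := by
  by_cases hP : P
  · rw [ind_true hP, ind_true (h hP)]
  · rw [ind_false hP]; exact ind_nonneg Q

theorem ind_and (P Q : Prop) : ind (P ∧ Q) = ind P * ind Q := by
  by_cases hP : P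
  · by_cases hQ : Q
    · rw [ind_true hP, ind_true hQ, ind_true ⟨hP, hQ⟩]; norm_num
    · rw [ind_false hQ, ind_false (fun h => hQ h.2)]; norm_num
  · rw [ind_false hP, ind_false (fun h => hP h.1)]; norm_num

theorem ind_anti {P : ℝ → Prop} (h : ∀ s t, s ≤ t → P t → P s) : Antitone fun s => ind (P s) :=
  fun s t hst => ind_mono (h s t hst)

theorem int_ind_le {P : ℝ → Prop} (h : ∀ s t, s ≤ t → P t → P s) {x : ℝ} (hx : 0 ≤ x)
    (h2 : ∀ r, 0 < r → r ≤ 1 → P r → r ≤ x) : ∫ s in (0 : ℝ)..1, ind (P s) ≤ x := by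
  have hi : ∀ a b : ℝ, IntervalIntegrable (fun s => ind (P s)) volume a b :=
    fun a b => (ind_anti h).intervalIntegrable
  rcases le_total 1 x with h1 | h1
  · have h3 : ∫ s in (0 : ℝ)..1, ind (P s) ≤ ∫ s in (0 : ℝ)..1, (1 : ℝ) :=
      intervalIntegral.integral_mono zero_le_one (hi _ _) intervalIntegrable_const
        (fun s => ind_le_one _)
    simp only [intervalIntegral.integral_const, smul_eq_mul] at h3
    linarith
  · rw [← intervalIntegral.integral_add_adjacent_intervals (hi 0 x) (hi x 1)]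
    have h3 : ∫ s in (0 : ℝ)..x, ind (P s) ≤ ∫ s in (0 : ℝ)..x, (1 : ℝ) :=
      intervalIntegral.integral_mono hx (hi _ _) intervalIntegrable_const
        (fun s => ind_le_one _)
    have h4 : ∫ s in x..1, ind (P s) = 0 := by
      have : ∫ s in x..1, ind (P s) = ∫ s in x..1, (0 : ℝ) := by
        apply intervalIntegral.integral_congr_ae
        apply Filter.Eventually.of_forall
        intro s hs
        rw [Set.uIoc_of_le h1] at hs
        apply ind_false
        intro hP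
        have := h2 s (by linarith [hs.1]) hs.2 hP
        linarith [hs.1]
      rw [this]
      simp
    simp only [intervalIntegral.integral_const, smul_eq_mul] at h3
    linarith

theorem int_ind_ge {P : ℝ → Prop} (h : ∀ s t, s ≤ t → P t → P s) {x : ℝ} (hx : 0 ≤ x)
    (hx1 : x ≤ 1) (h2 : ∀ r, 0 < r → r < x → P r) : x ≤ ∫ s in (0 : ℝ)..1, ind (P s) := by
  have hi : ∀ a b : ℝ, IntervalIntegrable (fun s => ind (P s)) volume a b :=
    fun a b => (ind_anti h).intervalIntegrable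
  rw [← intervalIntegral.integral_add_adjacent_intervals (hi 0 x) (hi x 1)]
  have h4 : 0 ≤ ∫ s in x..1, ind (P s) :=
    intervalIntegral.integral_nonneg hx1 fun s _ => ind_nonneg _
  have h3 : ∫ s in (0 : ℝ)..x, ind (P s) = ∫ s in (0 : ℝ)..x, (1 : ℝ) := by
    apply intervalIntegral.integral_congr_ae
    have hne : ∀ᵐ s : ℝ, s ≠ x := by
      simp [ae_iff, measure_singleton]
    filter_upwards [hne] with s hs hs2
    rw [Set.uIoc_of_le hx] at hs2
    exact ind_true (h2 s hs2.1 (lt_of_le_of_ne hs2.2 hs))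
  rw [h3]
  simp only [intervalIntegral.integral_const, smul_eq_mul]
  linarith

end ind

variable {F V : Type*} [Field F] [AddCommGroup V] [Module F V]

/-- decreasing real filtrations of a vector space, equal to the whole space for `s ≤ 0` -/
structure Filt (F V : Type*) [Field F] [AddCommGroup V] [Module F V] where
  /-- levels -/
  lev : ℝ → Submodule F V
  /-- the levels decrease -/
  anti : Antitone lev
  /-- levels at nonpositive numbers -/
  top : ∀ s ≤ 0, lev s = ⊤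

/-- the weight of a vector -/
noncomputable def lam (Φ : Filt F V) (e : V) : ℝ := ∫ s in (0 : ℝ)..1, ind (e ∈ Φ.lev s)

theorem mem_anti (Φ : Filt F V) (e : V) : ∀ s t, s ≤ t → e ∈ Φ.lev t → e ∈ Φ.lev s :=
  fun _ _ hst h => Φ.anti hst h

theorem lam_nonneg (Φ : Filt F V) (e : V) : 0 ≤ lam Φ e :=
  intervalIntegral.integral_nonneg zero_le_one fun _ _ => ind_nonneg _

theorem lam_le_one (Φ : Filt F V) (e : V) : lam Φ e ≤ 1 :=
  int_ind_le (mem_anti Φ e) zero_le_one fun _ _ h _ => h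

theorem le_lam {Φ : Filt F V} {e : V} {a : ℝ} (ha1 : a ≤ 1) (h : e ∈ Φ.lev a) :
    a ≤ lam Φ e := by
  rcases le_total a 0 with h0 | h0
  · exact h0.trans (lam_nonneg Φ e)
  · exact int_ind_ge (mem_anti Φ e) h0 ha1 fun r _ hr => mem_anti Φ e _ _ hr.le h

theorem mem_of_lt_lam {Φ : Filt F V} {e : V} {a : ℝ} (h : a < lam Φ e) : e ∈ Φ.lev a := by
  rcases le_total a 0 with h0 | h0
  · rw [Φ.top a h0]; trivial
  · by_contra hcon
    have : lam Φ e ≤ a := by
      apply int_ind_le (mem_anti Φ e) h0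
      intro r _ _ hr
      by_contra h2
      exact hcon (mem_anti Φ e _ _ (not_le.1 h2).le hr)
    linarith

/-- `P` is compatible with the decomposition into `H` and the line through `e` -/
def Splits (P H : Submodule F V) (e : V) : Prop :=
  ∀ h ∈ H, ∀ c : F, c ≠ 0 → h + c • e ∈ P → h ∈ P ∧ e ∈ P

theorem Splits.inf {P Q H : Submodule F V} {e : V} (hP : Splits P H e) (hQ : Splits Q H e) :
    Splits (P ⊓ Q) H e := by
  intro h hh c hc hm
  have h1 := hP h hh c hc hm.1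
  have h2 := hQ h hh c hc hm.2
  exact ⟨⟨h1.1, h2.1⟩, h1.2, h2.2⟩

/-- `U` is the sum of `H` and the line through `e`, which is not in `H` -/
structure Dec (U H : Submodule F V) (e : V) : Prop where
  le : H ≤ U
  mem : e ∈ U
  notMem : e ∉ H
  split : ∀ u ∈ U, ∃ h ∈ H, ∃ c : F, u = h + c • e

variable [FiniteDimensional F V]

/-- dimension as a real number -/
noncomputable def rk (P : Submodule F V) : ℝ := (finrank F P : ℝ)

theorem rk_mono {P Q : Submodule F V} (h : P ≤ Q) : rk P ≤ rk Q := by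
  unfold rk
  exact_mod_cast Submodule.finrank_mono h

theorem rk_add {Q H : Submodule F V} {e : V} (hQ : Q ≤ H) (he : e ∉ H) :
    rk (Q ⊔ Submodule.span F {e}) = rk Q + 1 := by
  have he0 : e ≠ 0 := fun h => he (h ▸ H.zero_mem)
  have h1 := Submodule.finrank_sup_add_finrank_inf_eq Q (Submodule.span F {e})
  have h2 : Q ⊓ Submodule.span F {e} = ⊥ := by
    rw [eq_bot_iff]
    rintro x ⟨hx1, hx2⟩
    obtain ⟨c, rfl⟩ := Submodule.mem_span_singleton.1 hx2
    by_cases hc : c = 0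
    · rw [hc, zero_smul]; exact Submodule.zero_mem _
    · exfalso
      apply he
      have h3 := H.smul_mem c⁻¹ (hQ hx1)
      rwa [smul_smul, inv_mul_cancel₀ hc, one_smul] at h3
  rw [h2, finrank_bot, add_zero, finrank_span_singleton he0] at h1
  unfold rk
  exact_mod_cast h1

theorem rk_ge {U H : Submodule F V} {e : V} (hd : Dec U H e) (P : Submodule F V) :
    rk (H ⊓ P) + ind (e ∈ P) ≤ rk (U ⊓ P) := by
  by_cases h : e ∈ P
  · rw [ind_true h, ← rk_add (inf_le_left : H ⊓ P ≤ H) hd.notMem]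
    apply rk_mono
    apply sup_le
    · exact inf_le_inf_right P hd.le
    · rw [Submodule.span_singleton_le_iff_mem]
      exact ⟨hd.mem, h⟩
  · rw [ind_false h, add_zero]
    exact rk_mono (inf_le_inf_right P hd.le)

theorem rk_split {U H P : Submodule F V} {e : V} (hd : Dec U H e) (hP : Splits P H e) :
    rk (U ⊓ P) = rk (H ⊓ P) + ind (e ∈ P) := by
  apply le_antisymm _ (rk_ge hd P)
  by_cases h : e ∈ P
  · rw [ind_true h, ← rk_add (inf_le_left : H ⊓ P ≤ H) hd.notMem]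
    apply rk_mono
    rintro u ⟨hu1, hu2⟩
    obtain ⟨x, hx, c, rfl⟩ := hd.split u hu1
    apply Submodule.add_mem_sup
    · refine ⟨hx, ?_⟩
      by_cases hc : c = 0
      · rw [hc, zero_smul, add_zero] at hu2; exact hu2
      · exact (hP x hx c hc hu2).1
    · exact Submodule.mem_span_singleton.2 ⟨c, rfl⟩
  · rw [ind_false h, add_zero]
    apply rk_mono
    rintro u ⟨hu1, hu2⟩
    obtain ⟨x, hx, c, rfl⟩ := hd.split u hu1
    by_cases hc : c = 0
    · rw [hc, zero_smul, add_zero] at hu2 ⊢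
      exact ⟨hx, hu2⟩
    · exact absurd (hP x hx c hc hu2).2 h

/-- two filtrations have a common splitting -/
theorem exists_dec {U : Submodule F V} (hU : U ≠ ⊥) (Φ Ψ : Filt F V) :
    ∃ (H : Submodule F V) (e : V), Dec U H e ∧ (∀ s, Splits (Φ.lev s) H e) ∧
      ∀ s, Splits (Ψ.lev s) H e := by
  obtain ⟨F0, hF0, hmax⟩ := set_has_maximal_iff_noetherian.2 (inferInstance : IsNoetherian F V)
    {W : Submodule F V | W = ⊥ ∨ ∃ s, W = U ⊓ Φ.lev s ∧ W ≠ U} ⟨⊥, Or.inl rfl⟩
  have hFU : F0 ≤ U := by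
    rcases hF0 with h | ⟨s, h, _⟩
    · rw [h]; exact bot_le
    · rw [h]; exact inf_le_left
  have hFne : F0 ≠ U := by
    rcases hF0 with h | ⟨s, _, h⟩
    · rw [h]; exact hU.symm
    · exact h
  have hUF : ¬ U ≤ F0 := fun h => hFne (le_antisymm hFU h)
  have claim1 : ∀ v ∈ U, v ∉ F0 → ∀ s, v ∈ Φ.lev s → U ≤ Φ.lev s := by
    intro v hv hvF s hvs
    by_contra hcon
    have hW : U ⊓ Φ.lev s ≠ U := fun h => hcon (inf_eq_left.1 h)
    have hle : F0 ≤ U ⊓ Φ.lev s := by
      rcases hF0 with h | ⟨s0, h, _⟩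
      · rw [h]; exact bot_le
      · rcases le_total s s0 with h1 | h1
        · rw [h]; exact inf_le_inf_left U (Φ.anti h1)
        · exfalso
          apply hvF
          rw [h]
          exact ⟨hv, Φ.anti h1 hvs⟩
    have hlt : F0 < U ⊓ Φ.lev s := lt_of_le_of_ne hle fun h => hvF (h ▸ ⟨hv, hvs⟩)
    exact hmax _ (Or.inr ⟨s, rfl, hW⟩) hlt
  obtain ⟨M, ⟨s1, hM, hMF⟩, hmin⟩ := IsArtinian.set_has_minimal
    {W : Submodule F V | ∃ s, W = U ⊓ Ψ.lev s ∧ ¬ W ≤ F0}
    ⟨U, 0, by rw [Ψ.top 0 le_rfl, inf_top_eq], hUF⟩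
  obtain ⟨e, heM, heF⟩ := SetLike.not_le_iff_exists.1 hMF
  rw [hM] at heM
  have claim2 : ∀ v ∈ U, v ∉ F0 → ∀ s, v ∈ Ψ.lev s → e ∈ Ψ.lev s := by
    intro v hv hvF s hvs
    rcases le_total s s1 with h1 | h1
    · exact Ψ.anti h1 heM.2
    · have hW : ¬ (U ⊓ Ψ.lev s) ≤ F0 := fun h => hvF (h ⟨hv, hvs⟩)
      have hle : U ⊓ Ψ.lev s ≤ M := by
        rw [hM]; exact inf_le_inf_left U (Ψ.anti h1)
      have heq : U ⊓ Ψ.lev s = M := by
        by_contra hne
        exact hmin _ ⟨s, rfl, hW⟩ (lt_of_le_of_ne hle hne)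
      have : e ∈ U ⊓ Ψ.lev s := by rw [heq, hM]; exact heM
      exact this.2
  obtain ⟨f, hfe, hfF⟩ := Submodule.exists_le_ker_of_notMem heF
  have hout : ∀ h ∈ U ⊓ LinearMap.ker f, ∀ c : F, c ≠ 0 → h + c • e ∈ U ∧ h + c • e ∉ F0 := by
    rintro h ⟨hh1, hh2⟩ c hc
    refine ⟨U.add_mem hh1 (U.smul_mem c heM.1), fun hcon => ?_⟩
    have h1 : f (h + c • e) = 0 := LinearMap.mem_ker.1 (hfF hcon)
    rw [map_add, LinearMap.mem_ker.1 hh2, zero_add, map_smul, smul_eq_mul] at h1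
    rcases mul_eq_zero.1 h1 with h2 | h2
    · exact hc h2
    · exact hfe h2
  refine ⟨U ⊓ LinearMap.ker f, e, ⟨inf_le_left, heM.1, fun h => hfe (LinearMap.mem_ker.1 h.2),
    ?_⟩, ?_, ?_⟩
  · intro u hu
    refine ⟨u - (f u / f e) • e, ⟨U.sub_mem hu (U.smul_mem _ heM.1), ?_⟩, f u / f e, by abel⟩
    show f (u - (f u / f e) • e) = 0
    rw [map_sub, map_smul, smul_eq_mul, div_mul_cancel₀ _ hfe, sub_self]
  · intro s h hh c hc hm
    obtain ⟨h1, h2⟩ := hout h hh c hc
    have h3 := claim1 _ h1 h2 s hm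
    exact ⟨h3 hh.1, h3 heM.1⟩
  · intro s h hh c hc hm
    obtain ⟨h1, h2⟩ := hout h hh c hc
    have h3 := claim2 _ h1 h2 s hm
    refine ⟨?_, h3⟩
    have h4 := (Ψ.lev s).sub_mem hm ((Ψ.lev s).smul_mem c h3)
    rwa [add_sub_cancel_right] at h4

/-- induction along common splittings -/
theorem flag_ind (Φ Ψ : Filt F V) {Q : Submodule F V → Prop} (h0 : Q ⊥)
    (hs : ∀ (U H : Submodule F V) (e : V), Dec U H e → (∀ s, Splits (Φ.lev s) H e) →
      (∀ s, Splits (Ψ.lev s) H e) → Q H → Q U) (U : Submodule F V) : Q U := by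
  induction U using WellFoundedLT.induction with
  | ind U ih =>
    by_cases hU : U = ⊥
    · rw [hU]; exact h0
    · obtain ⟨H, e, hd, h1, h2⟩ := exists_dec hU Φ Ψ
      exact hs U H e hd h1 h2 (ih H (lt_of_le_of_ne hd.le fun h => hd.notMem (h ▸ hd.mem)))

/-- the pairing of two filtrations, restricted to a subspace -/
noncomputable def B (U : Submodule F V) (Φ Ψ : Filt F V) : ℝ :=
  ∫ s in (0 : ℝ)..1, ∫ t in (0 : ℝ)..1, rk (U ⊓ (Φ.lev s ⊓ Ψ.lev t))

theorem anti_rk (U P : Submodule F V) (Ψ : Filt F V) :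
    Antitone fun t => rk (U ⊓ (P ⊓ Ψ.lev t)) := fun _ _ h =>
  rk_mono (inf_le_inf_left U (inf_le_inf_left P (Ψ.anti h)))

theorem anti_int (U : Submodule F V) (Φ Ψ : Filt F V) :
    Antitone fun s => ∫ t in (0 : ℝ)..1, rk (U ⊓ (Φ.lev s ⊓ Ψ.lev t)) := fun s s' h =>
  intervalIntegral.integral_mono zero_le_one (anti_rk U _ Ψ).intervalIntegrable
    (anti_rk U _ Ψ).intervalIntegrable fun _ =>
      rk_mono (inf_le_inf_left U (inf_le_inf_right _ (Φ.anti h)))

theorem rk_bot (P : Submodule F V) : rk (⊥ ⊓ P) = 0 := by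
  rw [bot_inf_eq]
  unfold rk
  rw [finrank_bot]
  norm_num

theorem B_bot (Φ Ψ : Filt F V) : B ⊥ Φ Ψ = 0 := by
  unfold B
  simp only [rk_bot]
  simp

theorem B_step {U H : Submodule F V} {e : V} (hd : Dec U H e) {Φ Ψ : Filt F V}
    (h1 : ∀ s, Splits (Φ.lev s) H e) (h2 : ∀ s, Splits (Ψ.lev s) H e) :
    B U Φ Ψ = B H Φ Ψ + lam Φ e * lam Ψ e := by
  have e1 : ∀ s, ∫ t in (0 : ℝ)..1, rk (U ⊓ (Φ.lev s ⊓ Ψ.lev t))
      = (∫ t in (0 : ℝ)..1, rk (H ⊓ (Φ.lev s ⊓ Ψ.lev t))) + ind (e ∈ Φ.lev s) * lam Ψ e := by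
    intro s
    have e2 : ∀ t, rk (U ⊓ (Φ.lev s ⊓ Ψ.lev t))
        = rk (H ⊓ (Φ.lev s ⊓ Ψ.lev t)) + ind (e ∈ Φ.lev s) * ind (e ∈ Ψ.lev t) := by
      intro t
      rw [rk_split hd ((h1 s).inf (h2 t)), ← ind_and]
      rfl
    simp only [e2]
    rw [intervalIntegral.integral_add (anti_rk H _ Ψ).intervalIntegrable
      ((ind_anti (mem_anti Ψ e)).intervalIntegrable.const_mul _),
      intervalIntegral.integral_const_mul]
    rfl
  unfold B
  simp only [e1]
  rw [intervalIntegral.integral_add (anti_int H Φ Ψ).intervalIntegrable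
    ((ind_anti (mem_anti Φ e)).intervalIntegrable.mul_const _),
    intervalIntegral.integral_mul_const]
  rfl

theorem B_symm_nonneg (Φ Ψ : Filt F V) (U : Submodule F V) :
    B U Φ Ψ = B U Ψ Φ ∧ 0 ≤ B U Φ Φ + B U Ψ Ψ - 2 * B U Φ Ψ := by
  apply flag_ind Φ Ψ (Q := fun U => B U Φ Ψ = B U Ψ Φ ∧
    0 ≤ B U Φ Φ + B U Ψ Ψ - 2 * B U Φ Ψ)
  · simp [B_bot]
  · intro U H e hd h1 h2 ih
    rw [B_step hd h1 h2, B_step hd h2 h1, B_step hd h1 h1, B_step hd h2 h2]
    refine ⟨by rw [ih.1]; ring, ?_⟩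
    nlinarith [ih.2, sq_nonneg (lam Φ e - lam Ψ e)]

end Pool.Agent.Helper15.CE
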