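import Mathlib
import Pool.Agent.Helper15.CE.Filt

/-!
Real filtrations of a finite dimensional vector space form a CAT(0) space.
-/

namespace Pool.Agent.Helper15.CE

open MeasureTheory Module

variable {F V : Type*} [Field F] [AddCommGroup V] [Module F V]

/-- admissible pairs of levels -/
def Adm (t r : ℝ) (p : ℝ × ℝ) : Prop :=
  0 ≤ p.1 ∧ p.1 ≤ 1 ∧ 0 ≤ p.2 ∧ p.2 ≤ 1 ∧ r ≤ (1 - t) * p.1 + t * p.2

/-- `e` has weight at least `r` for the intermediate filtration -/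
def Cnd (t : ℝ) (Φ Ψ : Filt F V) (e : V) (r : ℝ) : Prop :=
  ∃ p : ℝ × ℝ, Adm t r p ∧ e ∈ Φ.lev p.1 ∧ e ∈ Ψ.lev p.2

theorem Adm.mono {t r s : ℝ} {p : ℝ × ℝ} (h : Adm t s p) (hrs : r ≤ s) : Adm t r p :=
  ⟨h.1, h.2.1, h.2.2.1, h.2.2.2.1, hrs.trans h.2.2.2.2⟩

theorem cnd_anti (t : ℝ) (Φ Ψ : Filt F V) (e : V) :
    ∀ r s, r ≤ s → Cnd t Φ Ψ e s → Cnd t Φ Ψ e r := by
  rintro r s hrs ⟨p, hp, h1, h2⟩
  exact ⟨p, hp.mono hrs, h1, h2⟩

/-- levels of the intermediate filtration inside `U` -/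
def thU (t : ℝ) (Φ Ψ : Filt F V) (U : Submodule F V) (r : ℝ) : Submodule F V :=
  ⨆ (p : ℝ × ℝ) (_ : Adm t r p), U ⊓ (Φ.lev p.1 ⊓ Ψ.lev p.2)

theorem le_thU {t r : ℝ} {Φ Ψ : Filt F V} {U : Submodule F V} {p : ℝ × ℝ} (hp : Adm t r p) :
    U ⊓ (Φ.lev p.1 ⊓ Ψ.lev p.2) ≤ thU t Φ Ψ U r :=
  le_iSup₂_of_le p hp le_rfl

theorem thU_anti (t : ℝ) (Φ Ψ : Filt F V) (U : Submodule F V) : Antitone (thU t Φ Ψ U) :=
  fun _ _ hrs => iSup₂_le fun _ hp => le_thU (hp.mono hrs)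

theorem thU_le (t : ℝ) (Φ Ψ : Filt F V) (U : Submodule F V) (r : ℝ) : thU t Φ Ψ U r ≤ U :=
  iSup₂_le fun _ _ => inf_le_left

theorem thU_mono (t : ℝ) (Φ Ψ : Filt F V) {U W : Submodule F V} (h : U ≤ W) (r : ℝ) :
    thU t Φ Ψ U r ≤ thU t Φ Ψ W r :=
  iSup₂_le fun _ hp => (inf_le_inf_right _ h).trans (le_thU hp)

/-- intermediate filtration -/
def mid (t : ℝ) (Φ Ψ : Filt F V) : Filt F V where
  lev := thU t Φ Ψ ⊤
  anti := thU_anti t Φ Ψ ⊤
  top s hs := by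
    rw [eq_top_iff]
    have h : Adm t s ((0 : ℝ), (0 : ℝ)) :=
      ⟨le_rfl, zero_le_one, le_rfl, zero_le_one, by simpa using hs⟩
    have h2 := le_thU (Φ := Φ) (Ψ := Ψ) (U := ⊤) h
    simp only [Φ.top 0 le_rfl, Ψ.top 0 le_rfl, inf_top_eq] at h2
    exact h2

variable [FiniteDimensional F V]

theorem rk_thU {t r : ℝ} {Φ Ψ : Filt F V} {U H : Submodule F V} {e : V} (hd : Dec U H e)
    (h1 : ∀ s, Splits (Φ.lev s) H e) (h2 : ∀ s, Splits (Ψ.lev s) H e) :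
    rk (thU t Φ Ψ U r) = rk (thU t Φ Ψ H r) + ind (Cnd t Φ Ψ e r) := by
  by_cases hc : Cnd t Φ Ψ e r
  · rw [ind_true hc, ← rk_add (thU_le t Φ Ψ H r) hd.notMem]
    congr 1
    apply le_antisymm
    · apply iSup₂_le
      rintro p hp u ⟨hu1, hu2⟩
      obtain ⟨x, hx, c, rfl⟩ := hd.split u hu1
      apply Submodule.add_mem_sup
      · apply le_thU hp
        refine ⟨hx, ?_⟩
        by_cases hc0 : c = 0
        · rw [hc0, zero_smul, add_zero] at hu2; exact hu2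
        · exact (((h1 p.1).inf (h2 p.2)) x hx c hc0 hu2).1
      · exact Submodule.mem_span_singleton.2 ⟨c, rfl⟩
    · apply sup_le (thU_mono t Φ Ψ hd.le r)
      rw [Submodule.span_singleton_le_iff_mem]
      obtain ⟨p, hp, h3, h4⟩ := hc
      exact le_thU hp ⟨hd.mem, h3, h4⟩
  · rw [ind_false hc, add_zero]
    congr 1
    apply le_antisymm _ (thU_mono t Φ Ψ hd.le r)
    apply iSup₂_le
    rintro p hp u ⟨hu1, hu2⟩
    obtain ⟨x, hx, c, rfl⟩ := hd.split u hu1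
    by_cases hc0 : c = 0
    · rw [hc0, zero_smul, add_zero] at hu2 ⊢
      exact le_thU hp ⟨hx, hu2⟩
    · exfalso
      apply hc
      have h3 := (((h1 p.1).inf (h2 p.2)) x hx c hc0 hu2).2
      exact ⟨p, hp, h3.1, h3.2⟩

/-- square norm of the intermediate filtration inside `U` -/
noncomputable def Msq (t : ℝ) (Φ Ψ : Filt F V) (U : Submodule F V) : ℝ :=
  ∫ r in (0 : ℝ)..1, ∫ s in (0 : ℝ)..1, rk (thU t Φ Ψ U (max r s))

theorem msq_anti1 (t : ℝ) (Φ Ψ : Filt F V) (U : Submodule F V) (r : ℝ) :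
    Antitone fun s => rk (thU t Φ Ψ U (max r s)) := fun _ _ h =>
  rk_mono (thU_anti t Φ Ψ U (max_le_max_left r h))

theorem msq_anti2 (t : ℝ) (Φ Ψ : Filt F V) (U : Submodule F V) :
    Antitone fun r => ∫ s in (0 : ℝ)..1, rk (thU t Φ Ψ U (max r s)) := fun _ _ h =>
  intervalIntegral.integral_mono zero_le_one (msq_anti1 t Φ Ψ U _).intervalIntegrable
    (msq_anti1 t Φ Ψ U _).intervalIntegrable fun s =>
      rk_mono (thU_anti t Φ Ψ U (max_le_max_right s h))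

/-- weight of `e` for the intermediate filtration -/
noncomputable def nu (t : ℝ) (Φ Ψ : Filt F V) (e : V) : ℝ :=
  ∫ r in (0 : ℝ)..1, ind (Cnd t Φ Ψ e r)

theorem msq_step {t : ℝ} {Φ Ψ : Filt F V} {U H : Submodule F V} {e : V} (hd : Dec U H e)
    (h1 : ∀ s, Splits (Φ.lev s) H e) (h2 : ∀ s, Splits (Ψ.lev s) H e) :
    Msq t Φ Ψ U = Msq t Φ Ψ H + nu t Φ Ψ e * nu t Φ Ψ e := by
  have hind := ind_anti (cnd_anti t Φ Ψ e)
  have e1 : ∀ r, ∫ s in (0 : ℝ)..1, rk (thU t Φ Ψ U (max r s))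
      = (∫ s in (0 : ℝ)..1, rk (thU t Φ Ψ H (max r s)))
        + ind (Cnd t Φ Ψ e r) * nu t Φ Ψ e := by
    intro r
    have e2 : ∀ s, rk (thU t Φ Ψ U (max r s)) = rk (thU t Φ Ψ H (max r s))
        + ind (Cnd t Φ Ψ e r) * ind (Cnd t Φ Ψ e s) := by
      intro s
      rw [rk_thU hd h1 h2, ← ind_and]
      congr 2
      apply propext
      constructor
      · intro h
        exact ⟨cnd_anti t Φ Ψ e _ _ (le_max_left _ _) h, cnd_anti t Φ Ψ e _ _ (le_max_right _ _) h⟩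
      · intro h
        rcases le_total r s with h3 | h3
        · rw [max_eq_right h3]; exact h.2
        · rw [max_eq_left h3]; exact h.1
    simp only [e2]
    rw [intervalIntegral.integral_add (msq_anti1 t Φ Ψ H r).intervalIntegrable
      (hind.intervalIntegrable.const_mul _), intervalIntegral.integral_const_mul]
    rfl
  unfold Msq
  simp only [e1]
  rw [intervalIntegral.integral_add (msq_anti2 t Φ Ψ H).intervalIntegrable
    (hind.intervalIntegrable.mul_const _), intervalIntegral.integral_mul_const]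
  rfl

omit [FiniteDimensional F V] in
theorem nu_nonneg (t : ℝ) (Φ Ψ : Filt F V) (e : V) : 0 ≤ nu t Φ Ψ e :=
  intervalIntegral.integral_nonneg zero_le_one fun _ _ => ind_nonneg _

omit [FiniteDimensional F V] in
theorem nu_le {t : ℝ} (h0 : 0 ≤ t) (h1 : t ≤ 1) (Φ Ψ : Filt F V) (e : V) :
    nu t Φ Ψ e ≤ (1 - t) * lam Φ e + t * lam Ψ e := by
  have a1 := lam_nonneg Φ e
  have a2 := lam_nonneg Ψ e
  apply int_ind_le (cnd_anti t Φ Ψ e)
  · have : 0 ≤ 1 - t := by linarith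
    positivity
  · rintro r _ _ ⟨p, hp, h3, h4⟩
    have b1 := le_lam hp.2.1 h3
    have b2 := le_lam hp.2.2.2.1 h4
    have c1 : (1 - t) * p.1 ≤ (1 - t) * lam Φ e := mul_le_mul_of_nonneg_left b1 (by linarith)
    have c2 : t * p.2 ≤ t * lam Ψ e := mul_le_mul_of_nonneg_left b2 h0
    linarith [hp.2.2.2.2]

theorem msq_le {t : ℝ} (h0 : 0 ≤ t) (h1 : t ≤ 1) (Φ Ψ : Filt F V) (U : Submodule F V) :
    Msq t Φ Ψ U ≤ (1 - t) ^ 2 * B U Φ Φ + t ^ 2 * B U Ψ Ψ + 2 * t * (1 - t) * B U Φ Ψ := by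
  apply flag_ind Φ Ψ (Q := fun U => Msq t Φ Ψ U ≤ (1 - t) ^ 2 * B U Φ Φ + t ^ 2 * B U Ψ Ψ
    + 2 * t * (1 - t) * B U Φ Ψ)
  · have : ∀ r, rk (thU t Φ Ψ ⊥ r) = 0 := by
      intro r
      have h : thU t Φ Ψ ⊥ r = ⊥ := le_bot_iff.1 (thU_le t Φ Ψ ⊥ r)
      rw [h]
      unfold rk
      rw [finrank_bot]
      norm_num
    unfold Msq
    simp only [this, B_bot]
    simp
  · intro U H e hd a1 a2 ih
    rw [B_step hd a1 a2, B_step hd a1 a1, B_step hd a2 a2, msq_step hd a1 a2]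
    have h3 := nu_le h0 h1 Φ Ψ e
    have h4 := nu_nonneg t Φ Ψ e
    have h5 : nu t Φ Ψ e * nu t Φ Ψ e ≤ ((1 - t) * lam Φ e + t * lam Ψ e)
        * ((1 - t) * lam Φ e + t * lam Ψ e) := mul_self_le_mul_self h4 h3
    nlinarith

theorem B_mid (t : ℝ) (Φ Ψ : Filt F V) : B ⊤ (mid t Φ Ψ) (mid t Φ Ψ) = Msq t Φ Ψ ⊤ := by
  have h : ∀ r s, rk (⊤ ⊓ ((mid t Φ Ψ).lev r ⊓ (mid t Φ Ψ).lev s))
      = rk (thU t Φ Ψ ⊤ (max r s)) := by
    intro r s
    rw [top_inf_eq]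
    congr 1
    show thU t Φ Ψ ⊤ r ⊓ thU t Φ Ψ ⊤ s = thU t Φ Ψ ⊤ (max r s)
    rcases le_total r s with h3 | h3
    · rw [max_eq_right h3]; exact inf_eq_right.2 (thU_anti t Φ Ψ ⊤ h3)
    · rw [max_eq_left h3]; exact inf_eq_left.2 (thU_anti t Φ Ψ ⊤ h3)
  unfold B Msq
  simp only [h]

theorem anti_rk1 (U : Submodule F V) (Φ : Filt F V) : Antitone fun s => rk (U ⊓ Φ.lev s) :=
  fun _ _ h => rk_mono (inf_le_inf_left U (Φ.anti h))

theorem lam_mid {t : ℝ} (h0 : 0 ≤ t) (h1 : t ≤ 1) (Φ Ψ : Filt F V) (e : V) :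
    (1 - t) * lam Φ e + t * lam Ψ e ≤ lam (mid t Φ Ψ) e := by
  have a1 := lam_nonneg Φ e
  have a2 := lam_nonneg Ψ e
  have b1 := lam_le_one Φ e
  have b2 := lam_le_one Ψ e
  have h1' : 0 ≤ 1 - t := by linarith
  apply int_ind_ge (mem_anti (mid t Φ Ψ) e)
  · positivity
  · have c1 : (1 - t) * lam Φ e ≤ (1 - t) * 1 := mul_le_mul_of_nonneg_left b1 h1'
    have c2 : t * lam Ψ e ≤ t * 1 := mul_le_mul_of_nonneg_left b2 h0
    linarith
  · intro r _ hr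
    set η : ℝ := (1 - t) * lam Φ e + t * lam Ψ e - r with hη
    have hη0 : 0 < η := by linarith
    have key : ∀ Ξ : Filt F V, e ∈ Ξ.lev (max 0 (lam Ξ e - η)) := by
      intro Ξ
      rcases le_total (lam Ξ e - η) 0 with h | h
      · rw [max_eq_left h, Ξ.top 0 le_rfl]; trivial
      · rw [max_eq_right h]
        exact mem_of_lt_lam (by linarith)
    have hA : Adm t r (max 0 (lam Φ e - η), max 0 (lam Ψ e - η)) := by
      refine ⟨le_max_left _ _, max_le zero_le_one (by linarith), le_max_left _ _,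
        max_le zero_le_one (by linarith), ?_⟩
      have d1 : (1 - t) * (lam Φ e - η) ≤ (1 - t) * max 0 (lam Φ e - η) :=
        mul_le_mul_of_nonneg_left (le_max_right _ _) h1'
      have d2 : t * (lam Ψ e - η) ≤ t * max 0 (lam Ψ e - η) :=
        mul_le_mul_of_nonneg_left (le_max_right _ _) h0
      show r ≤ (1 - t) * max 0 (lam Φ e - η) + t * max 0 (lam Ψ e - η)
      nlinarith
    exact le_thU hA ⟨trivial, key Φ, key Ψ⟩

theorem deg_concave {t : ℝ} (h0 : 0 ≤ t) (h1 : t ≤ 1) (Φ Ψ : Filt F V) (U : Submodule F V) :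
    (1 - t) * (∫ s in (0 : ℝ)..1, rk (U ⊓ Φ.lev s)) + t * ∫ s in (0 : ℝ)..1, rk (U ⊓ Ψ.lev s)
      ≤ ∫ s in (0 : ℝ)..1, rk (U ⊓ (mid t Φ Ψ).lev s) := by
  apply flag_ind Φ Ψ (Q := fun U => (1 - t) * (∫ s in (0 : ℝ)..1, rk (U ⊓ Φ.lev s))
    + t * (∫ s in (0 : ℝ)..1, rk (U ⊓ Ψ.lev s))
      ≤ ∫ s in (0 : ℝ)..1, rk (U ⊓ (mid t Φ Ψ).lev s))
  · simp only [rk_bot]
    simp
  · intro U H e hd a1 a2 ih
    have step : ∀ Ξ : Filt F V, (∀ s, Splits (Ξ.lev s) H e) →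
        ∫ s in (0 : ℝ)..1, rk (U ⊓ Ξ.lev s) = (∫ s in (0 : ℝ)..1, rk (H ⊓ Ξ.lev s)) + lam Ξ e := by
      intro Ξ hΞ
      have : ∀ s, rk (U ⊓ Ξ.lev s) = rk (H ⊓ Ξ.lev s) + ind (e ∈ Ξ.lev s) :=
        fun s => rk_split hd (hΞ s)
      simp only [this]
      rw [intervalIntegral.integral_add (anti_rk1 H Ξ).intervalIntegrable
        (ind_anti (mem_anti Ξ e)).intervalIntegrable]
      rfl
    have stepm : (∫ s in (0 : ℝ)..1, rk (H ⊓ (mid t Φ Ψ).lev s)) + lam (mid t Φ Ψ) e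
        ≤ ∫ s in (0 : ℝ)..1, rk (U ⊓ (mid t Φ Ψ).lev s) := by
      have h3 := intervalIntegral.integral_add (μ := volume)
        (anti_rk1 H (mid t Φ Ψ)).intervalIntegrable
        (ind_anti (mem_anti (mid t Φ Ψ) e)).intervalIntegrable (a := 0) (b := 1)
      unfold lam
      rw [← h3]
      apply intervalIntegral.integral_mono zero_le_one
      · exact (anti_rk1 H (mid t Φ Ψ)).intervalIntegrable.add
          (ind_anti (mem_anti (mid t Φ Ψ) e)).intervalIntegrable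
      · exact (anti_rk1 U (mid t Φ Ψ)).intervalIntegrable
      · intro s
        exact rk_ge hd _
    rw [step Φ a1, step Ψ a2]
    have h5 := lam_mid h0 h1 Φ Ψ e
    nlinarith

/-- square distance of filtrations -/
noncomputable def Ksq (Φ Ψ : Filt F V) : ℝ := B ⊤ Φ Φ + B ⊤ Ψ Ψ - 2 * B ⊤ Φ Ψ

theorem Ksq_nonneg (Φ Ψ : Filt F V) : 0 ≤ Ksq Φ Ψ := (B_symm_nonneg Φ Ψ ⊤).2

theorem Ksq_symm (Φ Ψ : Filt F V) : Ksq Φ Ψ = Ksq Ψ Φ := by
  unfold Ksq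
  rw [(B_symm_nonneg Φ Ψ ⊤).1]
  ring

theorem Ksq_self (Φ : Filt F V) : Ksq Φ Φ = 0 := by
  unfold Ksq
  ring

theorem Ksq_stew (Φ Ψ : Filt F V) {t : ℝ} (h0 : 0 ≤ t) (h1 : t ≤ 1) (X : Filt F V) :
    Ksq X (mid t Φ Ψ) ≤ (1 - t) * Ksq X Φ + t * Ksq X Ψ - t * (1 - t) * Ksq Φ Ψ := by
  have hB : (1 - t) * B ⊤ X Φ + t * B ⊤ X Ψ ≤ B ⊤ X (mid t Φ Ψ) := by
    unfold B
    rw [← intervalIntegral.integral_const_mul, ← intervalIntegral.integral_const_mul,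
      ← intervalIntegral.integral_add ((anti_int ⊤ X Φ).intervalIntegrable.const_mul _)
        ((anti_int ⊤ X Ψ).intervalIntegrable.const_mul _)]
    apply intervalIntegral.integral_mono zero_le_one
    · exact ((anti_int ⊤ X Φ).intervalIntegrable.const_mul _).add
        ((anti_int ⊤ X Ψ).intervalIntegrable.const_mul _)
    · exact (anti_int ⊤ X (mid t Φ Ψ)).intervalIntegrable
    · intro s
      simp only [top_inf_eq]
      exact deg_concave h0 h1 Φ Ψ (X.lev s)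
  have hM := msq_le h0 h1 Φ Ψ ⊤
  rw [← B_mid] at hM
  unfold Ksq
  nlinarith

end Pool.Agent.Helper15.CE
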