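import Mathlib
import Pool.Agent.Helper15.CE.Filt2

/-!
Estimates for the distance of filtrations.
-/

namespace Pool.Agent.Helper15.CE

open MeasureTheory Module

variable {F V : Type*} [Field F] [AddCommGroup V] [Module F V]

theorem lam_sub_le {Φ Ψ : Filt F V} {η : ℝ} (hη : 0 ≤ η)
    (h : ∀ s, Φ.lev (s + η) ≤ Ψ.lev s) (e : V) : lam Φ e - lam Ψ e ≤ η := by
  have h1 : lam Φ e ≤ lam Ψ e + η := by
    apply le_of_forall_lt
    intro a ha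
    have h2 : e ∈ Ψ.lev (a - η) := by
      apply h (a - η)
      rw [sub_add_cancel]
      exact mem_of_lt_lam ha
    obtain ⟨b, hab, hb⟩ := exists_between ha
    have h3 : e ∈ Ψ.lev (b - η) := by
      apply h (b - η)
      rw [sub_add_cancel]
      exact mem_of_lt_lam hb
    have h4 := lam_le_one Φ e
    have h5 := le_lam (Φ := Ψ) (e := e) (a := b - η) (by linarith) h3
    linarith
  linarith

variable [FiniteDimensional F V]

theorem splits_top (H : Submodule F V) (e : V) : Splits ⊤ H e :=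
  fun _ _ _ _ _ => ⟨trivial, trivial⟩

theorem rk_dec {U H : Submodule F V} {e : V} (hd : Dec U H e) : rk U = rk H + 1 := by
  have h := rk_split hd (splits_top H e)
  rw [inf_top_eq, inf_top_eq, ind_true (Submodule.mem_top : e ∈ (⊤ : Submodule F V))] at h
  exact h

theorem Ksq_le {Φ Ψ : Filt F V} {η : ℝ} (hη : 0 ≤ η) (h1 : ∀ s, Φ.lev (s + η) ≤ Ψ.lev s)
    (h2 : ∀ s, Ψ.lev (s + η) ≤ Φ.lev s) : Ksq Φ Ψ ≤ rk (⊤ : Submodule F V) * η ^ 2 := by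
  have key : ∀ U : Submodule F V,
      B U Φ Φ + B U Ψ Ψ - 2 * B U Φ Ψ ≤ rk U * η ^ 2 := by
    apply flag_ind Φ Ψ (Q := fun U => B U Φ Φ + B U Ψ Ψ - 2 * B U Φ Ψ ≤ rk U * η ^ 2)
    · rw [B_bot, B_bot, B_bot]
      unfold rk
      rw [finrank_bot]
      norm_num
    · intro U H e hd a1 a2 ih
      rw [B_step hd a1 a2, B_step hd a1 a1, B_step hd a2 a2, rk_dec hd]
      have h3 := lam_sub_le hη h1 e
      have h4 := lam_sub_le hη h2 e
      have h5 : (lam Φ e - lam Ψ e) ^ 2 ≤ η ^ 2 := by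
        rw [← sq_abs]
        apply pow_le_pow_left₀ (abs_nonneg _)
        rw [abs_le]
        constructor <;> linarith
      nlinarith
  exact key ⊤

theorem anti_shift (U : Submodule F V) (Φ Ψ : Filt F V) (c : ℝ) :
    Antitone fun s => rk (U ⊓ (Φ.lev s ⊓ Ψ.lev (s - c))) := fun _ _ h =>
  rk_mono (inf_le_inf_left U (inf_le_inf (Φ.anti h) (Ψ.anti (by linarith))))

theorem sub_min_le {l m c : ℝ} (hc : 0 < c) : l - min l (m + c) ≤ (l - m) ^ 2 / (4 * c) := by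
  rcases le_total l (m + c) with h | h
  · rw [min_eq_left h, sub_self]
    positivity
  · rw [min_eq_right h, le_div_iff₀ (by positivity)]
    nlinarith [sq_nonneg (l - m - 2 * c)]

theorem int_shift_le {Φ Ψ : Filt F V} {c : ℝ} (hc : 0 < c) (U : Submodule F V) :
    (∫ s in (0 : ℝ)..1, rk (U ⊓ Φ.lev s))
      - (∫ s in (0 : ℝ)..1, rk (U ⊓ (Φ.lev s ⊓ Ψ.lev (s - c))))
      ≤ (B U Φ Φ + B U Ψ Ψ - 2 * B U Φ Ψ) / (4 * c) := by
  apply flag_ind Φ Ψ (Q := fun U => (∫ s in (0 : ℝ)..1, rk (U ⊓ Φ.lev s))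
      - (∫ s in (0 : ℝ)..1, rk (U ⊓ (Φ.lev s ⊓ Ψ.lev (s - c))))
      ≤ (B U Φ Φ + B U Ψ Ψ - 2 * B U Φ Ψ) / (4 * c))
  · simp only [rk_bot, B_bot]
    simp
  · intro U H e hd a1 a2 ih
    have anti1 : ∀ s t, s ≤ t → (e ∈ Φ.lev t ∧ e ∈ Ψ.lev (t - c)) →
        (e ∈ Φ.lev s ∧ e ∈ Ψ.lev (s - c)) := fun s t hst h =>
      ⟨Φ.anti hst h.1, Ψ.anti (by linarith) h.2⟩
    have e1 : ∫ s in (0 : ℝ)..1, rk (U ⊓ Φ.lev s)
        = (∫ s in (0 : ℝ)..1, rk (H ⊓ Φ.lev s)) + lam Φ e := by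
      have : ∀ s, rk (U ⊓ Φ.lev s) = rk (H ⊓ Φ.lev s) + ind (e ∈ Φ.lev s) :=
        fun s => rk_split hd (a1 s)
      simp only [this]
      rw [intervalIntegral.integral_add (anti_rk1 H Φ).intervalIntegrable
        (ind_anti (mem_anti Φ e)).intervalIntegrable]
      rfl
    have e2 : ∫ s in (0 : ℝ)..1, rk (U ⊓ (Φ.lev s ⊓ Ψ.lev (s - c)))
        = (∫ s in (0 : ℝ)..1, rk (H ⊓ (Φ.lev s ⊓ Ψ.lev (s - c))))
          + ∫ s in (0 : ℝ)..1, ind (e ∈ Φ.lev s ∧ e ∈ Ψ.lev (s - c)) := by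
      have : ∀ s, rk (U ⊓ (Φ.lev s ⊓ Ψ.lev (s - c)))
          = rk (H ⊓ (Φ.lev s ⊓ Ψ.lev (s - c))) + ind (e ∈ Φ.lev s ∧ e ∈ Ψ.lev (s - c)) :=
        fun s => rk_split hd ((a1 s).inf (a2 (s - c)))
      simp only [this]
      rw [intervalIntegral.integral_add (anti_shift H Φ Ψ c).intervalIntegrable
        (ind_anti anti1).intervalIntegrable]
    have l0 := lam_nonneg Φ e
    have l1 := lam_le_one Φ e
    have m0 := lam_nonneg Ψ e
    have e3 : min (lam Φ e) (lam Ψ e + c)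
        ≤ ∫ s in (0 : ℝ)..1, ind (e ∈ Φ.lev s ∧ e ∈ Ψ.lev (s - c)) := by
      apply int_ind_ge anti1
      · apply le_min l0
        linarith
      · exact (min_le_left _ _).trans l1
      · intro r _ hr
        rw [lt_min_iff] at hr
        exact ⟨mem_of_lt_lam hr.1, mem_of_lt_lam (by linarith [hr.2])⟩
    have e4 := sub_min_le (l := lam Φ e) (m := lam Ψ e) hc
    rw [B_step hd a1 a2, B_step hd a1 a1, B_step hd a2 a2, e1, e2]
    have e5 : (B H Φ Φ + lam Φ e * lam Φ e + (B H Ψ Ψ + lam Ψ e * lam Ψ e)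
        - 2 * (B H Φ Ψ + lam Φ e * lam Ψ e)) / (4 * c)
        = (B H Φ Φ + B H Ψ Ψ - 2 * B H Φ Ψ) / (4 * c) + (lam Φ e - lam Ψ e) ^ 2 / (4 * c) := by
      rw [← add_div]
      congr 1
      ring
    rw [e5]
    linarith

theorem rk_lt_one {P Q : Submodule F V} (h : ¬ P ≤ Q) : rk (P ⊓ Q) + 1 ≤ rk P := by
  have h1 : P ⊓ Q < P := lt_of_le_of_ne inf_le_left fun h2 => h (inf_eq_left.1 h2)
  have h2 := Submodule.finrank_lt_finrank_of_lt h1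
  unfold rk
  exact_mod_cast h2

theorem exists_contain {Φ Ψ : Filt F V} {c : ℝ} (hc : 0 < c) (h : Ksq Φ Ψ < 2 * c) :
    ∃ s : ℝ, 1 / 4 < s ∧ s < 3 / 4 ∧ Φ.lev s ≤ Ψ.lev (s - c) := by
  by_contra hcon
  push Not at hcon
  have h1 := int_shift_le (Φ := Φ) (Ψ := Ψ) hc ⊤
  have h2 : (B ⊤ Φ Φ + B ⊤ Ψ Ψ - 2 * B ⊤ Φ Ψ) / (4 * c) < 1 / 2 := by
    rw [div_lt_iff₀ (by positivity)]
    unfold Ksq at h
    linarith
  have i1 : ∀ a b : ℝ, IntervalIntegrable (fun s => rk (⊤ ⊓ Φ.lev s)) volume a b :=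
    fun a b => (anti_rk1 ⊤ Φ).intervalIntegrable
  have i2 : ∀ a b : ℝ, IntervalIntegrable
      (fun s => rk (⊤ ⊓ (Φ.lev s ⊓ Ψ.lev (s - c)))) volume a b :=
    fun a b => (anti_shift ⊤ Φ Ψ c).intervalIntegrable
  rw [← intervalIntegral.integral_sub (i1 0 1) (i2 0 1)] at h1
  have i3 : ∀ a b : ℝ, IntervalIntegrable
      (fun s => rk (⊤ ⊓ Φ.lev s) - rk (⊤ ⊓ (Φ.lev s ⊓ Ψ.lev (s - c)))) volume a b :=
    fun a b => (i1 a b).sub (i2 a b)
  have n0 : ∀ s, 0 ≤ rk (⊤ ⊓ Φ.lev s) - rk (⊤ ⊓ (Φ.lev s ⊓ Ψ.lev (s - c))) := by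
    intro s
    have := rk_mono (inf_le_inf_left ⊤ (inf_le_left : Φ.lev s ⊓ Ψ.lev (s - c) ≤ Φ.lev s))
    linarith
  rw [← intervalIntegral.integral_add_adjacent_intervals (i3 0 (1 / 4)) (i3 (1 / 4) 1),
    ← intervalIntegral.integral_add_adjacent_intervals (i3 (1 / 4) (3 / 4)) (i3 (3 / 4) 1)] at h1
  have j1 : 0 ≤ ∫ s in (0 : ℝ)..(1 / 4),
      (rk (⊤ ⊓ Φ.lev s) - rk (⊤ ⊓ (Φ.lev s ⊓ Ψ.lev (s - c)))) :=
    intervalIntegral.integral_nonneg (by norm_num) fun s _ => n0 s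
  have j3 : 0 ≤ ∫ s in (3 / 4 : ℝ)..1,
      (rk (⊤ ⊓ Φ.lev s) - rk (⊤ ⊓ (Φ.lev s ⊓ Ψ.lev (s - c)))) :=
    intervalIntegral.integral_nonneg (by norm_num) fun s _ => n0 s
  have j2 : (1 / 2 : ℝ) ≤ ∫ s in (1 / 4 : ℝ)..(3 / 4),
      (rk (⊤ ⊓ Φ.lev s) - rk (⊤ ⊓ (Φ.lev s ⊓ Ψ.lev (s - c)))) := by
    have k1 : ∫ s in (1 / 4 : ℝ)..(3 / 4), (1 : ℝ) = 1 / 2 := by
      rw [intervalIntegral.integral_const, smul_eq_mul]
      norm_num
    rw [← k1]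
    apply intervalIntegral.integral_mono_on_of_le_Ioo (by norm_num) intervalIntegrable_const
      (i3 _ _)
    intro s hs
    have k2 := rk_lt_one (hcon s hs.1 hs.2)
    rw [top_inf_eq, top_inf_eq]
    linarith
  linarith

end Pool.Agent.Helper15.CE
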