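import Mathlib
import Pool.Agent.Helper15.CE.Est

/-!
Estimates for the distance of truncated filtrations.
-/

namespace Pool.Agent.Helper15.CE

open MeasureTheory Module

variable {F V : Type*} [Field F] [AddCommGroup V] [Module F V]

theorem lam_eq_zero {Φ : Filt F V} {U : Submodule F V} (h : ∀ s, 0 < s → Φ.lev s ≤ U) {e : V}
    (he : e ∉ U) : lam Φ e = 0 := by
  apply le_antisymm _ (lam_nonneg Φ e)
  apply int_ind_le (mem_anti Φ e) le_rfl
  intro r hr _ hm
  exact absurd (h r hr hm) he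

variable [FiniteDimensional F V]

theorem Ksq_le2 {Φ Ψ : Filt F V} {η : ℝ} (hη : 0 ≤ η) (h1 : ∀ s, Φ.lev (s + η) ≤ Ψ.lev s)
    (h2 : ∀ s, Ψ.lev (s + η) ≤ Φ.lev s) {U : Submodule F V} (u1 : ∀ s, 0 < s → Φ.lev s ≤ U)
    (u2 : ∀ s, 0 < s → Ψ.lev s ≤ U) : Ksq Φ Ψ ≤ rk U * η ^ 2 := by
  have key : ∀ W : Submodule F V,
      B W Φ Φ + B W Ψ Ψ - 2 * B W Φ Ψ ≤ rk (W ⊓ U) * η ^ 2 := by
    apply flag_ind Φ Ψ (Q := fun W => B W Φ Φ + B W Ψ Ψ - 2 * B W Φ Ψ ≤ rk (W ⊓ U) * η ^ 2)
    · rw [B_bot, B_bot, B_bot, rk_bot]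
      norm_num
    · intro W H e hd a1 a2 ih
      rw [B_step hd a1 a2, B_step hd a1 a1, B_step hd a2 a2]
      have h3 := lam_sub_le hη h1 e
      have h4 := lam_sub_le hη h2 e
      have h6 := rk_ge hd U
      by_cases he : e ∈ U
      · have h5 : (lam Φ e - lam Ψ e) ^ 2 ≤ η ^ 2 := by
          rw [← sq_abs]
          apply pow_le_pow_left₀ (abs_nonneg _)
          rw [abs_le]
          constructor <;> linarith
        rw [ind_true he] at h6
        have h7 := mul_le_mul_of_nonneg_right h6 (sq_nonneg η)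
        nlinarith
      · rw [lam_eq_zero u1 he, lam_eq_zero u2 he]
        rw [ind_false he, add_zero] at h6
        have h7 := mul_le_mul_of_nonneg_right h6 (sq_nonneg η)
        linarith
  have := key ⊤
  rwa [top_inf_eq] at this

theorem deficit {Φ Ψ : Filt F V} {c η τ : ℝ} (hc : 0 < c) (hη : 0 < η) (hcη : c + η ≤ 1)
    {t : ℝ → ℝ} (ht : Antitone t) (t0 : ∀ s, 1 ≤ s → t s = 0)
    (hτ : ∀ s, c < s → s < c + η → τ ≤ t s)
    (h : ∀ s, c < s → s < 1 →
      t s - t (s + η) ≤ rk (Φ.lev s) - rk (Φ.lev s ⊓ Ψ.lev (s - c))) :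
    η * τ ≤ Ksq Φ Ψ / (4 * c) := by
  have h1 := int_shift_le (Φ := Φ) (Ψ := Ψ) hc ⊤
  have i1 : ∀ a b : ℝ, IntervalIntegrable (fun s => rk (⊤ ⊓ Φ.lev s)) volume a b :=
    fun a b => (anti_rk1 ⊤ Φ).intervalIntegrable
  have i2 : ∀ a b : ℝ, IntervalIntegrable
      (fun s => rk (⊤ ⊓ (Φ.lev s ⊓ Ψ.lev (s - c)))) volume a b :=
    fun a b => (anti_shift ⊤ Φ Ψ c).intervalIntegrable
  rw [← intervalIntegral.integral_sub (i1 0 1) (i2 0 1)] at h1
  have i3 : ∀ a b : ℝ, IntervalIntegrable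
      (fun s => rk (⊤ ⊓ Φ.lev s) - rk (⊤ ⊓ (Φ.lev s ⊓ Ψ.lev (s - c)))) volume a b :=
    fun a b => (i1 a b).sub (i2 a b)
  have n0 : ∀ s, 0 ≤ rk (⊤ ⊓ Φ.lev s) - rk (⊤ ⊓ (Φ.lev s ⊓ Ψ.lev (s - c))) := by
    intro s
    have := rk_mono (inf_le_inf_left ⊤ (inf_le_left : Φ.lev s ⊓ Ψ.lev (s - c) ≤ Φ.lev s))
    linarith
  rw [← intervalIntegral.integral_add_adjacent_intervals (i3 0 c) (i3 c 1)] at h1
  have j1 : 0 ≤ ∫ s in (0 : ℝ)..c,
      (rk (⊤ ⊓ Φ.lev s) - rk (⊤ ⊓ (Φ.lev s ⊓ Ψ.lev (s - c)))) :=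
    intervalIntegral.integral_nonneg hc.le fun s _ => n0 s
  have it : ∀ a b : ℝ, IntervalIntegrable t volume a b := fun a b => ht.intervalIntegrable
  have hts : Antitone fun s => t (s + η) := fun x y hxy => ht (by linarith)
  have its : ∀ a b : ℝ, IntervalIntegrable (fun s => t (s + η)) volume a b :=
    fun a b => hts.intervalIntegrable
  have j2 : ∫ s in c..1, (t s - t (s + η)) ≤ ∫ s in c..1,
      (rk (⊤ ⊓ Φ.lev s) - rk (⊤ ⊓ (Φ.lev s ⊓ Ψ.lev (s - c)))) := by
    apply intervalIntegral.integral_mono_on_of_le_Ioo (by linarith) ((it _ _).sub (its _ _))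
      (i3 _ _)
    intro s hs
    rw [top_inf_eq, top_inf_eq]
    exact h s hs.1 hs.2
  rw [intervalIntegral.integral_sub (it _ _) (its _ _),
    intervalIntegral.integral_comp_add_right (fun s => t s) η,
    ← intervalIntegral.integral_add_adjacent_intervals (it c (c + η)) (it (c + η) 1),
    ← intervalIntegral.integral_add_adjacent_intervals (it (c + η) 1) (it 1 (1 + η))] at j2
  have j3 : ∫ s in (1 : ℝ)..(1 + η), t s = 0 := by
    have : ∫ s in (1 : ℝ)..(1 + η), t s = ∫ s in (1 : ℝ)..(1 + η), (0 : ℝ) := by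
      apply intervalIntegral.integral_congr
      intro s hs
      rw [Set.uIcc_of_le (by linarith)] at hs
      exact t0 s hs.1
    rw [this]
    simp
  have j4 : η * τ ≤ ∫ s in c..(c + η), t s := by
    have k1 : ∫ s in c..(c + η), τ = η * τ := by
      rw [intervalIntegral.integral_const, smul_eq_mul]
      ring
    rw [← k1]
    apply intervalIntegral.integral_mono_on_of_le_Ioo (by linarith) intervalIntegrable_const
      (it _ _)
    intro s hs
    exact hτ s hs.1 hs.2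
  unfold Ksq
  linarith

omit [FiniteDimensional F V] in
theorem ker_dom {X : Type*} [AddCommGroup X] [Module F X] (f : X →ₗ[F] V) (T : Submodule F X) :
    finrank F (LinearMap.ker (f.domRestrict T)) = finrank F (T ⊓ LinearMap.ker f : Submodule F X) := by
  rw [LinearMap.ker_domRestrict, ← Submodule.finrank_map_subtype_eq T, Submodule.map_comap_subtype]

/-- A linear map does not increase codimensions of preimages. -/
theorem codim_comap {X : Type*} [AddCommGroup X] [Module F X] (f : X →ₗ[F] V)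
    (T : Submodule F X) [hfT : FiniteDimensional F T] {P Q : Submodule F V}
    (hT : T.map f ≤ P) :
    (finrank F T : ℝ) + rk (P ⊓ Q) ≤ finrank F (T ⊓ Q.comap f : Submodule F X) + rk P := by
  have h1 := Submodule.finrank_sup_add_finrank_inf_eq (T.map f) (P ⊓ Q)
  have h2 : finrank F (T.map f ⊔ P ⊓ Q : Submodule F V) ≤ finrank F P :=
    Submodule.finrank_mono (sup_le hT inf_le_left)
  have hf5 : FiniteDimensional F (T ⊓ Q.comap f : Submodule F X) :=
    Submodule.finiteDimensional_of_le (inf_le_left : T ⊓ Q.comap f ≤ T)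
  have h3 : finrank F (T.map f ⊓ (P ⊓ Q) : Submodule F V) + finrank F T
      ≤ finrank F (T ⊓ Q.comap f : Submodule F X) + finrank F (T.map f) := by
    have e1 := LinearMap.finrank_range_add_finrank_ker (f.domRestrict T)
    have e2 := LinearMap.finrank_range_add_finrank_ker
      (f.domRestrict (T ⊓ Q.comap f : Submodule F X))
    rw [LinearMap.range_domRestrict] at e1 e2
    have e3 : T.map f ⊓ (P ⊓ Q) ≤ (T ⊓ Q.comap f : Submodule F X).map f := by
      rintro v ⟨⟨x, hx, rfl⟩, _, hq⟩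
      exact ⟨x, ⟨hx, hq⟩, rfl⟩
    have e4 := Submodule.finrank_mono e3
    rw [ker_dom] at e1 e2
    have e5 : (T ⊓ LinearMap.ker f : Submodule F X)
        ≤ (T ⊓ Q.comap f : Submodule F X) ⊓ LinearMap.ker f := by
      rintro x ⟨hx1, hx2⟩
      refine ⟨⟨hx1, ?_⟩, hx2⟩
      show f x ∈ Q
      rw [LinearMap.mem_ker.1 hx2]
      exact Q.zero_mem
    have hf6 : FiniteDimensional F
        ((T ⊓ Q.comap f : Submodule F X) ⊓ LinearMap.ker f : Submodule F X) :=
      Submodule.finiteDimensional_of_le (inf_le_left.trans inf_le_left :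
        (T ⊓ Q.comap f : Submodule F X) ⊓ LinearMap.ker f ≤ T)
    have e6 := Submodule.finrank_mono e5
    omega
  have h4 : finrank F T + finrank F (P ⊓ Q : Submodule F V)
      ≤ finrank F (T ⊓ Q.comap f : Submodule F X) + finrank F P := by omega
  unfold rk
  exact_mod_cast h4

end Pool.Agent.Helper15.CE
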