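import Mathlib
import Pool.Agent.Helper15.CE.Quo
import Pool.Agent.Helper15.CE.Crit

/-!
Gluing: a metric space coarsely embeds into a CAT(0) space if it has partitions of unity of small
variation whose supports embed uniformly into CAT(0) spaces.
-/

namespace Pool.Agent.Helper15.CE

open Filter Real Pool.Agent.Helper17.TC

universe u v w

theorem ang_cut {Z : Type v} [MetricSpace Z] (hZ : IsCAT0 Z) {e : ℝ} (he : 0 < e) :
    Ang (fun x y : Z => min π (e * dist x y)) := by
  letI : MulAction PUnit.{1} Z :=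
    { smul := fun _ z => z
      one_smul := fun _ => rfl
      mul_smul := fun _ _ _ => rfl }
  have hs : ∀ (g : PUnit.{1}) (z : Z), g • z = z := fun _ _ => rfl
  have h := ang_qa (G := PUnit.{1}) (Z := Z) (N := ⊤) (fun g => by
    have : (fun z : Z => g • z) = id := by funext z; exact hs g z
    rw [this]
    exact isometry_id) hZ he (fun g _ hg => absurd (Subsingleton.elim g 1) hg)
  have e1 : (fun x y : Z => qa (⊤ : Subgroup PUnit.{1}) e x y)
      = fun x y : Z => min π (e * dist x y) := by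
    funext x y
    unfold qa
    simp only [hs]
    exact ciInf_const
  rw [e1] at h
  exact h

section est

theorem term_up {a b θ δ : ℝ} (ha : 0 ≤ a) (hb : 0 ≤ b)
    (h : 0 < a → 0 < b → 0 ≤ θ ∧ θ ≤ δ) :
    √a ^ 2 + √b ^ 2 - 2 * √a * √b * cos θ ≤ |a - b| + (a + b) / 2 * δ ^ 2 := by
  have ra : √a ^ 2 = a := sq_sqrt ha
  have rb : √b ^ 2 = b := sq_sqrt hb
  have na : 0 ≤ √a := sqrt_nonneg a
  have nb : 0 ≤ √b := sqrt_nonneg b
  have hd : (√a - √b) ^ 2 ≤ |a - b| := by
    have e1 : a - b = (√a - √b) * (√a + √b) := by nlinarith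
    rw [e1, abs_mul, abs_of_nonneg (by linarith : (0 : ℝ) ≤ √a + √b), ← sq_abs, sq]
    apply mul_le_mul_of_nonneg_left _ (abs_nonneg _)
    rw [abs_le]
    constructor <;> linarith
  have hg : 0 ≤ (a + b) / 2 * δ ^ 2 := by positivity
  rcases eq_or_lt_of_le ha with h0 | h0
  · rw [← h0, sqrt_zero] at hd ⊢
    nlinarith
  · rcases eq_or_lt_of_le hb with h1 | h1
    · rw [← h1, sqrt_zero] at hd ⊢
      rw [← h1] at hg
      nlinarith
    · obtain ⟨h2, h3⟩ := h h0 h1
      have hc := one_sub_sq_div_two_le_cos (x := θ)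
      have hθ : θ ^ 2 ≤ δ ^ 2 := pow_le_pow_left₀ h2 h3 2
      have hab : √a * √b ≤ (a + b) / 2 := by nlinarith [sq_nonneg (√a - √b)]
      have hab0 : 0 ≤ √a * √b := mul_nonneg na nb
      have h4 : 2 * (√a * √b) * (1 - cos θ) ≤ (√a * √b) * δ ^ 2 := by nlinarith
      have h5 : (√a * √b) * δ ^ 2 ≤ (a + b) / 2 * δ ^ 2 :=
        mul_le_mul_of_nonneg_right hab (sq_nonneg _)
      nlinarith

theorem term_low {a b θ : ℝ} (ha : 0 ≤ a) (hb : 0 ≤ b)
    (h : 0 < a → 0 < b → cos θ ≤ 0) :
    a + b ≤ √a ^ 2 + √b ^ 2 - 2 * √a * √b * cos θ := by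
  rw [sq_sqrt ha, sq_sqrt hb]
  rcases eq_or_lt_of_le ha with h0 | h0
  · rw [← h0, sqrt_zero]; linarith
  · rcases eq_or_lt_of_le hb with h1 | h1
    · rw [← h1, sqrt_zero]; linarith
    · have h2 := h h0 h1
      have h3 : 0 ≤ √a * √b := mul_nonneg (sqrt_nonneg _) (sqrt_nonneg _)
      nlinarith

end est

/-- for all `R` and `ε > 0` there is a partition of unity on `X` of variation at most `ε` at
scale `R` whose supports coarsely embed into CAT(0) spaces with common control functions -/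
def GlueEmb (X : Type u) [MetricSpace X] : Prop :=
  ∀ R ε : ℝ, 0 < ε → ∃ (ι : Type w) (a : ι → X → ℝ), (∀ i x, 0 ≤ a i x) ∧
    (∀ x, HasSum (fun i => a i x) 1) ∧
    (∀ x y, dist x y ≤ R → ∑' i, |a i x - a i y| ≤ ε) ∧
    ∃ rm rp : ℝ → ℝ, MonotoneOn rm (Set.Ici 0) ∧ MonotoneOn rp (Set.Ici 0) ∧
      Tendsto rm atTop atTop ∧ ∀ i, ∃ (Y : Type v) (_ : MetricSpace Y), IsCAT0 Y ∧
        ∃ f : X → Y, ∀ x y, a i x ≠ 0 → a i y ≠ 0 →
          rm (dist x y) ≤ dist (f x) (f y) ∧ dist (f x) (f y) ≤ rp (dist x y)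

theorem glue_scale {X : Type u} [MetricSpace X] (hG : GlueEmb.{u, v, w} X) (k : ℕ) :
    Scale.{u, max w v} X k := by
  have hpi := pi_pos
  rcases isEmpty_or_nonempty X with hX | ⟨⟨x0⟩⟩
  · exact ⟨PUnit, inferInstance, stew_punit, fun x => (hX.false x).elim,
      fun x => (hX.false x).elim, fun x => (hX.false x).elim, 0, fun x => (hX.false x).elim⟩
  set δ : ℝ := (1 / 2) ^ (k + 1) with hδ
  have hδ0 : 0 < δ := by positivity
  obtain ⟨ι, a, ha0, ha1, hav, rm, rp, m1, m2, m3, hφ⟩ := hG k (δ ^ 2) (by positivity)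
  choose Y inst hY φ hφ using hφ
  set e : ℝ := δ / (|rp k| + 1) with he
  have hr0 : 0 < |rp k| + 1 := by positivity
  have he0 : 0 < e := by positivity
  have hang : ∀ c, Ang (fun x y : Y c => min π (e * dist x y)) := fun c => ang_cut (hY c) he0
  let C : ι → Type v := fun c => SeparationQuotient (PreCone (hang c))
  let o : ∀ c, C c := fun c => SeparationQuotient.mk ⟨0, le_rfl, φ c x0⟩
  let cf : X → ∀ c, C c := fun x c =>
    SeparationQuotient.mk ⟨√(a c x), sqrt_nonneg _, φ c x⟩
  have hd : ∀ x y c, dist (cf x c) (cf y c) ^ 2 = √(a c x) ^ 2 + √(a c y) ^ 2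
      - 2 * √(a c x) * √(a c y) * cos (min π (e * dist (φ c x) (φ c y))) := by
    intro x y c
    show dist (SeparationQuotient.mk (⟨√(a c x), sqrt_nonneg _, φ c x⟩ : PreCone (hang c)))
      (SeparationQuotient.mk (⟨√(a c y), sqrt_nonneg _, φ c y⟩ : PreCone (hang c))) ^ 2 = _
    rw [SeparationQuotient.dist_mk, PreCone.dist_sq]
  have hdo : ∀ x c, dist (cf x c) (o c) ^ 2 = a c x := by
    intro x c
    show dist (SeparationQuotient.mk (⟨√(a c x), sqrt_nonneg _, φ c x⟩ : PreCone (hang c)))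
      (SeparationQuotient.mk (⟨0, le_rfl, φ c x0⟩ : PreCone (hang c))) ^ 2 = _
    rw [SeparationQuotient.dist_mk, PreCone.dist_sq]
    show √(a c x) ^ 2 + (0 : ℝ) ^ 2 - 2 * √(a c x) * 0 * _ = _
    rw [sq_sqrt (ha0 _ _)]
    ring
  have hsum : ∀ x, Summable fun c => dist (cf x c) (o c) ^ 2 := by
    intro x
    simp only [hdo]
    exact (ha1 x).summable
  let f : X → SqSum o := fun x => ⟨cf x, hsum x⟩
  have hf : ∀ x y, dist (f x) (f y) ^ 2 = ∑' c, dist (cf x c) (cf y c) ^ 2 := fun x y =>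
    SqSum.dist_sq _ _
  have hfs : ∀ x y, Summable fun c => dist (cf x c) (cf y c) ^ 2 := fun x y =>
    (f x).summable (f y)
  have hsum0 : Summable fun c => dist (o c) (o c) ^ 2 := by
    have e1 : (fun c => dist (o c) (o c) ^ 2) = fun _ => (0 : ℝ) := by
      funext i
      rw [dist_self]
      norm_num
    rw [e1]
    exact summable_zero
  let base : SqSum o := ⟨o, hsum0⟩
  have hbase : ∀ x, dist (f x) base ≤ 1 := by
    intro x
    have h3 : dist (f x) base ^ 2 = 1 := by
      rw [SqSum.dist_sq]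
      show ∑' c, dist (cf x c) (o c) ^ 2 = 1
      simp only [hdo]
      exact (ha1 x).tsum_eq
    have h4 : (0 : ℝ) ≤ dist (f x) base := dist_nonneg
    nlinarith
  obtain ⟨T, hT⟩ := (tendsto_atTop.1 m3 (π / 2 / e)).exists_forall_of_atTop
  refine ⟨SqSum o, inferInstance, stew_sqSum fun c => (stew_preCone (hang c)).sep, f, ?_, ?_,
    T, ?_⟩
  · intro x y
    have := dist_triangle_right (f x) (f y) base
    linarith [hbase x, hbase y]
  · intro x y hxy
    have hpp : (0 : ℝ) ≤ (1 / 2 : ℝ) ^ k := by positivity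
    have hsq : dist (f x) (f y) ^ 2 ≤ ((1 / 2 : ℝ) ^ k) ^ 2 := by
      rw [hf]
      have hb : ∀ c, dist (cf x c) (cf y c) ^ 2
          ≤ |a c x - a c y| + (a c x + a c y) / 2 * δ ^ 2 := by
        intro c
        rw [hd]
        apply term_up (ha0 _ _) (ha0 _ _)
        intro h1 h2
        have h3 := (hφ c x y h1.ne' h2.ne').2
        have h4 : rp (dist x y) ≤ rp k := m2 dist_nonneg (Set.mem_Ici.2 (Nat.cast_nonneg k)) hxy
        refine ⟨le_min hpi.le (mul_nonneg he0.le dist_nonneg), (min_le_right _ _).trans ?_⟩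
        have h5 : dist (φ c x) (φ c y) ≤ |rp k| + 1 := by
          have := le_abs_self (rp k)
          linarith
        have h6 := mul_le_mul_of_nonneg_left h5 he0.le
        refine h6.trans (le_of_eq ?_)
        rw [he]
        field_simp
      have sx := (ha1 x)
      have sy := (ha1 y)
      have s1 : Summable fun c => |a c x - a c y| := (sx.summable.sub sy.summable).abs
      have s2 : HasSum (fun c => (a c x + a c y) / 2 * δ ^ 2) ((1 + 1) / 2 * δ ^ 2) :=
        ((sx.add sy).div_const 2).mul_right (δ ^ 2)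
      have h7 := Summable.tsum_le_tsum hb (hfs x y) (s1.add s2.summable)
      rw [s1.tsum_add s2.summable, s2.tsum_eq] at h7
      have h8 := hav x y hxy
      have e1 : ((1 / 2 : ℝ) ^ k) ^ 2 = 4 * δ ^ 2 := by
        rw [hδ, pow_succ]
        ring
      rw [e1]
      have : 0 < δ ^ 2 := by positivity
      linarith
    exact (pow_le_pow_iff_left₀ dist_nonneg hpp two_ne_zero).1 hsq
  · intro x y hxy
    have hsq : 1 ≤ dist (f x) (f y) ^ 2 := by
      rw [hf]
      have hb : ∀ c, a c x + a c y ≤ dist (cf x c) (cf y c) ^ 2 := by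
        intro c
        rw [hd]
        apply term_low (ha0 _ _) (ha0 _ _)
        intro h1 h2
        have h3 := (hφ c x y h1.ne' h2.ne').1
        have h4 := hT _ hxy
        have h5 : π / 2 ≤ e * dist (φ c x) (φ c y) := by
          have h6 := h4.trans h3
          rw [div_le_iff₀ he0] at h6
          linarith
        apply cos_nonpos_of_pi_div_two_le_of_le
        · exact le_min (by linarith) h5
        · exact (min_le_left _ _).trans (by linarith)
      have sx := (ha1 x)
      have sy := (ha1 y)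
      have h7 := Summable.tsum_le_tsum hb (sx.add sy).summable (hfs x y)
      rw [(sx.add sy).tsum_eq] at h7
      linarith
    have h4 : (0 : ℝ) ≤ dist (f x) (f y) := dist_nonneg
    nlinarith

end Pool.Agent.Helper15.CE
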