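import Mathlib

/-!
Rigidity of multiplications in deep quotients of polynomial rings.
-/

namespace Pool.Agent.Helper15.CE

open MvPolynomial Module

variable {F : Type*} [Field F] {d : ℕ}

/-- polynomials of total degree less than `k` -/
noncomputable def Td (F : Type*) [Field F] (d k : ℕ) : Submodule F (MvPolynomial (Fin d) F) :=
  restrictSupport F {s : Fin d →₀ ℕ | s.degree < k}

theorem mem_Td {p : MvPolynomial (Fin d) F} {k : ℕ} :
    p ∈ Td F d k ↔ ∀ s ∈ p.support, s.degree < k := mem_restrictSupport_iff F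

theorem mem_Td_succ {p : MvPolynomial (Fin d) F} {k : ℕ} :
    p ∈ Td F d (k + 1) ↔ p.totalDegree ≤ k := by
  rw [mem_Td]
  constructor
  · intro h
    apply Finset.sup_le
    intro s hs
    exact Nat.lt_succ_iff.1 (h s hs)
  · intro h s hs
    exact Nat.lt_succ_iff.2 ((le_totalDegree hs).trans h)

theorem Td_mono {k l : ℕ} (h : k ≤ l) : Td F d k ≤ Td F d l :=
  restrictSupport_mono F fun _ hs => lt_of_lt_of_le hs h

theorem mem_Td_zero {p : MvPolynomial (Fin d) F} (h : p ∈ Td F d 0) : p = 0 := by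
  rw [mem_Td] at h
  rw [← MvPolynomial.support_eq_empty, Finset.eq_empty_iff_forall_notMem]
  intro s hs
  exact absurd (h s hs) (Nat.not_lt_zero _)

theorem mul_mem_Td {p q : MvPolynomial (Fin d) F} {a b : ℕ} (hp : p ∈ Td F d (a + 1))
    (hq : q ∈ Td F d b) : p * q ∈ Td F d (a + b) := by
  rcases b with _ | b
  · rw [mem_Td_zero hq, mul_zero]
    exact Submodule.zero_mem _
  · rw [mem_Td_succ] at hp hq
    rw [← Nat.add_assoc, mem_Td_succ]
    exact (totalDegree_mul p q).trans (Nat.add_le_add hp hq)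

instance (k : ℕ) : FiniteDimensional F (Td F d k) := by
  have hfin : Set.Finite {s : Fin d →₀ ℕ | s.degree < k} := by
    have : {s : Fin d →₀ ℕ | s.degree < k} ⊆ Set.Iic (Finsupp.equivFunOnFinite.symm fun _ => k) := by
      intro s hs i
      have h1 : s i ≤ s.degree := Finsupp.le_degree i s
      have h2 : s.degree < k := hs
      show s i ≤ k
      omega
    exact (Set.finite_Iic _).subset this
  have := hfin.to_subtype
  exact Module.Finite.of_basis (basisRestrictSupport F {s : Fin d →₀ ℕ | s.degree < k})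

theorem rigid {I : Ideal (MvPolynomial (Fin d) F)} {M j C : ℕ} (hM : 2 * j + C ≤ M)
    (ha : ∀ p ∈ Td F d M, p ∈ I → p = 0)
    (hb : ∀ z, z ∉ I → ∀ S : Submodule F (MvPolynomial (Fin d) F), S ≤ Td F d j →
      (∀ p ∈ S, z * p ∈ I) → finrank F S ≤ finrank F (Td F d (j - 1)))
    {h : MvPolynomial (Fin d) F ⧸ I} {S : Submodule F (MvPolynomial (Fin d) F)}
    (hS : S ≤ Td F d j) (hd : finrank F (Td F d (j - 1)) < finrank F S)
    (hq : ∀ p ∈ S, ∃ q ∈ Td F d (j + C), h * Ideal.Quotient.mk I p = Ideal.Quotient.mk I q) :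
    ∃ q0 ∈ Td F d (C + 1), h = Ideal.Quotient.mk I q0 := by
  have hfS : FiniteDimensional F S := Submodule.finiteDimensional_of_le hS
  have hnle : ¬ S ≤ Td F d (j - 1) := fun hle =>
    absurd (Submodule.finrank_mono hle) (not_le.2 hd)
  obtain ⟨p1, hp1, hp1'⟩ := SetLike.not_le_iff_exists.1 hnle
  have hp1ne : p1 ≠ 0 := fun h0 => hp1' (h0 ▸ Submodule.zero_mem _)
  have hj : 1 ≤ j := by
    by_contra hlt
    have h0 : j = 0 := by omega
    subst h0
    exact hnle hS
  obtain ⟨q1, hq1, hq1'⟩ := hq p1 hp1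
  obtain ⟨a, b, c, hrel, hca, hcb⟩ :=
    UniqueFactorizationMonoid.exists_reduced_factors p1 hp1ne q1
  have hc : c ≠ 0 := fun h0 => hp1ne (by rw [← hca, h0, zero_mul])
  have ha0 : a ≠ 0 := fun h0 => hp1ne (by rw [← hca, h0, mul_zero])
  -- all lifts satisfy the same relation
  have key : ∀ p ∈ S, ∀ q ∈ Td F d (j + C),
      h * Ideal.Quotient.mk I p = Ideal.Quotient.mk I q → q * a = b * p := by
    intro p hp q hqm hqe
    have h1 : q * p1 - q1 * p ∈ I := by
      rw [← Ideal.Quotient.eq_zero_iff_mem, map_sub, map_mul, map_mul, ← hqe, ← hq1']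
      ring
    have hmem : ∀ x y : MvPolynomial (Fin d) F, x ∈ Td F d (j + C) → y ∈ Td F d j →
        x * y ∈ Td F d M := by
      intro x y hx hy
      have : x ∈ Td F d ((j + C - 1) + 1) := Td_mono (by omega) hx
      exact Td_mono (by omega) (mul_mem_Td this hy)
    have h2 : q * p1 - q1 * p = 0 :=
      ha _ (Submodule.sub_mem _ (hmem q p1 hqm (hS hp1)) (hmem q1 p hq1 (hS hp))) h1
    have h3 : c * (q * a - b * p) = 0 := by
      have e : c * (q * a - b * p) = q * (c * a) - (c * b) * p := by ring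
      rw [e, hca, hcb]
      exact h2
    have h4 := (mul_eq_zero.1 h3).resolve_left hc
    exact sub_eq_zero.1 h4
  have hdvd : ∀ p ∈ S, a ∣ p := by
    intro p hp
    obtain ⟨q, hqm, hqe⟩ := hq p hp
    have h1 := key p hp q hqm hqe
    exact hrel.dvd_of_dvd_mul_left ⟨q, by rw [← h1, mul_comm]⟩
  -- the denominator is a constant
  have hdeg : a.totalDegree = 0 := by
    by_contra hne
    have hle : S ≤ (Td F d (j - 1)).map (LinearMap.mulLeft F a) := by
      intro p hp
      obtain ⟨r, hr⟩ := hdvd p hp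
      refine ⟨r, ?_, hr.symm⟩
      by_cases hr0 : r = 0
      · rw [hr0]
        exact Submodule.zero_mem _
      · have h1 : p.totalDegree = a.totalDegree + r.totalDegree := by
          rw [hr]
          exact totalDegree_mul_of_isDomain ha0 hr0
        have h2 : p ∈ Td F d ((j - 1) + 1) := by
          rw [Nat.sub_add_cancel hj]
          exact hS hp
        rw [mem_Td_succ] at h2
        have h3 : r.totalDegree + 1 ≤ j - 1 := by omega
        have h4 : r ∈ Td F d (r.totalDegree + 1) := mem_Td_succ.2 le_rfl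
        exact Td_mono h3 h4
    have h5 := Submodule.finrank_mono hle
    have h6 := Submodule.finrank_map_le (LinearMap.mulLeft F a) (Td F d (j - 1))
    omega
  obtain ⟨u, hu, hau⟩ : ∃ u : F, u ≠ 0 ∧ a = MvPolynomial.C u := by
    have h1 := totalDegree_eq_zero_iff_eq_C.1 hdeg
    refine ⟨coeff 0 a, fun h0 => ha0 ?_, h1⟩
    rw [h1, h0, C_0]
  set q0 : MvPolynomial (Fin d) F := MvPolynomial.C u⁻¹ * b with hq0
  have key2 : ∀ p ∈ S, ∀ q ∈ Td F d (j + C),
      h * Ideal.Quotient.mk I p = Ideal.Quotient.mk I q → q = q0 * p := by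
    intro p hp q hqm hqe
    have h1 := key p hp q hqm hqe
    rw [hau] at h1
    have h2 : MvPolynomial.C (σ := Fin d) u⁻¹ * MvPolynomial.C u = 1 := by
      rw [← C_mul, inv_mul_cancel₀ hu, C_1]
    calc q = (MvPolynomial.C u⁻¹ * MvPolynomial.C u) * q := by rw [h2, one_mul]
      _ = MvPolynomial.C u⁻¹ * (q * MvPolynomial.C u) := by ring
      _ = MvPolynomial.C u⁻¹ * (b * p) := by rw [h1]
      _ = q0 * p := by rw [hq0]; ring
  refine ⟨q0, ?_, ?_⟩
  · have h1 := key2 p1 hp1 q1 hq1 hq1'
    by_cases h0 : q0 = 0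
    · rw [h0]
      exact Submodule.zero_mem _
    · rw [mem_Td_succ]
      have h2 : q1.totalDegree = q0.totalDegree + p1.totalDegree := by
        rw [h1]
        exact totalDegree_mul_of_isDomain h0 hp1ne
      have h3 : q1.totalDegree ≤ j + C - 1 := by
        rw [← mem_Td_succ]
        exact Td_mono (by omega) hq1
      have h4 : j - 1 ≤ p1.totalDegree := by
        by_contra hlt
        apply hp1'
        exact Td_mono (by omega) (mem_Td_succ.2 (le_refl p1.totalDegree))
      omega
  · obtain ⟨z, hz⟩ := Ideal.Quotient.mk_surjective (h - Ideal.Quotient.mk I q0)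
    by_cases hzI : z ∈ I
    · rw [Ideal.Quotient.eq_zero_iff_mem.2 hzI] at hz
      exact (sub_eq_zero.1 hz.symm)
    · exfalso
      have h1 := hb z hzI S hS (by
        intro p hp
        obtain ⟨q, hqm, hqe⟩ := hq p hp
        rw [← Ideal.Quotient.eq_zero_iff_mem, map_mul, hz, sub_mul, hqe, key2 p hp q hqm hqe,
          map_mul, sub_self])
      omega

end Pool.Agent.Helper15.CE
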