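import Mathlib
import Pool.Agent.Helper15.CE.Est2
import Pool.Agent.Helper15.CE.Rig
import Pool.Agent.Helper15.CE.Word

/-!
Degree filtrations of `(R/I)^N` for polynomial rings `R` and the action of `SL_N(R/I)`.
-/

namespace Pool.Agent.Helper15.CE

open MvPolynomial Module

variable {F : Type*} [Field F] {d N : ℕ} {I : Ideal (MvPolynomial (Fin d) F)}

/-- classes of polynomials of degree less than `k` -/
noncomputable def W (I : Ideal (MvPolynomial (Fin d) F)) (k : ℕ) :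
    Submodule F (MvPolynomial (Fin d) F ⧸ I) :=
  (Td F d k).map (Ideal.Quotient.mkₐ F I).toLinearMap

theorem mem_W {k : ℕ} {x : MvPolynomial (Fin d) F ⧸ I} :
    x ∈ W I k ↔ ∃ q ∈ Td F d k, Ideal.Quotient.mk I q = x := Iff.rfl

theorem W_mono {k l : ℕ} (h : k ≤ l) : W I k ≤ W I l := Submodule.map_mono (Td_mono h)

theorem W_zero {x : MvPolynomial (Fin d) F ⧸ I} (h : x ∈ W I 0) : x = 0 := by
  obtain ⟨q, hq, rfl⟩ := h
  rw [mem_Td_zero hq, map_zero]

theorem mul_mem_W {p : MvPolynomial (Fin d) F} {a b : ℕ} (hp : p ∈ Td F d (a + 1))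
    {x : MvPolynomial (Fin d) F ⧸ I} (hx : x ∈ W I b) : Ideal.Quotient.mk I p * x ∈ W I (b + a) := by
  obtain ⟨q, hq, rfl⟩ := mem_W.1 hx
  rw [Nat.add_comm]
  exact mem_W.2 ⟨p * q, mul_mem_Td hp hq, map_mul _ _ _⟩

/-- vectors of classes of polynomials of degree less than `k` -/
noncomputable def LvI (I : Ideal (MvPolynomial (Fin d) F)) (N k : ℕ) :
    Submodule F (Fin N → MvPolynomial (Fin d) F ⧸ I) :=
  Submodule.pi Set.univ fun _ => W I k

theorem mem_LvI {k : ℕ} {v : Fin N → MvPolynomial (Fin d) F ⧸ I} :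
    v ∈ LvI I N k ↔ ∀ i, v i ∈ W I k := by
  unfold LvI
  rw [Submodule.mem_pi]
  simp

theorem LvI_mono {k l : ℕ} (h : k ≤ l) : LvI I N k ≤ LvI I N l := by
  intro v hv
  rw [mem_LvI] at hv ⊢
  exact fun i => W_mono h (hv i)

theorem LvI_zero {v : Fin N → MvPolynomial (Fin d) F ⧸ I} (h : v ∈ LvI I N 0) : v = 0 := by
  rw [mem_LvI] at h
  funext i
  exact W_zero (h i)

theorem mulVec_memI {A : Matrix (Fin N) (Fin N) (MvPolynomial (Fin d) F)} {δ k : ℕ}
    (hA : ∀ i j, A i j ∈ Td F d (δ + 1)) {v : Fin N → MvPolynomial (Fin d) F ⧸ I}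
    (hv : v ∈ LvI I N k) : (A.map (Ideal.Quotient.mk I)).mulVec v ∈ LvI I N (k + δ) := by
  rw [mem_LvI] at hv ⊢
  intro i
  have e : (A.map (Ideal.Quotient.mk I)).mulVec v i
      = ∑ j, Ideal.Quotient.mk I (A i j) * v j := rfl
  rw [e]
  exact Submodule.sum_mem _ fun j _ => mul_mem_W (hA i j) (hv j)

theorem finrank_LvI (k : ℕ) : finrank F (LvI I N k) ≤ N * finrank F (Td F d k) := by
  set L : (Fin N → Td F d k) →ₗ[F] (Fin N → MvPolynomial (Fin d) F ⧸ I) :=
    LinearMap.pi fun i => ((Ideal.Quotient.mkₐ F I).toLinearMap.comp (Td F d k).subtype).comp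
      (LinearMap.proj i) with hL
  have h1 : LvI I N k ≤ LinearMap.range L := by
    intro v hv
    rw [mem_LvI] at hv
    choose q hq hq' using fun i => mem_W.1 (hv i)
    exact ⟨fun i => ⟨q i, hq i⟩, funext hq'⟩
  have h2 := Submodule.finrank_mono h1
  have h3 := LinearMap.finrank_range_le L
  rw [Module.finrank_pi_fintype] at h3
  simp only [Finset.sum_const, Finset.card_univ, Fintype.card_fin, smul_eq_mul] at h3
  exact h2.trans h3

/-- the truncated degree filtration of a group element -/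
noncomputable def FilI (I : Ideal (MvPolynomial (Fin d) F)) (m : ℕ)
    (g : Matrix.SpecialLinearGroup (Fin N) (MvPolynomial (Fin d) F ⧸ I)) :
    Filt F (Fin N → MvPolynomial (Fin d) F ⧸ I) where
  lev s := if s ≤ 0 then ⊤ else (LvI I N ⌊(1 - s) * m⌋₊).comap
    ((Matrix.mulVecLin (g⁻¹).1).restrictScalars F)
  anti s t hst := by
    dsimp only
    by_cases hs : s ≤ 0
    · rw [if_pos hs]
      exact le_top
    · rw [if_neg hs, if_neg (fun ht => hs (hst.trans ht))]
      apply Submodule.comap_mono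
      apply LvI_mono
      apply Nat.floor_le_floor
      apply mul_le_mul_of_nonneg_right _ (Nat.cast_nonneg _)
      linarith
  top s hs := if_pos hs

theorem mem_FilI {m : ℕ} {g : Matrix.SpecialLinearGroup (Fin N) (MvPolynomial (Fin d) F ⧸ I)}
    {s : ℝ} (hs : 0 < s) {v : Fin N → MvPolynomial (Fin d) F ⧸ I} :
    v ∈ (FilI I m g).lev s ↔ (g⁻¹).1.mulVec v ∈ LvI I N ⌊(1 - s) * m⌋₊ := by
  unfold FilI
  dsimp only
  rw [if_neg (not_le.2 hs)]
  rfl

/-- matrices with entries of degree at most `δ` -/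
def sB (F : Type*) [Field F] (d N δ : ℕ) :
    Set (Matrix.SpecialLinearGroup (Fin N) (MvPolynomial (Fin d) F)) :=
  {A | ∀ i j, A.1 i j ∈ Td F d (δ + 1)}

/-- matrices such that the entries of the matrix and of its inverse have degree at most `δ` -/
def hB (F : Type*) [Field F] (d N δ : ℕ) :
    Set (Matrix.SpecialLinearGroup (Fin N) (MvPolynomial (Fin d) F)) :=
  {A | A ∈ sB F d N δ ∧ A⁻¹ ∈ sB F d N δ}

theorem hB_inv {δ : ℕ} {A : Matrix.SpecialLinearGroup (Fin N) (MvPolynomial (Fin d) F)}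
    (h : A ∈ hB F d N δ) : A⁻¹ ∈ hB F d N δ := ⟨h.2, by rw [inv_inv]; exact h.1⟩

theorem sB_mul {δ ε : ℕ} {A B : Matrix.SpecialLinearGroup (Fin N) (MvPolynomial (Fin d) F)}
    (hA : A ∈ sB F d N δ) (hB : B ∈ sB F d N ε) : A * B ∈ sB F d N (δ + ε) := by
  intro i j
  have e : (A * B).1 i j = ∑ k, A.1 i k * B.1 k j := rfl
  rw [e]
  exact Submodule.sum_mem _ fun k _ => mul_mem_Td (a := δ) (b := ε + 1) (hA i k) (hB k j)

theorem hB_mul {δ ε : ℕ} {A B : Matrix.SpecialLinearGroup (Fin N) (MvPolynomial (Fin d) F)}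
    (hA : A ∈ hB F d N δ) (hB' : B ∈ hB F d N ε) : A * B ∈ hB F d N (δ + ε) := by
  refine ⟨sB_mul hA.1 hB'.1, ?_⟩
  rw [mul_inv_rev, Nat.add_comm]
  exact sB_mul hB'.2 hA.2

theorem hB_one : (1 : Matrix.SpecialLinearGroup (Fin N) (MvPolynomial (Fin d) F)) ∈ hB F d N 0 := by
  have h : (1 : Matrix.SpecialLinearGroup (Fin N) (MvPolynomial (Fin d) F)) ∈ sB F d N 0 := by
    intro i j
    have e : (1 : Matrix.SpecialLinearGroup (Fin N) (MvPolynomial (Fin d) F)).1 i j
        = (1 : Matrix (Fin N) (Fin N) (MvPolynomial (Fin d) F)) i j := rfl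
    rw [e, Matrix.one_apply, mem_Td_succ]
    split_ifs <;> simp
  exact ⟨h, by rw [inv_one]; exact h⟩

theorem hB_word {S : Set (Matrix.SpecialLinearGroup (Fin N) (MvPolynomial (Fin d) F))} {δ : ℕ}
    (hS : ∀ s ∈ S, s ∈ hB F d N δ)
    (l : List (Matrix.SpecialLinearGroup (Fin N) (MvPolynomial (Fin d) F)))
    (hl : ∀ x ∈ l, x ∈ S ∨ x⁻¹ ∈ S) : l.prod ∈ hB F d N (δ * l.length) := by
  induction l with
  | nil => simpa using hB_one
  | cons a l ih =>
    have h1 := ih fun x hx => hl x (List.mem_cons_of_mem _ hx)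
    have h2 : a ∈ hB F d N δ := by
      rcases hl a List.mem_cons_self with h | h
      · exact hS a h
      · have := hB_inv (hS _ h)
        rwa [inv_inv] at this
    rw [List.prod_cons, List.length_cons, Nat.mul_add, Nat.mul_one, Nat.add_comm]
    exact hB_mul h2 h1

theorem FilI_shift {m : ℕ} (hm : 0 < m)
    {g h : Matrix.SpecialLinearGroup (Fin N) (MvPolynomial (Fin d) F ⧸ I)}
    {A : Matrix.SpecialLinearGroup (Fin N) (MvPolynomial (Fin d) F)} {δ : ℕ}
    (hA : A ∈ sB F d N δ)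
    (hgh : h⁻¹ = Matrix.SpecialLinearGroup.map (Ideal.Quotient.mk I) A * g⁻¹) (s : ℝ) :
    (FilI I m g).lev (s + δ / m) ≤ (FilI I m h).lev s := by
  have hm' : (0 : ℝ) < m := by exact_mod_cast hm
  rcases le_or_gt s 0 with hs | hs
  · rw [(FilI I m h).top s hs]
    exact le_top
  intro v hv
  have hs2 : 0 < s + δ / m := by positivity
  rw [mem_FilI hs2] at hv
  rw [mem_FilI hs]
  have e1 : (h⁻¹).1.mulVec v = ((A.1).map (Ideal.Quotient.mk I)).mulVec ((g⁻¹).1.mulVec v) := by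
    rw [hgh, Matrix.mulVec_mulVec]
    rfl
  rw [e1]
  have e2 : (1 - (s + δ / m)) * m = (1 - s) * m - (δ : ℝ) := by
    field_simp
    ring
  rw [e2] at hv
  rcases le_or_gt 0 ((1 - s) * m - (δ : ℝ)) with h0 | h0
  · have h1 := mulVec_memI hA hv
    have h2 : ⌊(1 - s) * m - (δ : ℝ)⌋₊ + δ = ⌊(1 - s) * (m : ℝ)⌋₊ := by
      rw [← Nat.floor_add_natCast h0, sub_add_cancel]
    rw [h2] at h1
    exact h1
  · rw [Nat.floor_of_nonpos h0.le] at hv
    rw [LvI_zero hv, Matrix.mulVec_zero]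
    exact Submodule.zero_mem _

theorem FilI_up [FiniteDimensional F (MvPolynomial (Fin d) F ⧸ I)] {m : ℕ} (hm : 0 < m)
    {g h : Matrix.SpecialLinearGroup (Fin N) (MvPolynomial (Fin d) F ⧸ I)}
    {A : Matrix.SpecialLinearGroup (Fin N) (MvPolynomial (Fin d) F)} {δ : ℕ} (hA : A ∈ hB F d N δ)
    (hgh : Matrix.SpecialLinearGroup.map (Ideal.Quotient.mk I) A = g⁻¹ * h) :
    Ksq (FilI I m g) (FilI I m h) ≤ N * finrank F (Td F d (m + δ)) * (δ / m) ^ 2 := by
  have hm' : (0 : ℝ) < m := by exact_mod_cast hm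
  have hg1 : g⁻¹ = Matrix.SpecialLinearGroup.map (Ideal.Quotient.mk I) A * h⁻¹ := by
    rw [hgh, mul_assoc, mul_inv_cancel, mul_one]
  have hg2 : h⁻¹ = Matrix.SpecialLinearGroup.map (Ideal.Quotient.mk I) A⁻¹ * g⁻¹ := by
    rw [map_inv, hgh, mul_inv_rev, inv_inv, mul_assoc, mul_inv_cancel, mul_one]
  have h1 := FilI_shift (I := I) hm hA.2 hg2
  have h2 := FilI_shift (I := I) hm hA.1 hg1
  set U : Submodule F (Fin N → MvPolynomial (Fin d) F ⧸ I) := (LvI I N (m + δ)).comap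
    ((Matrix.mulVecLin (g⁻¹).1).restrictScalars F) with hU
  have hfl : ∀ s : ℝ, 0 < s → ⌊(1 - s) * (m : ℝ)⌋₊ ≤ m := by
    intro s hs
    apply Nat.floor_le_of_le
    nlinarith
  have u1 : ∀ s, 0 < s → (FilI I m g).lev s ≤ U := by
    intro s hs v hv
    rw [mem_FilI hs] at hv
    exact LvI_mono ((hfl s hs).trans (Nat.le_add_right _ _)) hv
  have u2 : ∀ s, 0 < s → (FilI I m h).lev s ≤ U := by
    intro s hs v hv
    rw [mem_FilI hs] at hv
    have h3 := mulVec_memI hA.1 (LvI_mono (hfl s hs) hv)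
    show (g⁻¹).1.mulVec v ∈ LvI I N (m + δ)
    have e1 : (g⁻¹).1.mulVec v = ((A.1).map (Ideal.Quotient.mk I)).mulVec
        ((h⁻¹).1.mulVec v) := by
      rw [hg1, Matrix.mulVec_mulVec]
      rfl
    rw [e1]
    exact h3
  have h3 := Ksq_le2 (by positivity : (0 : ℝ) ≤ δ / m) h1 h2 u1 u2
  have h4 : rk U ≤ N * finrank F (Td F d (m + δ)) := by
    have hinj : Function.Injective ((Matrix.mulVecLin (g⁻¹).1).restrictScalars F :
        (Fin N → MvPolynomial (Fin d) F ⧸ I) →ₗ[F] (Fin N → MvPolynomial (Fin d) F ⧸ I)) := by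
      intro v w hvw
      have e5 : (g⁻¹).1.mulVec v = (g⁻¹).1.mulVec w := hvw
      have e6 := congrArg g.1.mulVec e5
      rw [Matrix.mulVec_mulVec, Matrix.mulVec_mulVec] at e6
      have e4 : g.1 * (g⁻¹).1 = 1 := by
        have : (g * g⁻¹).1 = g.1 * (g⁻¹).1 := rfl
        rw [← this, mul_inv_cancel]
        rfl
      rwa [e4, Matrix.one_mulVec, Matrix.one_mulVec] at e6
    have h5 : finrank F U ≤ finrank F (LvI I N (m + δ)) := by
      apply LinearMap.finrank_le_finrank_of_injective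
        (f := ((Matrix.mulVecLin (g⁻¹).1).restrictScalars F).restrict
          (p := U) (q := LvI I N (m + δ)) (fun v hv => hv))
      intro v w hvw
      apply Subtype.ext
      exact hinj (congrArg Subtype.val hvw)
    have h6 := h5.trans (finrank_LvI (I := I) (N := N) (m + δ))
    unfold rk
    exact_mod_cast h6
  exact h3.trans (mul_le_mul_of_nonneg_right h4 (sq_nonneg _))

end Pool.Agent.Helper15.CE
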