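import Mathlib
import Pool.Agent.Helper15.CE.MvFil

/-!
Lower estimate for the distance of truncated degree filtrations.
-/

namespace Pool.Agent.Helper15.CE

open MvPolynomial Module

variable {F : Type*} [Field F] {d N : ℕ} {I : Ideal (MvPolynomial (Fin d) F)}

/-- column map of a matrix -/
noncomputable def colMap (I : Ideal (MvPolynomial (Fin d) F))
    (g : Matrix.SpecialLinearGroup (Fin N) (MvPolynomial (Fin d) F ⧸ I)) (b : Fin N) :
    MvPolynomial (Fin d) F →ₗ[F] (Fin N → MvPolynomial (Fin d) F ⧸ I) :=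
  ((Matrix.mulVecLin g.1).restrictScalars F).comp
    ((LinearMap.single F (fun _ : Fin N => MvPolynomial (Fin d) F ⧸ I) b).comp
      (Ideal.Quotient.mkₐ F I).toLinearMap)

theorem colMap_apply (g : Matrix.SpecialLinearGroup (Fin N) (MvPolynomial (Fin d) F ⧸ I))
    (b : Fin N) (p : MvPolynomial (Fin d) F) :
    colMap I g b p = g.1.mulVec (Pi.single b (Ideal.Quotient.mk I p)) := rfl

theorem inv_mulVec (g : Matrix.SpecialLinearGroup (Fin N) (MvPolynomial (Fin d) F ⧸ I))
    (v : Fin N → MvPolynomial (Fin d) F ⧸ I) : (g⁻¹).1.mulVec (g.1.mulVec v) = v := by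
  rw [Matrix.mulVec_mulVec]
  have e4 : (g⁻¹).1 * g.1 = 1 := by
    have : (g⁻¹ * g).1 = (g⁻¹).1 * g.1 := rfl
    rw [← this, inv_mul_cancel]
    rfl
  rw [e4, Matrix.one_mulVec]

theorem FilI_low [FiniteDimensional F (MvPolynomial (Fin d) F ⧸ I)] {M m C : ℕ} (hC : 0 < C)
    (hm : 2 * C + 3 ≤ m) (hM : 3 * m ≤ M) (ha : ∀ p ∈ Td F d M, p ∈ I → p = 0)
    (hb : ∀ j ≤ m, ∀ z, z ∉ I → ∀ S : Submodule F (MvPolynomial (Fin d) F), S ≤ Td F d j →
      (∀ p ∈ S, z * p ∈ I) → finrank F S ≤ finrank F (Td F d (j - 1)))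
    (hhalf : finrank F (Td F d m) ≤ 2 ^ d * finrank F (Td F d (m - C - 1)))
    {g h : Matrix.SpecialLinearGroup (Fin N) (MvPolynomial (Fin d) F ⧸ I)}
    (hK : (2 : ℝ) ^ d * (m ^ 2 * Ksq (FilI I m g) (FilI I m h))
      < 4 * C * finrank F (Td F d m)) (a b : Fin N) :
    ∃ q ∈ Td F d (C + 1), (h⁻¹ * g).1 a b = Ideal.Quotient.mk I q := by
  have hm0 : 0 < m := by omega
  have hm' : (0 : ℝ) < m := by exact_mod_cast hm0
  have hC' : (0 : ℝ) < C := by exact_mod_cast hC
  have hCm : (2 * C + 3 : ℝ) ≤ m := by exact_mod_cast hm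
  set Φ := FilI I m g with hΦ
  set Ψ := FilI I m h with hΨ
  set c : ℝ := C / m with hc
  have hc0 : 0 < c := by positivity
  have hη : (0 : ℝ) < 1 / m := by positivity
  set t : ℝ → ℝ := fun s => (finrank F (Td F d ⌊(1 - s) * (m : ℝ)⌋₊) : ℝ) with ht
  have hcη : c + 1 / m ≤ 1 := by
    rw [hc, ← add_div, div_le_one hm']
    linarith
  have hex : ∃ s, c < s ∧ s < 1 ∧
      rk (Φ.lev s) - rk (Φ.lev s ⊓ Ψ.lev (s - c)) < t s - t (s + 1 / m) := by
    by_contra hcon
    push Not at hcon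
    have h1 := deficit (Φ := Φ) (Ψ := Ψ) (τ := (finrank F (Td F d (m - C - 1)) : ℝ)) hc0 hη hcη
      (t := t) (by
        intro x y hxy
        have : ⌊(1 - y) * (m : ℝ)⌋₊ ≤ ⌊(1 - x) * (m : ℝ)⌋₊ := by
          apply Nat.floor_le_floor
          apply mul_le_mul_of_nonneg_right _ hm'.le
          linarith
        show (finrank F (Td F d ⌊(1 - y) * (m : ℝ)⌋₊) : ℝ)
          ≤ (finrank F (Td F d ⌊(1 - x) * (m : ℝ)⌋₊) : ℝ)
        exact_mod_cast Submodule.finrank_mono (Td_mono (F := F) (d := d) this))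
      (by
        intro s hs
        have h2 : ⌊(1 - s) * (m : ℝ)⌋₊ = 0 := by
          apply Nat.floor_of_nonpos
          nlinarith
        have h3 : Td F d 0 = ⊥ := by
          rw [eq_bot_iff]
          intro p hp
          rw [mem_Td_zero hp]
          exact Submodule.zero_mem _
        show ((finrank F (Td F d ⌊(1 - s) * (m : ℝ)⌋₊) : ℕ) : ℝ) = 0
        rw [h2, h3, finrank_bot, Nat.cast_zero])
      (by
        intro s _ hs2
        have h2 : m - C - 1 ≤ ⌊(1 - s) * (m : ℝ)⌋₊ := by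
          apply Nat.le_floor
          have h3 : ((m - C - 1 : ℕ) : ℝ) = m - C - 1 := by
            rw [Nat.cast_sub (by omega), Nat.cast_sub (by omega)]
            norm_num
          rw [h3]
          have h4 : s * m < C + 1 := by
            have h5 := mul_lt_mul_of_pos_right hs2 hm'
            rw [hc] at h5
            have h6 : ((C : ℝ) / m + 1 / m) * m = C + 1 := by field_simp
            linarith
          linarith
        show (finrank F (Td F d (m - C - 1)) : ℝ)
          ≤ (finrank F (Td F d ⌊(1 - s) * (m : ℝ)⌋₊) : ℝ)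
        exact_mod_cast Submodule.finrank_mono (Td_mono (F := F) (d := d) h2))
      hcon
    have h2 : 4 * C * (finrank F (Td F d (m - C - 1)) : ℝ) ≤ m ^ 2 * Ksq Φ Ψ := by
      rw [hc, le_div_iff₀ (by positivity)] at h1
      have h3 := mul_le_mul_of_nonneg_right h1 (sq_nonneg (m : ℝ))
      have h4 : 1 / (m : ℝ) * (finrank F (Td F d (m - C - 1)) : ℝ) * (4 * (C / m)) * m ^ 2
          = 4 * C * (finrank F (Td F d (m - C - 1)) : ℝ) := by field_simp
      rw [h4] at h3
      linarith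
    have h3 : (finrank F (Td F d m) : ℝ) ≤ 2 ^ d * finrank F (Td F d (m - C - 1)) := by
      exact_mod_cast hhalf
    have h4 := mul_le_mul_of_nonneg_left h2 (by positivity : (0 : ℝ) ≤ 2 ^ d)
    have h5 := mul_le_mul_of_nonneg_left h3 (by positivity : (0 : ℝ) ≤ 4 * C)
    nlinarith
  obtain ⟨s, hs1, hs2, hs3⟩ := hex
  have hs0 : 0 < s := hc0.trans hs1
  set j := ⌊(1 - s) * (m : ℝ)⌋₊ with hj
  have hjm : j ≤ m := by
    apply Nat.floor_le_of_le
    nlinarith
  have hpos : 0 ≤ (1 - s) * (m : ℝ) := mul_nonneg (by linarith) hm'.le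
  have e1 : ⌊(1 - (s + 1 / m)) * (m : ℝ)⌋₊ = j - 1 := by
    have : (1 - (s + 1 / m)) * (m : ℝ) = (1 - s) * m - 1 := by
      field_simp
      ring
    rw [this, Nat.floor_sub_one]
  have e2 : ⌊(1 - (s - c)) * (m : ℝ)⌋₊ = j + C := by
    have : (1 - (s - c)) * (m : ℝ) = (1 - s) * m + C := by
      rw [hc]
      field_simp
      ring
    rw [this, Nat.floor_add_natCast hpos]
  have hmap : (Td F d j).map (colMap I g b) ≤ Φ.lev s := by
    rintro _ ⟨p, hp, rfl⟩
    rw [mem_FilI hs0, colMap_apply, inv_mulVec, mem_LvI]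
    intro i
    by_cases hi : i = b
    · subst hi
      rw [Pi.single_eq_same]
      exact mem_W.2 ⟨p, hp, rfl⟩
    · rw [Pi.single_eq_of_ne hi]
      exact Submodule.zero_mem _
  have hcod := codim_comap (colMap I g b) (Td F d j) (Q := Ψ.lev (s - c)) hmap
  have hts : t s = (finrank F (Td F d j) : ℝ) := rfl
  have hts2 : t (s + 1 / m) = (finrank F (Td F d (j - 1)) : ℝ) := by
    show ((finrank F (Td F d ⌊(1 - (s + 1 / m)) * (m : ℝ)⌋₊) : ℕ) : ℝ) = _
    rw [e1]
  rw [hts, hts2] at hs3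
  have hdim : finrank F (Td F d (j - 1))
      < finrank F (Td F d j ⊓ (Ψ.lev (s - c)).comap (colMap I g b) :
        Submodule F (MvPolynomial (Fin d) F)) := by
    have : (finrank F (Td F d (j - 1)) : ℝ)
      < finrank F (Td F d j ⊓ (Ψ.lev (s - c)).comap (colMap I g b) :
        Submodule F (MvPolynomial (Fin d) F)) := by linarith
    exact_mod_cast this
  apply rigid (M := M) (j := j) (C := C) (by omega) ha (hb j hjm) inf_le_left hdim
  rintro p ⟨_, hp2⟩
  have hp3 : colMap I g b p ∈ Ψ.lev (s - c) := hp2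
  rw [mem_FilI (by linarith), e2, colMap_apply, Matrix.mulVec_mulVec, mem_LvI] at hp3
  obtain ⟨q, hq1, hq2⟩ := mem_W.1 (hp3 a)
  refine ⟨q, hq1, ?_⟩
  rw [hq2]
  have e5 : ((h⁻¹).1 * g.1).mulVec (Pi.single b (Ideal.Quotient.mk I p)) a
      = (h⁻¹ * g).1 a b * Ideal.Quotient.mk I p := by
    rw [Matrix.mulVec_single]
    simp [Matrix.col_apply, mul_comm]
  rw [e5]

end Pool.Agent.Helper15.CE
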