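import Mathlib
import Pool.Agent.Helper15.CE.Stew

/-!
A nonnegative kernel which satisfies Stewart's inequality is the square of a CAT(0) metric.
-/

namespace Pool.Agent.Helper15.CE

open Real

/-- kernels with Stewart's inequality -/
structure SKer {P : Type*} (K : P → P → ℝ) : Prop where
  nonneg : ∀ x y, 0 ≤ K x y
  self : ∀ x, K x x = 0
  symm : ∀ x y, K x y = K y x
  stew : ∀ (y z : P) (t : ℝ), 0 ≤ t → t ≤ 1 → ∃ w, ∀ x,
    K x w ≤ (1 - t) * K x y + t * K x z - t * (1 - t) * K y z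

theorem tri_num {a b c : ℝ} (ha : 0 ≤ a) (hb : 0 ≤ b)
    (h : ∀ t, 0 ≤ t → t ≤ 1 → 0 ≤ (1 - t) * a ^ 2 + t * b ^ 2 - t * (1 - t) * c ^ 2) :
    c ≤ a + b := by
  by_contra hcon
  push Not at hcon
  have hc : 0 < c := by linarith
  set t : ℝ := (c ^ 2 + a ^ 2 - b ^ 2) / (2 * c ^ 2) with ht
  have hc2 : 0 < 2 * c ^ 2 := by positivity
  have hte : t * (2 * c ^ 2) = c ^ 2 + a ^ 2 - b ^ 2 := by rw [ht]; field_simp
  have h0 : 0 ≤ t := by
    rw [ht]
    apply div_nonneg _ hc2.le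
    nlinarith
  have h1 : t ≤ 1 := by
    rw [ht, div_le_one hc2]
    nlinarith
  have h2 := h t h0 h1
  have e : 4 * c ^ 2 * ((1 - t) * a ^ 2 + t * b ^ 2 - t * (1 - t) * c ^ 2)
      = (t * (2 * c ^ 2)) ^ 2 - 2 * (t * (2 * c ^ 2)) * (c ^ 2 + a ^ 2 - b ^ 2)
        + 4 * a ^ 2 * c ^ 2 := by ring
  rw [hte] at e
  have h3 : 0 ≤ 4 * c ^ 2 * ((1 - t) * a ^ 2 + t * b ^ 2 - t * (1 - t) * c ^ 2) :=
    mul_nonneg (by positivity) h2
  rw [e] at h3
  have e2 : (c ^ 2 + a ^ 2 - b ^ 2) ^ 2 - 2 * (c ^ 2 + a ^ 2 - b ^ 2) * (c ^ 2 + a ^ 2 - b ^ 2)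
      + 4 * a ^ 2 * c ^ 2 = -(((c - a) - b) * ((c - a) + b) * (((c + a) - b) * ((c + a) + b))) := by
    ring
  rw [e2] at h3
  have p1 : 0 < (c - a) - b := by linarith
  have p2 : 0 < (c - a) + b := by linarith
  have p3 : 0 < (c + a) - b := by linarith
  have p4 : 0 < (c + a) + b := by linarith
  have := mul_pos (mul_pos p1 p2) (mul_pos p3 p4)
  linarith

/-- points of the space of a kernel -/
structure KPt {P : Type*} {K : P → P → ℝ} (h : SKer K) where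
  /-- the underlying point -/
  pt : P

variable {P : Type*} {K : P → P → ℝ} {h : SKer K}

noncomputable instance : PseudoMetricSpace (KPt h) where
  dist x y := √(K x.pt y.pt)
  dist_self x := by
    show √(K x.pt x.pt) = 0
    rw [h.self, sqrt_zero]
  dist_comm x y := by
    show √(K x.pt y.pt) = √(K y.pt x.pt)
    rw [h.symm]
  dist_triangle x y z := by
    show √(K x.pt z.pt) ≤ √(K x.pt y.pt) + √(K y.pt z.pt)
    apply tri_num (sqrt_nonneg _) (sqrt_nonneg _)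
    intro t h0 h1
    obtain ⟨w, hw⟩ := h.stew x.pt z.pt t h0 h1
    have h2 := (h.nonneg y.pt w).trans (hw y.pt)
    rw [sq_sqrt (h.nonneg _ _), sq_sqrt (h.nonneg _ _), sq_sqrt (h.nonneg _ _),
      h.symm x.pt y.pt]
    exact h2

theorem KPt.dist_sq (x y : KPt h) : dist x y ^ 2 = K x.pt y.pt := sq_sqrt (h.nonneg _ _)

theorem stew_KPt (h : SKer K) : Stew (KPt h) := by
  intro y z t h0 h1
  obtain ⟨w, hw⟩ := h.stew y.pt z.pt t h0 h1
  refine ⟨⟨w⟩, fun x => ?_⟩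
  rw [KPt.dist_sq, KPt.dist_sq, KPt.dist_sq, KPt.dist_sq]
  exact hw x.pt

end Pool.Agent.Helper15.CE
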