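import Mathlib
import Pool.Agent.Helper15.CE.Glue

/-!
Coarse disjoint unions of spaces which coarsely embed into CAT(0) spaces with common control
functions.
-/

namespace Pool.Agent.Helper15.CE

open Filter Pool.Agent.Helper17.TC

universe u v

theorem far_index {X : ℕ → Type u} [MetricSpace (Σ n, X n)]
    (h2 : ∀ r : ℝ, {p : ℕ × ℕ | p.1 ≠ p.2 ∧ ∃ x y,
      dist (⟨p.1, x⟩ : Σ n, X n) ⟨p.2, y⟩ ≤ r}.Finite) (r : ℝ) :
    ∃ K : ℕ, ∀ x y : (Σ n, X n), dist x y ≤ r → x.1 ≠ y.1 → x.1 ≤ K ∧ y.1 ≤ K := by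
  obtain ⟨K1, hK1⟩ := ((h2 r).image (fun p : ℕ × ℕ => max p.1 p.2)).bddAbove
  refine ⟨K1, fun x y hxy hne => ?_⟩
  have h3 := hK1 ⟨(x.1, y.1), ⟨hne, x.2, y.2, hxy⟩, rfl⟩
  simpa using h3

theorem union_emb {X : ℕ → Type u} [∀ n, Nonempty (X n)] [MetricSpace (Σ n, X n)]
    (hb : ∀ K : ℕ, ∃ D : ℝ, ∀ x y : (Σ n, X n), x.1 ≤ K → y.1 ≤ K → dist x y ≤ D)
    (h2 : ∀ r : ℝ, {p : ℕ × ℕ | p.1 ≠ p.2 ∧ ∃ x y,
      dist (⟨p.1, x⟩ : Σ n, X n) ⟨p.2, y⟩ ≤ r}.Finite)
    (Y : ℕ → Type v) [∀ n, MetricSpace (Y n)] (hY : ∀ n, IsCAT0 (Y n)) (f : ∀ n, X n → Y n)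
    (rm rp : ℝ → ℝ) (m1 : MonotoneOn rm (Set.Ici 0)) (m2 : MonotoneOn rp (Set.Ici 0))
    (m3 : Tendsto rm atTop atTop)
    (hf : ∀ n (x y : X n), rm (dist (⟨n, x⟩ : Σ n, X n) ⟨n, y⟩) ≤ dist (f n x) (f n y) ∧
      dist (f n x) (f n y) ≤ rp (dist (⟨n, x⟩ : Σ n, X n) ⟨n, y⟩)) :
    GlueEmb.{u, v, 0} (Σ n, X n) := by
  classical
  intro R ε hε
  obtain ⟨K, hK⟩ := far_index h2 R
  obtain ⟨D0, hD0⟩ := hb K
  refine ⟨ℕ, fun i x => if max x.1 K = i then 1 else 0, ?_, ?_, ?_,
    fun t => if t ≤ D0 then min 0 (rm t) else rm t, fun t => max 0 (rp t), ?_, ?_, ?_, ?_⟩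
  · intro i x
    dsimp only
    split_ifs <;> norm_num
  · intro x
    have h := hasSum_ite_eq (max x.1 K) (1 : ℝ)
    simpa [eq_comm] using h
  · intro x y hxy
    have e : max x.1 K = max y.1 K := by
      by_cases hne : x.1 = y.1
      · rw [hne]
      · obtain ⟨a, b⟩ := hK x y hxy hne
        rw [max_eq_right a, max_eq_right b]
    simp only [e, sub_self, abs_zero, tsum_zero]
    exact hε.le
  · intro s hs t ht hst
    dsimp only
    have h := m1 hs ht hst
    by_cases h1 : s ≤ D0
    · rw [if_pos h1]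
      by_cases h3 : t ≤ D0
      · rw [if_pos h3]
        exact min_le_min_left 0 h
      · rw [if_neg h3]
        exact (min_le_right _ _).trans h
    · rw [if_neg h1, if_neg (fun h3 => h1 (hst.trans h3))]
      exact h
  · intro s hs t ht hst
    exact max_le_max_left 0 (m2 hs ht hst)
  · apply m3.congr'
    filter_upwards [eventually_gt_atTop D0] with t ht
    rw [if_neg (not_le.2 ht)]
  · intro i
    by_cases hi : K < i
    · let p : X i := Classical.arbitrary _
      refine ⟨Y i, inferInstance, hY i,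
        fun x => if h : x.1 = i then f i (h ▸ x.2) else f i p, ?_⟩
      intro x y hx hy
      have hx1 : x.1 = i := by
        by_contra hne
        apply hx
        dsimp only
        rw [if_neg]
        intro h3
        rcases max_choice x.1 K with h4 | h4 <;> omega
      have hy1 : y.1 = i := by
        by_contra hne
        apply hy
        dsimp only
        rw [if_neg]
        intro h3
        rcases max_choice y.1 K with h4 | h4 <;> omega
      obtain ⟨n, x⟩ := x
      obtain ⟨m, y⟩ := y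
      dsimp only at hx1 hy1
      subst hx1
      subst hy1
      simp only [dif_pos]
      obtain ⟨h3, h4⟩ := hf m x y
      refine ⟨le_trans ?_ h3, h4.trans (le_max_right _ _)⟩
      split_ifs
      · exact min_le_right _ _
      · exact le_rfl
    · refine ⟨PUnit.{v + 1}, inferInstance, isCAT0_punit, fun _ => PUnit.unit, ?_⟩
      intro x y hx hy
      have hx1 : x.1 ≤ K := by
        by_contra hne
        apply hx
        dsimp only
        rw [if_neg]
        intro h3
        rcases max_choice x.1 K with h4 | h4 <;> omega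
      have hy1 : y.1 ≤ K := by
        by_contra hne
        apply hy
        dsimp only
        rw [if_neg]
        intro h3
        rcases max_choice y.1 K with h4 | h4 <;> omega
      rw [dist_self]
      refine ⟨?_, le_max_left _ _⟩
      dsimp only
      rw [if_pos (hD0 x y hx1 hy1)]
      exact min_le_left _ _

end Pool.Agent.Helper15.CE
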