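import Mathlib
import Pool.Agent.Helper7.CE.MvPart
import Pool.Agent.Helper15.CE.MvLow
import Pool.Agent.Helper15.CE.SKer
import Pool.Agent.Helper15.CE.Union
import Pool.Agent.Helper15.CE.Ctl

/-!
Box spaces of closed subgroups of `SL_N(F[x_1, ..., x_d])` along deep ideals.
-/

namespace Pool.Agent.Helper15.CE

open MvPolynomial Module Filter Real Pool.Agent.Helper17.TC

universe u w

variable {F : Type u} [Field F] {d N : ℕ}

theorem card_one (k : ℕ) : Nat.card {s : Fin 1 →₀ ℕ | s.degree < k} = k := by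
  have hdeg : ∀ s : Fin 1 →₀ ℕ, s.degree = s 0 := by
    intro s
    rw [Finsupp.degree_eq_sum]
    simp
  have e : {s : Fin 1 →₀ ℕ | s.degree < k} ≃ Fin k :=
    { toFun := fun s => ⟨s.1 0, by rw [← hdeg]; exact s.2⟩
      invFun := fun i => ⟨Finsupp.single 0 i.1, by
        show (Finsupp.single (0 : Fin 1) i.1).degree < k
        rw [hdeg, Finsupp.single_eq_same]
        exact i.2⟩
      left_inv := by
        rintro ⟨s, hs⟩
        apply Subtype.ext
        apply Finsupp.ext
        intro i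
        have h0 : i = 0 := Subsingleton.elim _ _
        subst h0
        simp
      right_inv := by
        rintro ⟨i, hi⟩
        simp }
  rw [Nat.card_congr e]
  simp

theorem ann_bound {I : Ideal (MvPolynomial (Fin d) F)} {M : ℕ}
    (ha : ∀ p ∈ Td F d M, p ∈ I → p = 0) (h : d = 1 ∨ I.IsPrime) (j : ℕ) (hj : j ≤ M)
    (z : MvPolynomial (Fin d) F) (hz : z ∉ I) (S : Submodule F (MvPolynomial (Fin d) F))
    (hS : S ≤ Td F d j) (hzS : ∀ p ∈ S, z * p ∈ I) :
    finrank F S ≤ finrank F (Td F d (j - 1)) := by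
  rcases h with h | h
  · subst h
    rcases Nat.eq_zero_or_pos j with h0 | h0
    · subst h0
      exact Submodule.finrank_mono hS
    · have h1 : (1 : MvPolynomial (Fin 1) F) ∈ Td F 1 j := by
        obtain ⟨i, rfl⟩ : ∃ i, j = i + 1 := ⟨j - 1, by omega⟩
        rw [mem_Td_succ, totalDegree_one]
        exact Nat.zero_le _
      have h2 : S < Td F 1 j := lt_of_le_of_ne hS (by
        intro heq
        apply hz
        have := hzS 1 (heq ▸ h1)
        rwa [mul_one] at this)
      have h3 := Submodule.finrank_lt_finrank_of_lt h2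
      have h4 : ∀ k, finrank F (Td F 1 k) = k := fun k => (Helper7.CE.finrank_T F 1 k).trans
        (card_one k)
      rw [h4] at h3 ⊢
      omega
  · have h1 : S = ⊥ := by
      rw [eq_bot_iff]
      intro p hp
      have h2 := (h.mem_or_mem (hzS p hp)).resolve_left hz
      exact ha p (Td_mono hj (hS hp)) h2
    rw [h1, finrank_bot]
    exact Nat.zero_le _

/-- the kernel of the distance at scale `κ` -/
noncomputable def rK {V : Type*} [AddCommGroup V] [Module F V] [FiniteDimensional F V] (κ : ℝ)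
    (Φ Ψ : Filt F V) : ℝ := κ * Ksq Φ Ψ

theorem sker_rK {V : Type*} [AddCommGroup V] [Module F V] [FiniteDimensional F V] {κ : ℝ}
    (hκ : 0 ≤ κ) : SKer (rK (F := F) (V := V) κ) where
  nonneg x y := mul_nonneg hκ (Ksq_nonneg x y)
  self x := by
    unfold rK
    rw [Ksq_self, mul_zero]
  symm x y := by
    unfold rK
    rw [Ksq_symm]
  stew y z t h0 h1 := by
    refine ⟨mid t y z, fun x => ?_⟩
    have h := Ksq_stew y z h0 h1 x
    have h2 := mul_le_mul_of_nonneg_left h hκ
    unfold rK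
    nlinarith

/-- the reduction map -/
noncomputable abbrev redI (N : ℕ) (I : Ideal (MvPolynomial (Fin d) F)) :
    Matrix.SpecialLinearGroup (Fin N) (MvPolynomial (Fin d) F) →*
    Matrix.SpecialLinearGroup (Fin N) (MvPolynomial (Fin d) F ⧸ I) :=
  Matrix.SpecialLinearGroup.map (Ideal.Quotient.mk I)

theorem hB_mono {δ ε : ℕ} (h : δ ≤ ε)
    {A : Matrix.SpecialLinearGroup (Fin N) (MvPolynomial (Fin d) F)}
    (hA : A ∈ hB F d N δ) : A ∈ hB F d N ε :=
  ⟨fun i j => Td_mono (by omega) (hA.1 i j), fun i j => Td_mono (by omega) (hA.2 i j)⟩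

theorem exists_hB1 (A : Matrix.SpecialLinearGroup (Fin N) (MvPolynomial (Fin d) F)) :
    ∃ δ : ℕ, A ∈ hB F d N δ := by
  classical
  have h1 : ∀ i j, (A.1 i j).totalDegree + ((A⁻¹).1 i j).totalDegree
      ≤ ∑ i, ∑ j, ((A.1 i j).totalDegree + ((A⁻¹).1 i j).totalDegree) := by
    intro i j
    refine le_trans ?_ (Finset.single_le_sum (f := fun i
      => ∑ j, ((A.1 i j).totalDegree + ((A⁻¹).1 i j).totalDegree))
      (fun _ _ => Nat.zero_le _) (Finset.mem_univ i))
    exact Finset.single_le_sum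
      (f := fun j => ((A.1 i j).totalDegree + ((A⁻¹).1 i j).totalDegree))
      (fun _ _ => Nat.zero_le _) (Finset.mem_univ j)
  refine ⟨∑ i, ∑ j, ((A.1 i j).totalDegree + ((A⁻¹).1 i j).totalDegree), ?_, ?_⟩
  · intro i j
    have := h1 i j
    rw [mem_Td_succ]
    omega
  · intro i j
    have := h1 i j
    rw [mem_Td_succ]
    omega

theorem exists_hB {G : Type*} (ρ : G → Matrix.SpecialLinearGroup (Fin N) (MvPolynomial (Fin d) F))
    (S : Finset G) : ∃ δ : ℕ, ∀ s ∈ S, ρ s ∈ hB F d N δ := by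
  classical
  choose e he using fun s : G => exists_hB1 (ρ s)
  refine ⟨∑ s ∈ S, e s, fun s hs => hB_mono ?_ (he s)⟩
  exact Finset.single_le_sum (f := e) (fun _ _ => Nat.zero_le _) hs

theorem lift_low {I : Ideal (MvPolynomial (Fin d) F)}
    [FiniteDimensional F (MvPolynomial (Fin d) F ⧸ I)] {m C : ℕ} (hC : 0 < C)
    (hm : 2 * C + 3 ≤ m) (ha : ∀ p ∈ Td F d (3 * m), p ∈ I → p = 0) (hp : d = 1 ∨ I.IsPrime)
    (hNC : N * C < 3 * m)
    {g h : Matrix.SpecialLinearGroup (Fin N) (MvPolynomial (Fin d) F ⧸ I)}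
    (hK : (2 : ℝ) ^ d * (m ^ 2 * Ksq (FilI I m g) (FilI I m h))
      < 4 * C * finrank F (Td F d m)) :
    ∃ A ∈ sB F d N C, redI N I A = h⁻¹ * g := by
  have hT2 : finrank F (Td F d m) ≤ 2 ^ d * finrank F (Td F d (m - C - 1)) :=
    Helper7.CE.T2 F d (by omega)
  have h1 := FilI_low (N := N) (M := 3 * m) hC hm le_rfl ha
    (fun j hj => ann_bound ha hp j (by omega)) hT2 (g := g) (h := h) hK
  choose L hL1 hL2 using h1
  have hmap : (Matrix.of L).map (Ideal.Quotient.mk I) = (h⁻¹ * g).1 := by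
    ext i j
    exact (hL2 i j).symm
  have hdet : (Matrix.of L).det = 1 := Helper7.CE.T3 (M := 3 * m) (C := C) ha (Matrix.of L)
    (fun i j => hL1 i j) hNC (by rw [hmap]; exact (h⁻¹ * g).2)
  refine ⟨⟨Matrix.of L, hdet⟩, fun i j => hL1 i j, ?_⟩
  apply Subtype.ext
  exact hmap

theorem mv_congr_coarse [Finite F] {G : Type w} [Group G] (S : Finset G)
    (hS : Subgroup.closure (S : Set G) = ⊤)
    (ρ : G →* Matrix.SpecialLinearGroup (Fin N) (MvPolynomial (Fin d) F))
    (hρ : Function.Injective ρ) (I : ℕ → Ideal (MvPolynomial (Fin d) F))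
    (hfin : ∀ n, Finite (MvPolynomial (Fin d) F ⧸ I n))
    (hdeep : ∀ m : ℕ, ∀ᶠ n in atTop, ∀ p ∈ I n, p.totalDegree ≤ m → p = 0)
    (hprime : d = 1 ∨ ∀ n, (I n).IsPrime)
    (hclosed : ∀ A : Matrix.SpecialLinearGroup (Fin N) (MvPolynomial (Fin d) F),
      A ∉ Set.range ρ → ∀ᶠ n in atTop, ∀ g : G, redI N (I n) (ρ g) ≠ redI N (I n) A)
    [MetricSpace (Σ n, G ⧸ ((redI N (I n)).comp ρ).ker)]
    (h1 : ∀ n (x y : G ⧸ ((redI N (I n)).comp ρ).ker),
      dist (⟨n, x⟩ : Σ n, G ⧸ ((redI N (I n)).comp ρ).ker) ⟨n, y⟩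
        = wordLen ((QuotientGroup.mk : G → G ⧸ ((redI N (I n)).comp ρ).ker) '' S) (x⁻¹ * y))
    (h2 : ∀ r : ℝ, {p : ℕ × ℕ | p.1 ≠ p.2 ∧ ∃ x y,
      dist (⟨p.1, x⟩ : Σ n, G ⧸ ((redI N (I n)).comp ρ).ker) ⟨p.2, y⟩ ≤ r}.Finite) :
    CoarseCAT0.{w, u} (Σ n, G ⧸ ((redI N (I n)).comp ρ).ker) := by
  classical
  have hprime' : ∀ n, d = 1 ∨ (I n).IsPrime := by
    intro n
    rcases hprime with h | h
    · exact Or.inl h
    · exact Or.inr (h n)
  have hfd : ∀ n, FiniteDimensional F (MvPolynomial (Fin d) F ⧸ I n) := fun n => by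
    have := hfin n
    exact Module.Finite.of_finite
  have hfinG : ∀ n, Finite (G ⧸ ((redI N (I n)).comp ρ).ker) := by
    intro n
    have := hfin n
    have h0 : Finite (Matrix.SpecialLinearGroup (Fin N) (MvPolynomial (Fin d) F ⧸ I n)) :=
      inferInstance
    have h3 : ((redI N (I n)).comp ρ).ker.FiniteIndex := inferInstance
    infer_instance
  obtain ⟨δ, hδ⟩ := exists_hB ρ S
  -- the levels
  let good : ℕ → ℕ → Prop := fun n m => ∀ p ∈ Td F d (3 * m), p ∈ I n → p = 0
  let lv : ℕ → ℕ := fun n => Nat.findGreatest (good n) n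
  have hgood : ∀ n, good n (lv n) := by
    intro n
    apply Nat.findGreatest_spec (m := 0) (Nat.zero_le n)
    intro p hp _
    exact mem_Td_zero hp
  have hlv : Tendsto lv atTop atTop := by
    apply tendsto_atTop.2
    intro b
    filter_upwards [hdeep (3 * b), eventually_ge_atTop b] with n hn hbn
    apply Nat.le_findGreatest hbn
    intro p hp hpI
    exact hn p hpI (mem_Td_succ.1 (Td_mono (Nat.le_succ _) hp))
  -- bounded parts
  have hb : ∀ K : ℕ, ∃ D : ℝ, ∀ x y : (Σ n, G ⧸ ((redI N (I n)).comp ρ).ker),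
      x.1 ≤ K → y.1 ≤ K → dist x y ≤ D := by
    intro K
    have hfinite : {x : Σ n, G ⧸ ((redI N (I n)).comp ρ).ker | x.1 ≤ K}.Finite := by
      have : {x : Σ n, G ⧸ ((redI N (I n)).comp ρ).ker | x.1 ≤ K}
          = ⋃ n ∈ Set.Iic K, Set.range (fun q : G ⧸ ((redI N (I n)).comp ρ).ker =>
              (⟨n, q⟩ : Σ n, G ⧸ ((redI N (I n)).comp ρ).ker)) := by
        ext ⟨n, q⟩
        simp only [Set.mem_setOf_eq, Set.mem_iUnion, Set.mem_Iic, Set.mem_range]
        constructor
        · intro h3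
          exact ⟨n, h3, q, rfl⟩
        · rintro ⟨m, hm, q', hq⟩
          have : m = n := congrArg Sigma.fst hq
          omega
      rw [this]
      apply (Set.finite_Iic K).biUnion
      intro n _
      have := hfinG n
      exact Set.finite_range _
    obtain ⟨D0, hD0⟩ := Metric.isBounded_iff.1 hfinite.isBounded
    exact ⟨D0, fun x y hx hy => hD0 hx hy⟩
  -- the targets
  let κ : ℕ → ℝ := fun n => (lv n : ℝ) ^ 2 / finrank F (Td F d (lv n))
  have hκ : ∀ n, 0 ≤ κ n := fun n => by positivity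
  let Y : ℕ → Type u := fun n => SeparationQuotient
    (KPt (sker_rK (F := F) (V := Fin N → MvPolynomial (Fin d) F ⧸ I n) (hκ n)))
  have hY : ∀ n, IsCAT0 (Y n) := fun n => (stew_KPt _).sep.isCAT0
  let φ : ∀ n, G ⧸ ((redI N (I n)).comp ρ).ker → Y n := fun n q =>
    SeparationQuotient.mk ⟨FilI (I n) (lv n) (redI N (I n) (ρ (Quotient.out q)))⟩
  have hd : ∀ n x y, dist (φ n x) (φ n y) ^ 2 = κ n
      * Ksq (FilI (I n) (lv n) (redI N (I n) (ρ (Quotient.out x))))
        (FilI (I n) (lv n) (redI N (I n) (ρ (Quotient.out y)))) := by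
    intro n x y
    show dist (SeparationQuotient.mk _) (SeparationQuotient.mk _) ^ 2 = _
    rw [SeparationQuotient.dist_mk, KPt.dist_sq]
    rfl
  have hred : ∀ n (γ : G) (x y : G ⧸ ((redI N (I n)).comp ρ).ker),
      ((γ : G ⧸ ((redI N (I n)).comp ρ).ker) = x⁻¹ * y ↔
        redI N (I n) (ρ γ) = (redI N (I n) (ρ (Quotient.out x)))⁻¹
          * redI N (I n) (ρ (Quotient.out y))) := by
    intro n γ x y
    have ex : ((Quotient.out x : G) : G ⧸ ((redI N (I n)).comp ρ).ker) = x :=
      QuotientGroup.out_eq' x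
    have ey : ((Quotient.out y : G) : G ⧸ ((redI N (I n)).comp ρ).ker) = y :=
      QuotientGroup.out_eq' y
    set a := Quotient.out x
    set b := Quotient.out y
    rw [← ex, ← ey, ← QuotientGroup.mk_inv, ← QuotientGroup.mk_mul, QuotientGroup.eq,
      MonoidHom.mem_ker, map_mul, map_inv, map_mul, map_inv, inv_mul_eq_one]
    rfl
  have hpos : ∀ n, 0 < lv n → 0 < (finrank F (Td F d (lv n)) : ℝ) := by
    intro n hn
    have h3 : Td F d (lv n) ≠ ⊥ := by
      intro h0
      have h4 : (1 : MvPolynomial (Fin d) F) ∈ Td F d (lv n) :=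
        Helper7.CE.one_mem_T F d hn
      rw [h0, Submodule.mem_bot] at h4
      exact one_ne_zero h4
    have h5 := Submodule.one_le_finrank_iff.2 h3
    exact_mod_cast h5
  -- lower control
  obtain ⟨rm, m1, m2, m3⟩ := exists_lower
    (A := Σ n, (G ⧸ ((redI N (I n)).comp ρ).ker) × (G ⧸ ((redI N (I n)).comp ρ).ker))
    (fun p => dist (⟨p.1, p.2.1⟩ : Σ n, G ⧸ ((redI N (I n)).comp ρ).ker) ⟨p.1, p.2.2⟩)
    (fun p => dist (φ p.1 p.2.1) (φ p.1 p.2.2)) (fun p => dist_nonneg) (by
      intro K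
      set C := 2 ^ d * K ^ 2 + 1 with hC
      obtain ⟨M0, hM0⟩ := (tendsto_atTop.1 hlv (2 * C + 3 + N * C)).exists_forall_of_atTop
      have hsfin : (sB F d N C).Finite := Helper7.CE.T4 C
      have hev : ∀ᶠ n in atTop, ∀ A ∈ sB F d N C, A ∉ Set.range ρ →
          ∀ g : G, redI N (I n) (ρ g) ≠ redI N (I n) A := by
        apply (hsfin.eventually_all (l := (atTop : Filter ℕ))).2
        intro A _
        by_cases hA : A ∈ Set.range ρ
        · exact Eventually.of_forall fun n h => absurd hA h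
        · filter_upwards [hclosed A hA] with n hn _
          exact hn
      obtain ⟨M1, hM1⟩ := eventually_atTop.1 hev
      set M := max M0 M1 with hM
      obtain ⟨D0, hD0⟩ := hb M
      obtain ⟨L, hL⟩ := ((hsfin.preimage
        (hρ.injOn (s := _))).image (wordLen (S : Set G))).bddAbove
      refine ⟨max (D0 + 1) (L + 1), ?_⟩
      rintro ⟨n, x, y⟩ hxy
      dsimp only at hxy ⊢
      have hx1 := (le_max_left _ _).trans hxy
      have hx2 := (le_max_right _ _).trans hxy
      by_contra hcon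
      push Not at hcon
      have hn : M ≤ n := by
        by_contra hlt
        have := hD0 ⟨n, x⟩ ⟨n, y⟩ (by dsimp only; omega) (by dsimp only; omega)
        linarith
      have hn2 := hM0 n ((le_max_left _ _).trans hn)
      have hn3 := hM1 n ((le_max_right _ _).trans hn)
      have hp := hpos n (by omega)
      have hK : (2 : ℝ) ^ d * ((lv n) ^ 2 *
          Ksq (FilI (I n) (lv n) (redI N (I n) (ρ (Quotient.out y))))
          (FilI (I n) (lv n) (redI N (I n) (ρ (Quotient.out x)))))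
          < 4 * C * finrank F (Td F d (lv n)) := by
        have h3 : dist (φ n x) (φ n y) ^ 2 < (K : ℝ) ^ 2 :=
          pow_lt_pow_left₀ hcon dist_nonneg two_ne_zero
        rw [hd] at h3
        have h4 : ((C : ℕ) : ℝ) = 2 ^ d * (K : ℝ) ^ 2 + 1 := by rw [hC]; push_cast; rfl
        have h5 : (lv n : ℝ) ^ 2 *
          Ksq (FilI (I n) (lv n) (redI N (I n) (ρ (Quotient.out x))))
          (FilI (I n) (lv n) (redI N (I n) (ρ (Quotient.out y))))
          ≤ (K : ℝ) ^ 2 * finrank F (Td F d (lv n)) := by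
          have h6 := mul_le_mul_of_nonneg_right h3.le hp.le
          have h7 : κ n * Ksq (FilI (I n) (lv n) (redI N (I n) (ρ (Quotient.out x))))
            (FilI (I n) (lv n) (redI N (I n) (ρ (Quotient.out y)))) * finrank F (Td F d (lv n))
            = (lv n : ℝ) ^ 2 *
              Ksq (FilI (I n) (lv n) (redI N (I n) (ρ (Quotient.out x))))
              (FilI (I n) (lv n) (redI N (I n) (ρ (Quotient.out y)))) := by
            show (lv n : ℝ) ^ 2 / finrank F (Td F d (lv n)) * _ * _ = _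
            field_simp
          rw [h7] at h6
          exact h6
        rw [Ksq_symm]
        have h8 := mul_le_mul_of_nonneg_left h5 (by positivity : (0 : ℝ) ≤ 2 ^ d)
        refine h8.trans_lt ?_
        rw [h4]
        have h9 : (0 : ℝ) ≤ 2 ^ d * (K : ℝ) ^ 2 := by positivity
        nlinarith
      obtain ⟨A, hA1, hA2⟩ := lift_low (N := N) (by omega) (by omega) (hgood n) (hprime' n)
        (by omega) hK
      have hA3 : A ∈ Set.range ρ := by
        by_contra hA
        apply hn3 A hA1 hA ((Quotient.out x)⁻¹ * Quotient.out y)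
        rw [map_mul, map_mul, map_inv, map_inv]
        exact hA2.symm
      obtain ⟨γ, rfl⟩ := hA3
      have h3 := (hred n γ x y).2 hA2
      have h4 := wordLen_quot_le (N := ((redI N (I n)).comp ρ).ker) hS γ
      rw [h3] at h4
      have h5 : wordLen (S : Set G) γ ≤ L := hL ⟨γ, hA1, rfl⟩
      rw [h1] at hx2
      have h6 : ((wordLen ((QuotientGroup.mk : G → G ⧸ ((redI N (I n)).comp ρ).ker) '' S)
          (x⁻¹ * y) : ℕ) : ℝ) ≤ L := by exact_mod_cast h4.trans h5
      linarith)
  -- upper control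
  let up : ℕ → ℝ := fun k => N * (k : ℝ) ^ 2 * finrank F (Td F d (k + 1))
  have hup : Monotone up := by
    intro k l hkl
    have e1 : (k : ℝ) ≤ l := by exact_mod_cast hkl
    have e2 : (finrank F (Td F d (k + 1)) : ℝ) ≤ finrank F (Td F d (l + 1)) := by
      exact_mod_cast Submodule.finrank_mono (Td_mono (F := F) (d := d) (by omega : k + 1 ≤ l + 1))
    have e3 : (k : ℝ) ^ 2 ≤ (l : ℝ) ^ 2 := pow_le_pow_left₀ (Nat.cast_nonneg _) e1 2
    show N * (k : ℝ) ^ 2 * finrank F (Td F d (k + 1))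
      ≤ N * (l : ℝ) ^ 2 * finrank F (Td F d (l + 1))
    gcongr
  have hG := union_emb (Y := Y) hb h2 hY φ rm (fun t => √(up (δ * ⌊t⌋₊))) (m1.monotoneOn _)
    (by
      intro s _ t _ hst
      apply Real.sqrt_le_sqrt
      apply hup
      exact Nat.mul_le_mul_left _ (Nat.floor_le_floor hst)) m2 (by
      intro n x y
      refine ⟨m3 ⟨n, x, y⟩, ?_⟩
      apply Real.le_sqrt_of_sq_le
      rw [hd, h1, Nat.floor_natCast]
      obtain ⟨γ, hγ1, hγ2⟩ := exists_lift_word hS (x⁻¹ * y)
      obtain ⟨l, l1, l2, l3⟩ := exists_min_word hS γ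
      have h3 : (l.map ρ).prod ∈ hB F d N (δ * (l.map ρ).length) := by
        apply hB_word (S := ρ '' (S : Set G))
        · rintro _ ⟨s, hs, rfl⟩
          exact hδ s hs
        · intro x hx
          obtain ⟨a, ha, rfl⟩ := List.mem_map.1 hx
          rcases l2 a ha with h | h
          · exact Or.inl ⟨a, h, rfl⟩
          · exact Or.inr ⟨a⁻¹, h, map_inv ρ a⟩
      rw [← map_list_prod, List.length_map, l3, l1] at h3
      refine le_trans ?_ (hup (Nat.mul_le_mul_left δ hγ2))
      set k := δ * wordLen (S : Set G) γ with hk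
      rcases Nat.eq_zero_or_pos (lv n) with h0 | h0
      · have : κ n = 0 := by
          show (lv n : ℝ) ^ 2 / _ = 0
          rw [h0]
          simp
        rw [this, zero_mul]
        show (0 : ℝ) ≤ N * (k : ℝ) ^ 2 * finrank F (Td F d (k + 1))
        positivity
      · have hp := hpos n h0
        have hm' : (0 : ℝ) < lv n := by exact_mod_cast h0
        have h4 := FilI_up h0 h3 ((hred n γ x y).1 hγ1)
        have h5 := mul_le_mul_of_nonneg_left h4 (hκ n)
        refine h5.trans ?_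
        have h6 : (finrank F (Td F d (lv n + k)) : ℝ)
            ≤ finrank F (Td F d (lv n)) * finrank F (Td F d (k + 1)) := by
          exact_mod_cast Helper7.CE.T1 F d h0 k
        have h7 : κ n * (N * finrank F (Td F d (lv n + k)) * ((k : ℝ) / lv n) ^ 2)
            = N * (k : ℝ) ^ 2 * ((finrank F (Td F d (lv n + k)) : ℝ)
              / finrank F (Td F d (lv n))) := by
          show (lv n : ℝ) ^ 2 / finrank F (Td F d (lv n)) * _ = _
          field_simp
        rw [h7]
        show _ ≤ N * (k : ℝ) ^ 2 * finrank F (Td F d (k + 1))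
        apply mul_le_mul_of_nonneg_left _ (by positivity)
        rw [div_le_iff₀ hp, mul_comm]
        exact h6)
  exact coarse_of_scales fun k => glue_scale hG k

end Pool.Agent.Helper15.CE
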