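import Mathlib
import Pool.Agent.Helper7.CE.PolyPart
import Pool.Agent.Helper15.CE.Est
import Pool.Agent.Helper15.CE.Word

/-!
Degree filtrations of `(F[X]/f)^N` and the action of `SL_N(F[X]/f)`.
-/

open Polynomial

namespace Pool.Agent.Helper15.CE

open Module Helper7.CE

variable {F : Type*} [Field F] {f : F[X]} {N : ℕ}

theorem wb_le {d : WithBot ℕ} {k : ℕ} (h : d < ((k + 1 : ℕ) : WithBot ℕ)) :
    d ≤ ((k : ℕ) : WithBot ℕ) := by
  induction d with
  | bot => exact bot_le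
  | coe d =>
    have h1 : d < k + 1 := WithBot.coe_lt_coe.1 h
    exact WithBot.coe_le_coe.2 (Nat.lt_succ_iff.1 h1)

theorem rep_zero (hf : f.Monic) : rep hf 0 = 0 := map_zero (AdjoinRoot.modByMonicHom hf)

/-- vectors of reduced degree less than `m` -/
noncomputable def Lv (hf : f.Monic) (N m : ℕ) : Submodule F (Fin N → AdjoinRoot f) where
  carrier := {v | ∀ i, rd hf (v i) < (m : WithBot ℕ)}
  add_mem' {a b} ha hb i := by
    have e : rep hf ((a + b) i) = rep hf (a i) + rep hf (b i) :=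
      map_add (AdjoinRoot.modByMonicHom hf) (a i) (b i)
    unfold rd
    rw [e]
    exact (degree_add_le _ _).trans_lt (max_lt (ha i) (hb i))
  zero_mem' i := by
    unfold rd
    rw [Pi.zero_apply, rep_zero, degree_zero]
    exact WithBot.bot_lt_coe m
  smul_mem' c v hv i := by
    have e : rep hf ((c • v) i) = c • rep hf (v i) :=
      map_smul (AdjoinRoot.modByMonicHom hf) c (v i)
    unfold rd
    rw [e]
    exact (degree_smul_le _ _).trans_lt (hv i)

theorem mem_Lv {hf : f.Monic} {m : ℕ} {v : Fin N → AdjoinRoot f} :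
    v ∈ Lv hf N m ↔ ∀ i, rd hf (v i) < (m : WithBot ℕ) := Iff.rfl

theorem Lv_mono (hf : f.Monic) {m k : ℕ} (h : m ≤ k) : Lv hf N m ≤ Lv hf N k := by
  intro v hv i
  refine (hv i).trans_le ?_
  exact_mod_cast h

theorem Lv_zero {hf : f.Monic} {v : Fin N → AdjoinRoot f} (hv : v ∈ Lv hf N 0) : v = 0 := by
  funext i
  have h := hv i
  have h2 : (rep hf (v i)).degree < ((0 : ℕ) : WithBot ℕ) := h
  have h3 : rep hf (v i) = 0 := by
    by_contra hne
    have := zero_le_degree_iff.2 hne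
    exact absurd (this.trans_lt h2) (lt_irrefl _)
  rw [← mk_rep hf (v i), h3, map_zero]
  rfl

theorem Lv_top (hf : f.Monic) {m : ℕ} (h : f.natDegree ≤ m) : Lv hf N m = ⊤ := by
  rw [eq_top_iff]
  intro v _ i
  refine (rd_lt hf (v i)).trans_le ?_
  rw [degree_eq_natDegree hf.ne_zero]
  exact_mod_cast h

theorem rd_mul_lt (hf : f.Monic) {p : F[X]} {δ m : ℕ} (hp : p.natDegree ≤ δ) {q : AdjoinRoot f}
    (hq : rd hf q < (m : WithBot ℕ)) :
    rd hf (AdjoinRoot.mk f p * q) < ((m + δ : ℕ) : WithBot ℕ) := by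
  have e : AdjoinRoot.mk f p * q = AdjoinRoot.mk f (p * rep hf q) := by
    rw [map_mul, mk_rep]
  rw [e]
  refine (rd_mk_le hf _).trans_lt ?_
  by_cases h0 : p * rep hf q = 0
  · rw [h0, degree_zero]
    exact WithBot.bot_lt_coe _
  · have h1 : rep hf q ≠ 0 := right_ne_zero_of_mul h0
    have h2 : (rep hf q).natDegree < m := (natDegree_lt_iff_degree_lt h1).2 hq
    rw [degree_eq_natDegree h0]
    have h3 := natDegree_mul_le (p := p) (q := rep hf q)
    have h4 : (p * rep hf q).natDegree < m + δ := by omega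
    exact_mod_cast h4

theorem mulVec_mem (hf : f.Monic) {A : Matrix (Fin N) (Fin N) F[X]} {δ m : ℕ}
    (hA : ∀ i j, (A i j).natDegree ≤ δ) {v : Fin N → AdjoinRoot f} (hv : v ∈ Lv hf N m) :
    (A.map (AdjoinRoot.mk f)).mulVec v ∈ Lv hf N (m + δ) := by
  intro i
  have e : (A.map (AdjoinRoot.mk f)).mulVec v i
      = ∑ j, AdjoinRoot.mk f (A i j) * v j := rfl
  rw [e]
  have key : ∀ s : Finset (Fin N), rd hf (∑ j ∈ s, AdjoinRoot.mk f (A i j) * v j)
      < ((m + δ : ℕ) : WithBot ℕ) := by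
    intro s
    induction s using Finset.cons_induction with
    | empty =>
      unfold rd
      rw [Finset.sum_empty, rep_zero, degree_zero]
      exact WithBot.bot_lt_coe _
    | cons a s ha ih =>
      rw [Finset.sum_cons]
      have e2 : rep hf (AdjoinRoot.mk f (A i a) * v a + ∑ j ∈ s, AdjoinRoot.mk f (A i j) * v j)
          = rep hf (AdjoinRoot.mk f (A i a) * v a)
            + rep hf (∑ j ∈ s, AdjoinRoot.mk f (A i j) * v j) :=
        map_add (AdjoinRoot.modByMonicHom hf) _ _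
      unfold rd
      rw [e2]
      exact (degree_add_le _ _).trans_lt (max_lt (rd_mul_lt hf (hA i a) (hv a)) ih)
  exact key Finset.univ

/-- the filtration of a group element -/
noncomputable def Fil (hf : f.Monic) (g : Matrix.SpecialLinearGroup (Fin N) (AdjoinRoot f)) :
    Filt F (Fin N → AdjoinRoot f) where
  lev s := (Lv hf N ⌊(1 - s) * f.natDegree⌋₊).comap
    ((Matrix.mulVecLin (g⁻¹).1).restrictScalars F)
  anti s t hst := by
    apply Submodule.comap_mono
    apply Lv_mono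
    apply Nat.floor_le_floor
    apply mul_le_mul_of_nonneg_right _ (Nat.cast_nonneg _)
    linarith
  top s hs := by
    rw [Lv_top hf]
    · rfl
    · apply Nat.le_floor
      have h1 : (1 : ℝ) ≤ 1 - s := by linarith
      have h2 : (0 : ℝ) ≤ f.natDegree := Nat.cast_nonneg _
      nlinarith

theorem mem_Fil {hf : f.Monic} {g : Matrix.SpecialLinearGroup (Fin N) (AdjoinRoot f)} {s : ℝ}
    {v : Fin N → AdjoinRoot f} :
    v ∈ (Fil hf g).lev s ↔ (g⁻¹).1.mulVec v ∈ Lv hf N ⌊(1 - s) * f.natDegree⌋₊ := Iff.rfl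

/-- matrices such that the entries of the matrix and of its inverse have degree at most `δ` -/
def Hb (F : Type*) [Field F] (N δ : ℕ) : Set (Matrix.SpecialLinearGroup (Fin N) F[X]) :=
  {A | A ∈ slBall F N δ ∧ A⁻¹ ∈ slBall F N δ}

theorem Hb_inv {δ : ℕ} {A : Matrix.SpecialLinearGroup (Fin N) F[X]} (h : A ∈ Hb F N δ) :
    A⁻¹ ∈ Hb F N δ := ⟨h.2, by rw [inv_inv]; exact h.1⟩

theorem slBall_mul {δ ε : ℕ} {A B : Matrix.SpecialLinearGroup (Fin N) F[X]}
    (hA : A ∈ slBall F N δ) (hB : B ∈ slBall F N ε) : A * B ∈ slBall F N (δ + ε) := by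
  intro i j
  have e : (A * B).1 i j = ∑ k, A.1 i k * B.1 k j := rfl
  rw [e]
  apply natDegree_sum_le_of_forall_le
  intro k _
  exact natDegree_mul_le.trans (Nat.add_le_add (hA i k) (hB k j))

theorem Hb_mul {δ ε : ℕ} {A B : Matrix.SpecialLinearGroup (Fin N) F[X]}
    (hA : A ∈ Hb F N δ) (hB : B ∈ Hb F N ε) : A * B ∈ Hb F N (δ + ε) := by
  refine ⟨slBall_mul hA.1 hB.1, ?_⟩
  rw [mul_inv_rev, Nat.add_comm]
  exact slBall_mul hB.2 hA.2

theorem Hb_one : (1 : Matrix.SpecialLinearGroup (Fin N) F[X]) ∈ Hb F N 0 := by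
  have h : (1 : Matrix.SpecialLinearGroup (Fin N) F[X]) ∈ slBall F N 0 := by
    intro i j
    have e : (1 : Matrix.SpecialLinearGroup (Fin N) F[X]).1 i j
        = (1 : Matrix (Fin N) (Fin N) F[X]) i j := rfl
    rw [e, Matrix.one_apply]
    split_ifs <;> simp
  exact ⟨h, by rw [inv_one]; exact h⟩

theorem Hb_word {S : Set (Matrix.SpecialLinearGroup (Fin N) F[X])} {δ : ℕ}
    (hS : ∀ s ∈ S, s ∈ Hb F N δ) (l : List (Matrix.SpecialLinearGroup (Fin N) F[X]))
    (hl : ∀ x ∈ l, x ∈ S ∨ x⁻¹ ∈ S) : l.prod ∈ Hb F N (δ * l.length) := by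
  induction l with
  | nil => simpa using Hb_one
  | cons a l ih =>
    have h1 := ih fun x hx => hl x (List.mem_cons_of_mem _ hx)
    have h2 : a ∈ Hb F N δ := by
      rcases hl a List.mem_cons_self with h | h
      · exact hS a h
      · have := Hb_inv (hS _ h)
        rwa [inv_inv] at this
    rw [List.prod_cons, List.length_cons, Nat.mul_add, Nat.mul_one, Nat.add_comm]
    exact Hb_mul h2 h1

theorem finrank_V (hf : f.Monic) [Module.Finite F (AdjoinRoot f)] :
    finrank F (Fin N → AdjoinRoot f) = N * f.natDegree := by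
  rw [Module.finrank_pi_fintype]
  have h : finrank F (AdjoinRoot f) = f.natDegree := by
    rw [(AdjoinRoot.powerBasis' hf).finrank, AdjoinRoot.powerBasis'_dim]
  simp [h]

theorem Fil_shift (hf : f.Monic) (he : 0 < f.natDegree)
    {g h : Matrix.SpecialLinearGroup (Fin N) (AdjoinRoot f)}
    {A : Matrix.SpecialLinearGroup (Fin N) F[X]} {δ : ℕ} (hA : A ∈ slBall F N δ)
    (hgh : h⁻¹ = Matrix.SpecialLinearGroup.map (AdjoinRoot.mk f) A * g⁻¹) (s : ℝ) :
    (Fil hf g).lev (s + δ / f.natDegree) ≤ (Fil hf h).lev s := by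
  have he' : (0 : ℝ) < f.natDegree := by exact_mod_cast he
  intro v hv
  rw [mem_Fil] at hv ⊢
  have e1 : (h⁻¹).1.mulVec v = ((A.1).map (AdjoinRoot.mk f)).mulVec ((g⁻¹).1.mulVec v) := by
    rw [hgh, Matrix.mulVec_mulVec]
    rfl
  rw [e1]
  have e2 : (1 - (s + δ / f.natDegree)) * f.natDegree = (1 - s) * f.natDegree - (δ : ℝ) := by
    field_simp
    ring
  rw [e2] at hv
  rcases le_or_gt 0 ((1 - s) * f.natDegree - (δ : ℝ)) with h0 | h0
  · have h1 := mulVec_mem hf hA hv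
    have h2 : ⌊(1 - s) * f.natDegree - (δ : ℝ)⌋₊ + δ = ⌊(1 - s) * (f.natDegree : ℝ)⌋₊ := by
      rw [← Nat.floor_add_natCast h0, sub_add_cancel]
    rw [h2] at h1
    exact h1
  · rw [Nat.floor_of_nonpos h0.le] at hv
    rw [Lv_zero hv, Matrix.mulVec_zero]
    exact Submodule.zero_mem _

theorem Fil_up (hf : f.Monic) [Module.Finite F (AdjoinRoot f)] (he : 0 < f.natDegree)
    {g h : Matrix.SpecialLinearGroup (Fin N) (AdjoinRoot f)}
    {A : Matrix.SpecialLinearGroup (Fin N) F[X]} {δ : ℕ} (hA : A ∈ Hb F N δ)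
    (hgh : Matrix.SpecialLinearGroup.map (AdjoinRoot.mk f) A = g⁻¹ * h) :
    f.natDegree * Ksq (Fil hf g) (Fil hf h) ≤ N * δ ^ 2 := by
  have he' : (0 : ℝ) < f.natDegree := by exact_mod_cast he
  have h1 : ∀ s, (Fil hf g).lev (s + δ / f.natDegree) ≤ (Fil hf h).lev s := by
    apply Fil_shift hf he hA.2
    rw [map_inv, hgh, mul_inv_rev, inv_inv, mul_assoc, mul_inv_cancel, mul_one]
  have h2 : ∀ s, (Fil hf h).lev (s + δ / f.natDegree) ≤ (Fil hf g).lev s := by
    apply Fil_shift hf he hA.1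
    rw [hgh, mul_assoc, mul_inv_cancel, mul_one]
  have h3 := Ksq_le (by positivity : (0 : ℝ) ≤ δ / f.natDegree) h1 h2
  have h4 : rk (⊤ : Submodule F (Fin N → AdjoinRoot f)) = N * f.natDegree := by
    unfold rk
    rw [finrank_top, finrank_V hf]
    push_cast
    rfl
  rw [h4] at h3
  have h5 := mul_le_mul_of_nonneg_left h3 he'.le
  refine h5.trans (le_of_eq ?_)
  field_simp

theorem Fil_low (hf : f.Monic) [Module.Finite F (AdjoinRoot f)]
    {g h : Matrix.SpecialLinearGroup (Fin N) (AdjoinRoot f)} {C : ℕ} (hC : 0 < C)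
    (he : 4 * (C + 1) ≤ f.natDegree) (hNC : N * C < f.natDegree)
    (hK : f.natDegree * Ksq (Fil hf g) (Fil hf h) < 2 * C) :
    ∃ A ∈ slBall F N C, Matrix.SpecialLinearGroup.map (AdjoinRoot.mk f) A = h⁻¹ * g := by
  have he0 : 0 < f.natDegree := by omega
  have he' : (0 : ℝ) < f.natDegree := by exact_mod_cast he0
  have hC' : (0 : ℝ) < C := by exact_mod_cast hC
  have hc : (0 : ℝ) < C / f.natDegree := by positivity
  obtain ⟨s, hs1, hs2, hs3⟩ := exists_contain (Φ := Fil hf g) (Ψ := Fil hf h) hc (by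
    rw [← mul_div_assoc, lt_div_iff₀ he', mul_comm]
    exact hK)
  set m := ⌊(1 - s) * (f.natDegree : ℝ)⌋₊ with hm
  have hpos : 0 ≤ (1 - s) * (f.natDegree : ℝ) := mul_nonneg (by linarith) he'.le
  have e2 : (1 - (s - C / f.natDegree)) * f.natDegree = (1 - s) * f.natDegree + (C : ℝ) := by
    field_simp
    ring
  have e3 : ⌊(1 - (s - C / f.natDegree)) * (f.natDegree : ℝ)⌋₊ = m + C := by
    rw [e2, Nat.floor_add_natCast hpos]
  have hC4 : (4 * (C + 1) : ℝ) ≤ f.natDegree := by exact_mod_cast he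
  have hm1 : 1 ≤ m := by
    apply Nat.le_floor
    push_cast
    nlinarith
  have hm2 : m + C + 1 ≤ f.natDegree := by
    have h1 : (m : ℝ) ≤ (1 - s) * f.natDegree := Nat.floor_le hpos
    have h2 : (1 - s) * f.natDegree ≤ 3 / 4 * f.natDegree :=
      mul_le_mul_of_nonneg_right (by linarith) he'.le
    have h3 : ((m + C + 1 : ℕ) : ℝ) ≤ f.natDegree := by
      push_cast
      linarith
    exact_mod_cast h3
  obtain ⟨a, ha⟩ : ∃ a, m = a + 1 := ⟨m - 1, by omega⟩
  apply exists_lift hf (h⁻¹ * g) a C (by omega) hNC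
  intro v hv i
  have hv2 : v ∈ Lv hf N m := by
    intro j
    rw [ha]
    refine (hv j).trans_lt ?_
    exact_mod_cast Nat.lt_succ_self a
  have hv3 : g.1.mulVec v ∈ (Fil hf g).lev s := by
    rw [mem_Fil, Matrix.mulVec_mulVec]
    have e4 : (g⁻¹).1 * g.1 = 1 := by
      have : (g⁻¹ * g).1 = (g⁻¹).1 * g.1 := rfl
      rw [← this, inv_mul_cancel]
      rfl
    rw [e4, Matrix.one_mulVec]
    exact hv2
  have hv4 := hs3 hv3
  rw [mem_Fil, Matrix.mulVec_mulVec, e3] at hv4
  have h5 := hv4 i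
  have h6 : (((a + C + 1 : ℕ)) : WithBot ℕ) = ((m + C : ℕ) : WithBot ℕ) := by
    congr 1
    omega
  have h7 : rd hf ((h⁻¹ * g).1.mulVec v i) < ((a + C + 1 : ℕ) : WithBot ℕ) := by
    rw [h6]
    exact h5
  exact wb_le h7

end Pool.Agent.Helper15.CE
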